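import Pool.Agent.Work.MP_02e829_fr.Interface

/-!
# Block BEL: the quadratic differential is holomorphic
-/

open Set Matrix Filter
open scoped Topology ContDiff

set_option autoImplicit false

namespace Pool.FR

namespace BELaux

variable {U : Set E2} {F F' : E2 → V3}

theorem contDiffOn_gg (hU : IsOpen U) (hF : Imm F U) (i j : Fin 2) :
    ContDiffOn ℝ 3 (gg F i j) U :=
  contDiffOn_dot (pd_contDiffOn hU hF.smooth (by norm_num) i)
    (pd_contDiffOn hU hF.smooth (by norm_num) j)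

theorem contDiffOn_DD (hU : IsOpen U) (hF : Imm F U) : ContDiffOn ℝ 3 (DD F) U := by
  have h : DD F = fun y => gg F 0 0 y * gg F 1 1 y - gg F 0 1 y ^ 2 := rfl
  rw [h]
  exact ((contDiffOn_gg hU hF 0 0).mul (contDiffOn_gg hU hF 1 1)).sub
    ((contDiffOn_gg hU hF 0 1).pow 2)

theorem gg00_pos (hF : Imm F U) {x : E2} (hx : x ∈ U) : 0 < gg F 0 0 x := by
  have hD := hF.pos x hx
  rw [DD] at hD
  have h0 : 0 ≤ gg F 0 0 x := by
    rw [gg, dotProduct]
    exact Finset.sum_nonneg fun a _ => mul_self_nonneg _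
  have h1 : 0 ≤ gg F 1 1 x := by
    rw [gg, dotProduct]
    exact Finset.sum_nonneg fun a _ => mul_self_nonneg _
  rcases h0.eq_or_lt with h | h
  · rw [← h] at hD
    nlinarith [sq_nonneg (gg F 0 1 x)]
  · exact h

theorem contDiffOn_ofReal {f : E2 → ℝ} {n : WithTop ℕ∞} (hf : ContDiffOn ℝ n f U) :
    ContDiffOn ℝ n (fun y => (f y : ℂ)) U :=
  Complex.ofRealCLM.contDiff.comp_contDiffOn hf

theorem pd_ofReal (i : Fin 2) {f : E2 → ℝ} {x : E2} (hf : DifferentiableAt ℝ f x) :
    pd i (fun y => (f y : ℂ)) x = ((pd i f x : ℝ) : ℂ) :=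
  pd_clm i Complex.ofRealCLM hf

theorem pd_re (i : Fin 2) {f : E2 → ℂ} {x : E2} (hf : DifferentiableAt ℝ f x) :
    pd i (fun y => (f y).re) x = (pd i f x).re :=
  pd_clm i Complex.reCLM hf

theorem contDiffOn_bet (hU : IsOpen U) (hF : Imm F U) : ContDiffOn ℝ 3 (bet F) U := by
  have h : bet F = fun y => ((gg F 0 1 y : ℂ) + Complex.I * (Real.sqrt (DD F y) : ℂ)) *
      (((gg F 0 0 y)⁻¹ : ℝ) : ℂ) := by
    funext y
    rw [bet, div_eq_mul_inv]
    push_cast
    rfl
  rw [h]
  refine ContDiffOn.mul (ContDiffOn.add (contDiffOn_ofReal (contDiffOn_gg hU hF 0 1))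
    (contDiffOn_const.mul (contDiffOn_ofReal ?_))) (contDiffOn_ofReal ?_)
  · exact (contDiffOn_DD hU hF).sqrt fun x hx => (hF.pos x hx).ne'
  · exact (contDiffOn_gg hU hF 0 0).inv fun x hx => (gg00_pos hF hx).ne'

theorem bet_re (F : E2 → V3) (x : E2) : (bet F x).re = gg F 0 1 x / gg F 0 0 x := by
  rw [bet, Complex.div_ofReal_re]
  simp

theorem bet_im (F : E2 → V3) (x : E2) : (bet F x).im = Real.sqrt (DD F x) / gg F 0 0 x := by
  rw [bet, Complex.div_ofReal_im]
  simp

theorem bet_im_pos (hF : Imm F U) {x : E2} (hx : x ∈ U) : 0 < (bet F x).im := by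
  rw [bet_im]
  exact div_pos (Real.sqrt_pos.2 (hF.pos x hx)) (gg00_pos hF hx)

/-- the quadratic equation of `bet` -/
theorem bet_eq (hF : Imm F U) {x : E2} (hx : x ∈ U) :
    (gg F 0 0 x : ℂ) * (bet F x * bet F x) - 2 * ((gg F 0 1 x : ℂ) * bet F x) +
      (gg F 1 1 x : ℂ) = 0 := by
  have hg : gg F 0 0 x ≠ 0 := (gg00_pos hF hx).ne'
  have hs : Real.sqrt (DD F x) * Real.sqrt (DD F x) =
      gg F 0 0 x * gg F 1 1 x - gg F 0 1 x ^ 2 := by
    rw [Real.mul_self_sqrt (hF.pos x hx).le, DD]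
  apply Complex.ext
  · simp only [Complex.add_re, Complex.sub_re, Complex.mul_re, Complex.ofReal_re,
      Complex.ofReal_im, bet_re, bet_im, Complex.zero_re, Complex.re_ofNat, Complex.im_ofNat,
      Complex.mul_im]
    field_simp
    linear_combination (-gg F 0 0 x) * hs
  · simp only [Complex.add_im, Complex.sub_im, Complex.mul_re, Complex.ofReal_re,
      Complex.ofReal_im, bet_re, bet_im, Complex.zero_im, Complex.re_ofNat, Complex.im_ofNat,
      Complex.mul_im]
    field_simp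
    ring

/-- the derivative of `bet` -/
theorem pd_bet (hCHR : Stmt_CHR) (hU : IsOpen U) (hF : Imm F U) {x : E2} (hx : x ∈ U)
    (i : Fin 2) :
    pd i (bet F) x = (Gb F 0 i 1 x : ℂ) + (Gb F 1 i 1 x : ℂ) * bet F x -
      (Gb F 0 i 0 x : ℂ) * bet F x - (Gb F 1 i 0 x : ℂ) * (bet F x * bet F x) := by
  obtain ⟨hC, -, -⟩ := hCHR U hU F hF
  have hgd : ∀ i j, DifferentiableAt ℝ (gg F i j) x := fun i j =>
    diff_at hU (contDiffOn_gg hU hF i j) (by norm_num) hx
  have hgc : ∀ i j, DifferentiableAt ℝ (fun y => (gg F i j y : ℂ)) x := fun i j =>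
    diff_at hU (contDiffOn_ofReal (contDiffOn_gg hU hF i j)) (by norm_num) hx
  have hb : DifferentiableAt ℝ (bet F) x := diff_at hU (contDiffOn_bet hU hF) (by norm_num) hx
  have hbb : DifferentiableAt ℝ (fun y => bet F y * bet F y) x := hb.mul hb
  have h2 : DifferentiableAt ℝ (fun _ : E2 => (2 : ℂ)) x := differentiableAt_const _
  have e1 : DifferentiableAt ℝ (fun y => (gg F 0 0 y : ℂ) * (bet F y * bet F y)) x :=
    (hgc 0 0).mul hbb
  have e2 : DifferentiableAt ℝ (fun y => (gg F 0 1 y : ℂ) * bet F y) x := (hgc 0 1).mul hb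
  have e3 : DifferentiableAt ℝ (fun y => 2 * ((gg F 0 1 y : ℂ) * bet F y)) x := h2.mul e2
  have e4 : DifferentiableAt ℝ (fun y => (gg F 0 0 y : ℂ) * (bet F y * bet F y) -
      2 * ((gg F 0 1 y : ℂ) * bet F y)) x := e1.sub e3
  have hd : pd i (fun y => (gg F 0 0 y : ℂ) * (bet F y * bet F y) -
      2 * ((gg F 0 1 y : ℂ) * bet F y) + (gg F 1 1 y : ℂ)) x = 0 := by
    rw [pd_congr hU (g := fun _ => (0 : ℂ)) (fun y hy => bet_eq hF hy) i hx, pd_const]
  rw [pd_add i e4 (hgc 1 1), pd_sub i e1 e3, pd_cmul i (hgc 0 0) hbb, pd_cmul i hb hb,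
    pd_cmul i h2 e2, pd_const, pd_cmul i (hgc 0 1) hb, pd_ofReal i (hgd 0 0),
    pd_ofReal i (hgd 0 1), pd_ofReal i (hgd 1 1), hC x hx, hC x hx, hC x hx] at hd
  have hD : DD F x ≠ 0 := (hF.pos x hx).ne'
  have hDe : DD F x = gg F 0 0 x * gg F 1 1 x - gg F 0 1 x ^ 2 := rfl
  -- the symbols of the first kind
  have hGa0 : ∀ j, Ga F i j 0 x = Gb F 0 i j x * gg F 0 0 x + Gb F 1 i j x * gg F 0 1 x := by
    intro j
    rw [Gb, Gb, if_pos rfl, if_neg (by decide)]
    field_simp
    rw [hDe]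
    ring
  have hGa1 : ∀ j, Ga F i j 1 x = Gb F 0 i j x * gg F 0 1 x + Gb F 1 i j x * gg F 1 1 x := by
    intro j
    rw [Gb, Gb, if_pos rfl, if_neg (by decide)]
    field_simp
    rw [hDe]
    ring
  rw [hGa0, hGa0, hGa1, hGa1] at hd
  have hq := bet_eq hF hx
  -- divide by `g_01 - g_00 b ≠ 0`
  have hne : (gg F 0 1 x : ℂ) - (gg F 0 0 x : ℂ) * bet F x ≠ 0 := by
    intro h
    have him := congrArg Complex.im h
    simp only [Complex.sub_im, Complex.mul_im, Complex.ofReal_re, Complex.ofReal_im,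
      Complex.zero_im, zero_mul, add_zero, zero_sub, neg_eq_zero, mul_eq_zero] at him
    rcases him with h1 | h1
    · exact (gg00_pos hF hx).ne' h1
    · exact (bet_im_pos hF hx).ne' h1
  refine mul_left_cancel₀ hne ?_
  push_cast at hd
  generalize (gg F 0 0 x : ℂ) = g00 at *
  generalize (gg F 0 1 x : ℂ) = g01 at *
  generalize (gg F 1 1 x : ℂ) = g11 at *
  generalize (Gb F 0 i 0 x : ℂ) = G00 at *
  generalize (Gb F 1 i 0 x : ℂ) = G10 at *
  generalize (Gb F 0 i 1 x : ℂ) = G01 at *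
  generalize (Gb F 1 i 1 x : ℂ) = G11 at *
  generalize bet F x = b at *
  generalize pd i (bet F) x = db at *
  linear_combination (-1 / 2) * hd + (G11 - G10 * b) * hq

end BELaux

open BELaux in
theorem blk_BEL (hFRM : Stmt_FRM) (hCHR : Stmt_CHR) (hCOD : Stmt_COD) : Stmt_BEL := by
  intro U hU F F' hF hF' hg htau
  have hb3 := contDiffOn_bet hU hF
  have hb2 : ContDiffOn ℝ 2 (bet F) U := hb3.of_le (by norm_num)
  have hIIc : ∀ x ∈ U, ∀ i j, ContDiffOn ℝ 2 (II F i j) U := fun x hx =>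
    (hFRM U hU F hF x hx).2.2.2.2.2.2.2.2.2
  have hIIc' : ∀ x ∈ U, ∀ i j, ContDiffOn ℝ 2 (II F' i j) U := fun x hx =>
    (hFRM U hU F' hF' x hx).2.2.2.2.2.2.2.2.2
  have hIIs : ∀ x ∈ U, ∀ i j, II F i j x = II F j i x := fun x hx =>
    (hFRM U hU F hF x hx).2.2.2.2.1
  have hIIs' : ∀ x ∈ U, ∀ i j, II F' i j x = II F' j i x := fun x hx =>
    (hFRM U hU F' hF' x hx).2.2.2.2.1
  have hGs : ∀ x ∈ U, ∀ l, Gb F l 1 0 x = Gb F l 0 1 x := by
    intro x hx l
    have h := (hCHR U hU F hF).2.1 x hx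
    rw [Gb, Gb, h 1 0 0, h 1 0 1]
  have hGb : ∀ x ∈ U, ∀ i j k, Gb F' i j k x = Gb F i j k x := by
    intro x hx i j k
    exact (((hCHR U hU F hF).2.2 F' hF' hg) x hx i j k).2
  -- `phi` is of class `C^2`
  have hphi : ContDiffOn ℝ 2 (phi F F') U := by
    intro x hx
    have hT : ∀ i j, ContDiffOn ℝ 2 (fun y => II F' i j y - II F i j y) U := fun i j =>
      (hIIc' x hx i j).sub (hIIc x hx i j)
    have hre : ContDiffOn ℝ 2 (fun y => (bet F y).re) U :=
      Complex.reCLM.contDiff.comp_contDiffOn hb2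
    have him : ContDiffOn ℝ 2 (fun y => (bet F y).im) U :=
      Complex.imCLM.contDiff.comp_contDiffOn hb2
    have h : phi F F' = fun y => ((II F' 0 0 y - II F 0 0 y : ℝ) : ℂ) +
        Complex.I * ((((II F' 0 0 y - II F 0 0 y) * (bet F y).re - (II F' 0 1 y - II F 0 1 y)) /
        (bet F y).im : ℝ) : ℂ) := rfl
    have h2 : ContDiffOn ℝ 2 (phi F F') U := by
      rw [h]
      refine ContDiffOn.add (contDiffOn_ofReal (hT 0 0))
        (contDiffOn_const.mul (contDiffOn_ofReal ?_))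
      exact (((hT 0 0).mul hre).sub (hT 0 1)).div him fun y hy => (bet_im_pos hF hy).ne'
    exact h2 x hx
  -- components
  have T00 : ∀ y, (phi F F' y).re = II F' 0 0 y - II F 0 0 y := by
    intro y
    simp [phi]
  have Tim : ∀ y, (phi F F' y).im = ((II F' 0 0 y - II F 0 0 y) * (bet F y).re -
      (II F' 0 1 y - II F 0 1 y)) / (bet F y).im := by
    intro y
    simp [phi]
  have T01 : ∀ y ∈ U, (bet F y * phi F F' y).re = II F' 0 1 y - II F 0 1 y := by
    intro y hy
    have h := (bet_im_pos hF hy).ne'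
    rw [Complex.mul_re, T00, Tim]
    field_simp
    ring
  have T11 : ∀ y ∈ U, (bet F y * (bet F y * phi F F' y)).re = II F' 1 1 y - II F 1 1 y := by
    intro y hy
    have hD : DD F y ≠ 0 := (hF.pos y hy).ne'
    have hD' : DD F' y = DD F y := by rw [DD, DD, hg y hy, hg y hy, hg y hy]
    have ht := htau y hy
    rw [tau, tau, hD', hg y hy, hg y hy, hg y hy, div_left_inj' hD] at ht
    have hg0 : gg F 0 0 y ≠ 0 := (gg00_pos hF hy).ne'
    have hgc : (gg F 0 0 y : ℂ) ≠ 0 := by exact_mod_cast hg0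
    have hq := bet_eq hF hy
    have e : (gg F 0 0 y : ℂ) * (bet F y * (bet F y * phi F F' y)) =
        2 * ((gg F 0 1 y : ℂ) * (bet F y * phi F F' y)) - (gg F 1 1 y : ℂ) * phi F F' y := by
      linear_combination (phi F F' y) * hq
    have e' := congrArg Complex.re e
    rw [Complex.re_ofReal_mul, Complex.sub_re, Complex.re_ofReal_mul, T00 y] at e'
    have e3 : (2 * ((gg F 0 1 y : ℂ) * (bet F y * phi F F' y))).re =
        2 * (gg F 0 1 y * (II F' 0 1 y - II F 0 1 y)) := by
      have : (2 : ℂ) * ((gg F 0 1 y : ℂ) * (bet F y * phi F F' y)) =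
          ((2 * gg F 0 1 y : ℝ) : ℂ) * (bet F y * phi F F' y) := by
        push_cast
        ring
      rw [this, Complex.re_ofReal_mul, T01 y hy]
      ring
    rw [e3] at e'
    refine mul_left_cancel₀ hg0 ?_
    rw [e']
    linear_combination (-1) * ht
  refine ⟨hb2, fun x hx => bet_im_pos hF hx, hphi, ?_, ?_⟩
  · intro x hx
    have hbd : DifferentiableAt ℝ (bet F) x := diff_at hU hb2 (by norm_num) hx
    have hpd : DifferentiableAt ℝ (phi F F') x := diff_at hU hphi (by norm_num) hx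
    have hbp : DifferentiableAt ℝ (fun y => bet F y * phi F F' y) x := hbd.mul hpd
    have hbbp : DifferentiableAt ℝ (fun y => bet F y * (bet F y * phi F F' y)) x := hbd.mul hbp
    have hId : ∀ i j, DifferentiableAt ℝ (II F i j) x := fun i j =>
      diff_at hU (hIIc x hx i j) (by norm_num) hx
    have hId' : ∀ i j, DifferentiableAt ℝ (II F' i j) x := fun i j =>
      diff_at hU (hIIc' x hx i j) (by norm_num) hx
    -- derivatives of the components
    have d00 : ∀ k, pd k (II F' 0 0) x - pd k (II F 0 0) x = (pd k (phi F F') x).re := by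
      intro k
      rw [← pd_re k hpd, ← pd_sub k (hId' 0 0) (hId 0 0)]
      exact pd_congr hU (fun y _ => (T00 y).symm) k hx
    have d01 : ∀ k, pd k (II F' 0 1) x - pd k (II F 0 1) x =
        (pd k (bet F) x * phi F F' x + bet F x * pd k (phi F F') x).re := by
      intro k
      rw [← pd_cmul k hbd hpd, ← pd_re k hbp, ← pd_sub k (hId' 0 1) (hId 0 1)]
      exact pd_congr hU (fun y hy => (T01 y hy).symm) k hx
    have d11 : ∀ k, pd k (II F' 1 1) x - pd k (II F 1 1) x =
        (pd k (bet F) x * (bet F x * phi F F' x) + bet F x * (pd k (bet F) x * phi F F' x +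
          bet F x * pd k (phi F F') x)).re := by
      intro k
      rw [← pd_cmul k hbd hpd, ← pd_cmul k hbd hbp, ← pd_re k hbbp,
        ← pd_sub k (hId' 1 1) (hId 1 1)]
      exact pd_congr hU (fun y hy => (T11 y hy).symm) k hx
    obtain ⟨c1, c2⟩ := hCOD U hU F hF x hx
    obtain ⟨c1', c2'⟩ := hCOD U hU F' hF' x hx
    rw [hGb x hx, hGb x hx, hGb x hx, hGb x hx, hIIs' x hx 1 0] at c1'
    rw [hGb x hx, hGb x hx, hGb x hx, hGb x hx, hIIs' x hx 1 0] at c2'
    rw [hIIs x hx 1 0] at c1 c2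
    have b0 := pd_bet hCHR hU hF hx 0
    have b1 := pd_bet hCHR hU hF hx 1
    rw [hGs x hx, hGs x hx] at b1
    have t00 := T00 x
    have t01 := T01 x hx
    have t11 := T11 x hx
    have hbim := bet_im_pos hF hx
    have k0 := d00 1
    have k1 := d01 0
    have k2 := d01 1
    have k3 := d11 0
    -- the real parts of `b_i φ`
    have r0 : (pd 0 (bet F) x * phi F F' x).re =
        Gb F 0 0 1 x * (II F' 0 0 x - II F 0 0 x) + Gb F 1 0 1 x * (II F' 0 1 x - II F 0 1 x) -
        Gb F 0 0 0 x * (II F' 0 1 x - II F 0 1 x) - Gb F 1 0 0 x * (II F' 1 1 x - II F 1 1 x) := by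
      have e : pd 0 (bet F) x * phi F F' x = (Gb F 0 0 1 x : ℂ) * phi F F' x +
          (Gb F 1 0 1 x : ℂ) * (bet F x * phi F F' x) -
          (Gb F 0 0 0 x : ℂ) * (bet F x * phi F F' x) -
          (Gb F 1 0 0 x : ℂ) * (bet F x * (bet F x * phi F F' x)) := by
        rw [b0]
        ring
      rw [e, Complex.sub_re, Complex.sub_re, Complex.add_re, Complex.re_ofReal_mul,
        Complex.re_ofReal_mul, Complex.re_ofReal_mul, Complex.re_ofReal_mul, t00, t01, t11]
    have r1 : (pd 1 (bet F) x * phi F F' x).re =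
        Gb F 0 1 1 x * (II F' 0 0 x - II F 0 0 x) + Gb F 1 1 1 x * (II F' 0 1 x - II F 0 1 x) -
        Gb F 0 0 1 x * (II F' 0 1 x - II F 0 1 x) - Gb F 1 0 1 x * (II F' 1 1 x - II F 1 1 x) := by
      have e : pd 1 (bet F) x * phi F F' x = (Gb F 0 1 1 x : ℂ) * phi F F' x +
          (Gb F 1 1 1 x : ℂ) * (bet F x * phi F F' x) -
          (Gb F 0 0 1 x : ℂ) * (bet F x * phi F F' x) -
          (Gb F 1 0 1 x : ℂ) * (bet F x * (bet F x * phi F F' x)) := by
        rw [b1]
        ring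
      rw [e, Complex.sub_re, Complex.sub_re, Complex.add_re, Complex.re_ofReal_mul,
        Complex.re_ofReal_mul, Complex.re_ofReal_mul, Complex.re_ofReal_mul, t00, t01, t11]
    clear b0 b1 d00 d01 d11 hId hId' hbbp hbp hpd hbd
    generalize pd 0 (bet F) x = β0 at *
    generalize pd 1 (bet F) x = β1 at *
    generalize pd 0 (phi F F') x = φ0 at *
    generalize pd 1 (phi F F') x = φ1 at *
    generalize bet F x = β at *
    generalize phi F F' x = φ at *
    have X1 : (φ1 - β * φ0 - 2 * β0 * φ).re = 0 := by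
      have e : φ1 - β * φ0 - 2 * β0 * φ = φ1 - (β0 * φ + β * φ0) - β0 * φ := by ring
      rw [e, Complex.sub_re, Complex.sub_re, ← k0, ← k1, r0]
      linear_combination c1' - c1
    have X2 : (β * (φ1 - β * φ0 - 2 * β0 * φ)).re = 0 := by
      have e : β * (φ1 - β * φ0 - 2 * β0 * φ) = (β1 * φ + β * φ1) -
          (β0 * (β * φ) + β * (β0 * φ + β * φ0)) - β1 * φ := by ring
      rw [e, Complex.sub_re, Complex.sub_re, ← k2, ← k3, r1]
      linear_combination c2' - c2
    have X3 : φ1 - β * φ0 - 2 * β0 * φ = 0 := by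
      apply Complex.ext
      · rw [X1]; rfl
      · rw [Complex.mul_re, X1, mul_zero, zero_sub, neg_eq_zero, mul_eq_zero] at X2
        rcases X2 with h | h
        · exact absurd h hbim.ne'
        · rw [h]; rfl
    linear_combination X3
  · intro x hx
    constructor
    · intro h
      have t00 := T00 x
      have t01 := T01 x hx
      have t11 := T11 x hx
      rw [h] at t00 t01 t11
      simp only [mul_zero, Complex.zero_re] at t00 t01 t11
      intro i j
      fin_cases i <;> fin_cases j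
      · exact (sub_eq_zero.1 t00.symm)
      · exact (sub_eq_zero.1 t01.symm)
      · change II F' 1 0 x = II F 1 0 x
        rw [hIIs' x hx 1 0, hIIs x hx 1 0]
        exact (sub_eq_zero.1 t01.symm)
      · exact (sub_eq_zero.1 t11.symm)
    · intro h
      apply Complex.ext
      · rw [T00, h 0 0, sub_self]; rfl
      · rw [Tim, h 0 0, h 0 1, sub_self, sub_self, zero_mul, sub_zero, zero_div]; rfl

end Pool.FR
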