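import Pool.Agent.Work.MP_02e829_fr.Interface

/-!
# Block CHR: Christoffel symbols
-/

open Set Matrix Filter
open scoped Topology ContDiff

set_option autoImplicit false

namespace Pool.FR

namespace CHRaux

theorem diff_pd {U : Set E2} (hU : IsOpen U) {F : E2 → V3} (hF : Imm F U) (i : Fin 2) {x : E2}
    (hx : x ∈ U) : DifferentiableAt ℝ (pd i F) x := by
  have h3 : ContDiffOn ℝ 3 (pd i F) U := pd_contDiffOn hU hF.smooth (by norm_num) i
  exact diff_at hU h3 (by norm_num) hx

theorem pd_gg {U : Set E2} (hU : IsOpen U) {F : E2 → V3} (hF : Imm F U) {x : E2} (hx : x ∈ U)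
    (i j k : Fin 2) : pd k (gg F i j) x = Ga F k i j x + Ga F k j i x := by
  have h1 : pd k (gg F i j) x = pd k (fun y => pd i F y ⬝ᵥ pd j F y) x := rfl
  rw [h1, pd_dot k (diff_pd hU hF i hx) (diff_pd hU hF j hx), Ga, Ga,
    dotProduct_comm (pd i F x) (pd k (pd j F) x)]

theorem Ga_symm {U : Set E2} (hU : IsOpen U) {F : E2 → V3} (hF : Imm F U) {x : E2} (hx : x ∈ U)
    (i j k : Fin 2) : Ga F i j k x = Ga F j i k x := by
  rw [Ga, Ga, pd_comm hU hF.smooth (by norm_num) i j hx]

end CHRaux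

open CHRaux in
theorem blk_CHR : Stmt_CHR := by
  intro U hU F hF
  refine ⟨fun x hx i j k => pd_gg hU hF hx i j k, fun x hx i j k => Ga_symm hU hF hx i j k, ?_⟩
  intro F' hF' hg x hx
  have hGa : ∀ i j k, Ga F' i j k x = Ga F i j k x := by
    intro i j k
    have hE : ∀ a b c : Fin 2, Ga F' c a b x + Ga F' c b a x = Ga F c a b x + Ga F c b a x := by
      intro a b c
      rw [← pd_gg hU hF' hx a b c, ← pd_gg hU hF hx a b c]
      exact pd_congr hU (fun y hy => hg y hy a b) c hx
    have hS : ∀ a b c : Fin 2, Ga F a b c x = Ga F b a c x := fun a b c => Ga_symm hU hF hx a b c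
    have hS' : ∀ a b c : Fin 2, Ga F' a b c x = Ga F' b a c x :=
      fun a b c => Ga_symm hU hF' hx a b c
    have e1 := hE j k i
    have e2 := hE i k j
    have e3 := hE i j k
    have s1 := hS i j k
    have s2 := hS k i j
    have s3 := hS k j i
    have t1 := hS' i j k
    have t2 := hS' k i j
    have t3 := hS' k j i
    linarith
  have hDD : DD F' x = DD F x := by
    rw [DD, DD, hg x hx, hg x hx, hg x hx]
  intro i j k
  refine ⟨hGa i j k, ?_⟩
  rw [Gb, Gb, hDD, hGa, hGa, hg x hx, hg x hx, hg x hx]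

end Pool.FR
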