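import Pool.Agent.Work.MP_02e829_fr.Interface

/-!
# Block CHT: congruence propagates in a chart
-/

open Set Matrix Filter
open scoped Topology ContDiff

set_option autoImplicit false

namespace Pool.FR

namespace CHTb

theorem contDiffOn_mulVec {U : Set E2} {M : ℕ} {v : E2 → Fin M → ℝ} (A : Matrix (Fin 3) (Fin M) ℝ)
    (hv : ContDiffOn ℝ 4 v U) : ContDiffOn ℝ 4 (fun y => A *ᵥ v y) U := by
  set L : (Fin M → ℝ) →L[ℝ] V3 := LinearMap.toContinuousLinearMap A.mulVecLin with hL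
  have h := L.contDiff.comp_contDiffOn (n := 4) hv
  exact h

theorem DD_eq {F F' : E2 → V3} {x : E2} (h : ∀ i j, gg F' i j x = gg F i j x) :
    DD F' x = DD F x := by
  simp only [DD, h]

theorem imm {U : Set E2} {M : ℕ} {v : E2 → Fin M → ℝ} {c : ℝ → Matrix (Fin 3) (Fin M) ℝ}
    (h : Fam U M v c) {t : ℝ} (ht : t ∈ Icc (0 : ℝ) 1) : Imm (fun y => c t *ᵥ v y) U where
  smooth := contDiffOn_mulVec (c t) h.smooth
  pos := by
    intro x hx
    rw [DD_eq (h.iso t ht x hx)]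
    exact h.pos x hx

theorem gg_cont {U : Set E2} (hU : IsOpen U) {F : E2 → V3} (hF : ContDiffOn ℝ 4 F U) (i j : Fin 2) :
    ContinuousOn (gg F i j) U := by
  have h1 := pd_contDiffOn hU hF (m := 3) (by norm_num) i
  have h2 := pd_contDiffOn hU hF (m := 3) (by norm_num) j
  exact (contDiffOn_dot h1 h2).continuousOn

theorem tau_cont (hFRM : Stmt_FRM) {U : Set E2} (hU : IsOpen U) {F : E2 → V3} (hF : Imm F U) :
    ContinuousOn (tau F) U := by
  have hII : ∀ i j, ContinuousOn (II F i j) U := by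
    intro i j x hx
    exact (((hFRM U hU F hF x hx).2.2.2.2.2.2.2.2.2) i j).continuousOn x hx
  have hg := fun i j => gg_cont hU hF.smooth i j
  have hD : ContinuousOn (DD F) U := by
    have : DD F = fun x => gg F 0 0 x * gg F 1 1 x - gg F 0 1 x ^ 2 := rfl
    rw [this]
    exact ((hg 0 0).mul (hg 1 1)).sub ((hg 0 1).pow 2)
  have ht : tau F = fun x => (gg F 1 1 x * II F 0 0 x - 2 * gg F 0 1 x * II F 0 1 x +
      gg F 0 0 x * II F 1 1 x) / DD F x := rfl
  rw [ht]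
  refine ContinuousOn.div ?_ hD (fun x hx => (hF.pos x hx).ne')
  exact (((hg 1 1).mul (hII 0 0)).sub ((continuousOn_const.mul (hg 0 1)).mul (hII 0 1))).add
    ((hg 0 0).mul (hII 1 1))

end CHTb

open CHTb in
theorem blk_CHT (hPTW : Stmt_PTW) (hBEL : Stmt_BEL) (hUCP : Stmt_UCP) (hFUN : Stmt_FUN)
    (hMOT : Stmt_MOT) (hFRM : Stmt_FRM) : Stmt_CHT := by
  intro U M v c hfam hconn t ht hor
  have h0 : (0 : ℝ) ∈ Icc (0 : ℝ) 1 := ⟨le_rfl, zero_le_one⟩
  have hU := hfam.isOpen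
  set F : E2 → V3 := fun y => c 0 *ᵥ v y with hFdef
  set F' : E2 → V3 := fun y => c t *ᵥ v y with hF'def
  have hF : Imm F U := imm hfam h0
  have hF' : Imm F' U := imm hfam ht
  have hiso : ∀ x ∈ U, ∀ i j, gg F' i j x = gg F i j x := fun x hx i j => hfam.iso t ht x hx i j
  have htau : ∀ x ∈ U, tau F' x = tau F x := fun x hx => (hPTW U M v c hfam t ht x hx).1
  obtain ⟨hb2, hbim, hphi2, hbel, hiff⟩ := hBEL U hU F F' hF hF' hiso htau
  -- an open set where the second fundamental forms agree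
  have key : ∃ O : Set E2, IsOpen O ∧ O.Nonempty ∧ O ⊆ U ∧
      ∀ x ∈ O, ∀ i j, II F' i j x = II F i j x := by
    rcases hor with ⟨x, hx, hne⟩ | ⟨O, hO, hOne, hOU, hcong⟩
    · have hc := tau_cont hFRM hU hF
      have hopen : IsOpen (U ∩ tau F ⁻¹' {0}ᶜ) := hc.isOpen_inter_preimage hU isOpen_compl_singleton
      refine ⟨U ∩ tau F ⁻¹' {0}ᶜ, hopen, ⟨x, hx, hne⟩, inter_subset_left, ?_⟩
      rintro y ⟨hy, hy'⟩ i j
      exact (hPTW U M v c hfam t ht y hy).2 hy' i j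
    · refine ⟨O, hO, hOne, hOU, ?_⟩
      have hFO : Imm F O := ⟨hF.smooth.mono hOU, fun x hx => hF.pos x (hOU hx)⟩
      exact (hMOT O hO hOne F hFO).1 F' hcong
  obtain ⟨O, hO, hOne, hOU, hII⟩ := key
  have hzero : ∀ x ∈ O, phi F F' x = 0 := fun x hx => (hiff x (hOU hx)).2 (hII x hx)
  have hall : ∀ x ∈ U, phi F F' x = 0 := by
    refine hUCP U hU hconn (bet F) (fun x => 2 * pd 0 (bet F) x) (phi F F') (hb2.of_le (by norm_num))
      ?_ hphi2 hbim ?_ O hO hOne hOU hzero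
    · exact contDiffOn_const.mul (pd_contDiffOn hU hb2 (m := 1) (by norm_num) 0)
    · intro x hx
      exact hbel x hx
  exact hFUN U hU hconn (hOne.mono hOU) F F' hF hF' hiso (fun x hx => (hiff x hx).1 (hall x hx))

end Pool.FR
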