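import Pool.Agent.Work.MP_02e829_fr.Interface

/-!
# Block COD: the Codazzi equations
-/

open Set Matrix Filter
open scoped Topology ContDiff

set_option autoImplicit false

namespace Pool.FR

namespace CODAux

/-- the derivative of the second fundamental form -/
theorem pd_II {U : Set E2} (hU : IsOpen U) {F : E2 → V3} (hF : Imm F U)
    (hN : ContDiffOn ℝ 3 (NN F) U) (k i j : Fin 2) {x : E2} (hx : x ∈ U) :
    pd k (II F i j) x = pd k (pd i (pd j F)) x ⬝ᵥ NN F x +
      pd i (pd j F) x ⬝ᵥ pd k (NN F) x := by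
  have h1 : ContDiffOn ℝ 3 (pd j F) U := pd_contDiffOn hU hF.smooth (by norm_num) j
  have h2 : ContDiffOn ℝ 2 (pd i (pd j F)) U := pd_contDiffOn hU h1 (by norm_num) i
  exact pd_dot k (diff_at hU h2 (by norm_num) hx) (diff_at hU hN (by norm_num) hx)

/-- the third derivatives are symmetric -/
theorem pd3 {U : Set E2} (hU : IsOpen U) {F : E2 → V3} (hF : Imm F U) (k i j : Fin 2)
    {x : E2} (hx : x ∈ U) : pd k (pd i (pd j F)) x = pd i (pd k (pd j F)) x := by
  have h1 : ContDiffOn ℝ 3 (pd j F) U := pd_contDiffOn hU hF.smooth (by norm_num) j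
  exact pd_comm hU h1 (by norm_num) k i hx

theorem pd3' {U : Set E2} (hU : IsOpen U) {F : E2 → V3} (hF : Imm F U) (k i j : Fin 2)
    {x : E2} (hx : x ∈ U) : pd k (pd i (pd j F)) x = pd k (pd j (pd i F)) x :=
  pd_congr hU (fun _ hy => pd_comm hU hF.smooth (by norm_num) i j hy) k hx

end CODAux

open CODAux

theorem blk_COD (hFRM : Stmt_FRM) : Stmt_COD := by
  intro U hU F hF x hx
  obtain ⟨-, -, -, -, hS, hG, hNN, hNF, hN, -⟩ := hFRM U hU F hF x hx
  have hdot : ∀ i j k, pd i (pd j F) x ⬝ᵥ pd k (NN F) x =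
      - (Gb F 0 i j x * II F k 0 x) - Gb F 1 i j x * II F k 1 x := by
    intro i j k
    rw [hG i j, add_dotProduct, add_dotProduct, smul_dotProduct, smul_dotProduct,
      smul_dotProduct, dotProduct_comm (pd 0 F x), dotProduct_comm (pd 1 F x),
      dotProduct_comm (NN F x), hNN, hNF, hNF]
    simp only [smul_eq_mul]
    ring
  constructor
  · rw [pd_II hU hF hN 1 0 0 hx, pd_II hU hF hN 0 0 1 hx, hdot, hdot,
      pd3 hU hF 1 0 0 hx, pd3' hU hF 0 1 0 hx, hS 1 0]
    ring
  · rw [pd_II hU hF hN 1 0 1 hx, pd_II hU hF hN 0 1 1 hx, hdot, hdot,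
      pd3 hU hF 1 0 1 hx, hS 1 0]
    ring

end Pool.FR
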