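import Mathlib.Geometry.Manifold.MFDeriv.Basic
import Mathlib.Geometry.Manifold.Instances.Real
import Mathlib.Analysis.InnerProductSpace.PiL2

/-!
# Isometric deformations of finite rank: definitions
-/

open Set Manifold
open scoped ContDiff

set_option autoImplicit false

universe w

namespace Pool.FRD

/-- The plane, model space of surfaces. -/
abbrev Plane := EuclideanSpace ℝ (Fin 2)

/-- Euclidean three-space. -/
abbrev Space := EuclideanSpace ℝ (Fin 3)

variable {S : Type w} [TopologicalSpace S] [ChartedSpace Plane S]

/-- The map `f` is of class `C⁴`. -/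
def IsC4 (f : S → Space) : Prop := ContMDiff (𝓡 2) (𝓡 3) 4 f

/-- The differential of `f` at `p` (the tangent space of the surface at `p` is identified with the
plane as in Mathlib, by the preferred chart at `p`). -/
noncomputable def differential (f : S → Space) (p : S) : Plane →L[ℝ] Space :=
  mfderiv (𝓡 2) (𝓡 3) f p

/-- The vector `df_p(v)`. -/
noncomputable def dvec (f : S → Space) (p : S) (v : Plane) : Space := differential f p v

/-- The metric induced by `f` (first fundamental form). -/
noncomputable def firstForm (f : S → Space) (p : S) (v w : Plane) : ℝ :=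
  inner ℝ (dvec f p v) (dvec f p w)

/-- `f t`, `0 ≤ t ≤ 1`, is an isometric deformation through immersions of class `C⁴`, continuous
in `t` at each point of the surface, and of finite rank: the coordinate functions of all the `f t`
lie in one finite dimensional space of functions on the surface. -/
structure FiniteRankDeformation (f : ℝ → S → Space) : Prop where
  smooth : ∀ t ∈ Icc (0 : ℝ) 1, IsC4 (f t)
  immersion : ∀ t ∈ Icc (0 : ℝ) 1, ∀ p, Function.Injective (dvec (f t) p)
  isometric : ∀ t ∈ Icc (0 : ℝ) 1, firstForm (f t) = firstForm (f 0)
  continuous : ∀ p, ContinuousOn (fun t => f t p) (Icc 0 1)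
  finite_rank : ∃ V : Submodule ℝ (S → ℝ), FiniteDimensional ℝ V ∧
    ∀ t ∈ Icc (0 : ℝ) 1, ∀ a : Fin 3, (fun p => f t p a) ∈ V

end Pool.FRD
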