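import Pool.Agent.Work.MP_02e829_fr.Interface

/-! # Block FAR: a farthest point is not minimal -/

open Set Matrix Filter
open scoped Topology ContDiff

set_option autoImplicit false

namespace Pool.FR

/-- BLOCK FAR -/
theorem blk_FAR (hSDT : Stmt_SDT) (hFRM : Stmt_FRM) : Stmt_FAR := by
  intro U hU F hF x hx hmax
  obtain ⟨hs, hpos⟩ := hF
  have hD := hpos x hx
  have h2 : ContDiffOn ℝ 2 F U := hs.of_le (by norm_num)
  have hE : ContDiffOn ℝ 2 (fun y => F y ⬝ᵥ F y) U := contDiffOn_dot h2 h2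
  obtain ⟨hgrad, hsec⟩ := hSDT U hU _ hE x hx hmax
  have hFd : ∀ y ∈ U, DifferentiableAt ℝ F y := fun y hy => diff_at hU h2 (by norm_num) hy
  have h1 : ∀ i, ContDiffOn ℝ 1 (pd i F) U := fun i => pd_contDiffOn hU h2 (by norm_num) i
  have hpd : ∀ i, ∀ y ∈ U, DifferentiableAt ℝ (pd i F) y := fun i y hy =>
    diff_at hU (h1 i) le_rfl hy
  have hE1 : ∀ j, ∀ y ∈ U, pd j (fun y => F y ⬝ᵥ F y) y = pd j F y ⬝ᵥ F y + F y ⬝ᵥ pd j F y :=
    fun j y hy => pd_dot j (hFd y hy) (hFd y hy)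
  have hE2 : ∀ i j, pd i (pd j (fun y => F y ⬝ᵥ F y)) x =
      2 * (gg F i j x + F x ⬝ᵥ pd i (pd j F) x) := by
    intro i j
    rw [pd_congr hU (hE1 j) i hx]
    have hda : DifferentiableAt ℝ (fun y => pd j F y ⬝ᵥ F y) x :=
      diff_at hU (contDiffOn_dot (h1 j) (h2.of_le (by norm_num))) le_rfl hx
    have hdb : DifferentiableAt ℝ (fun y => F y ⬝ᵥ pd j F y) x :=
      diff_at hU (contDiffOn_dot (h2.of_le (by norm_num)) (h1 j)) le_rfl hx
    rw [pd_add i hda hdb, pd_dot i (hpd j x hx) (hFd x hx), pd_dot i (hFd x hx) (hpd j x hx)]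
    unfold gg
    rw [dotProduct_comm (pd i (pd j F) x) (F x), dotProduct_comm (pd j F x) (pd i F x)]
    ring
  have hF0 : ∀ i, F x ⬝ᵥ pd i F x = 0 := by
    intro i
    have h := hgrad i
    rw [hE1 i x hx, dotProduct_comm (pd i F x) (F x)] at h
    linarith
  obtain ⟨_, _, _, hdec, _, _, _, _, _, _⟩ := hFRM U hU F ⟨hs, hpos⟩ x hx
  have hFN : F x = (F x ⬝ᵥ NN F x) • NN F x := by
    have h := hdec (F x)
    rw [hF0 0, hF0 1] at h
    simpa using h
  have hFF : ∀ i j, F x ⬝ᵥ pd i (pd j F) x = (F x ⬝ᵥ NN F x) * II F i j x := by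
    intro i j
    unfold II
    conv_lhs => rw [hFN]
    rw [smul_dotProduct, smul_eq_mul, dotProduct_comm (NN F x)]
  have hg00 : 0 ≤ gg F 0 0 x := by
    unfold gg
    exact Finset.sum_nonneg fun a _ => mul_self_nonneg _
  have hg11 : 0 ≤ gg F 1 1 x := by
    unfold gg
    exact Finset.sum_nonneg fun a _ => mul_self_nonneg _
  have hkey := hsec (gg F 1 1 x) (-gg F 0 1 x) (gg F 0 0 x) hg11 hg00 (by
    unfold DD at hD
    nlinarith)
  rw [hE2, hE2, hE2, hFF, hFF, hFF] at hkey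
  intro htau
  have h3 : gg F 1 1 x * II F 0 0 x - 2 * gg F 0 1 x * II F 0 1 x + gg F 0 0 x * II F 1 1 x = 0 := by
    unfold tau at htau
    rcases div_eq_zero_iff.1 htau with h | h
    · exact h
    · exact absurd h hD.ne'
  have h4 : 4 * DD F x + 2 * (F x ⬝ᵥ NN F x) * (gg F 1 1 x * II F 0 0 x -
      2 * gg F 0 1 x * II F 0 1 x + gg F 0 0 x * II F 1 1 x) ≤ 0 := by
    unfold DD
    refine le_trans (le_of_eq ?_) hkey
    ring
  rw [h3] at h4
  linarith

end Pool.FR
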