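import Pool.Agent.Work.MP_02e829_fr.Interface

/-!
# Block FDL: pointwise bounded sequences in a finite dimensional space of functions (helper59)
-/

open Set Matrix Filter
open scoped Topology ContDiff

set_option autoImplicit false

namespace Pool.FR

theorem blk_FDL : Stmt_FDL := by
  intro Y _ ι _ w hw S hS k hk y
  -- the evaluations
  obtain ⟨ev, hev⟩ : ∃ ev : Y → Module.Dual ℂ (ι → ℂ), ∀ y c, ev y c = ∑ i, c i * w i y := by
    refine ⟨fun y => ∑ i, (w i y) • (LinearMap.proj i : (ι → ℂ) →ₗ[ℂ] ℂ), fun y c => ?_⟩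
    simp only [LinearMap.sum_apply, LinearMap.smul_apply, LinearMap.proj_apply, smul_eq_mul]
    exact Finset.sum_congr rfl fun i _ => mul_comm _ _
  obtain ⟨Φ, hΦ⟩ : ∃ Φ : Subspace ℂ (Module.Dual ℂ (ι → ℂ)), Φ = Submodule.span ℂ (ev '' S) :=
    ⟨_, rfl⟩
  have h1 : ev y ∈ Φ := by
    rw [← Subspace.dualCoannihilator_dualAnnihilator_eq (W := Φ), Submodule.mem_dualAnnihilator]
    intro c hc
    rw [Submodule.mem_dualCoannihilator] at hc
    have h2 : ∀ s ∈ S, ∑ i, c i * w i s = 0 := by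
      intro s hs
      rw [← hev]
      exact hc _ (by
        rw [hΦ]
        exact Submodule.subset_span ⟨s, hs, rfl⟩)
    have h3 : Continuous fun z => ∑ i, c i * w i z :=
      continuous_finset_sum _ fun i _ => continuous_const.mul (hw i)
    have h4 : (fun z => ∑ i, c i * w i z) = fun _ => 0 :=
      Continuous.ext_on hS h3 continuous_const h2
    rw [hev]
    exact congrFun h4 y
  have h5 : ∀ φ ∈ Φ, ∃ M : ℝ, ∀ n, ‖φ (k n)‖ ≤ M := by
    intro φ hφ
    rw [hΦ] at hφ
    induction hφ using Submodule.span_induction with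
    | mem φ h =>
      obtain ⟨s, hs, rfl⟩ := h
      obtain ⟨M, hM⟩ := hk s hs
      refine ⟨M, fun n => ?_⟩
      rw [hev]
      exact hM n
    | zero => exact ⟨0, fun n => by simp⟩
    | add φ ψ _ _ h1 h2 =>
      obtain ⟨M, hM⟩ := h1
      obtain ⟨M', hM'⟩ := h2
      refine ⟨M + M', fun n => ?_⟩
      rw [LinearMap.add_apply]
      exact (norm_add_le _ _).trans (add_le_add (hM n) (hM' n))
    | smul a φ _ h1 =>
      obtain ⟨M, hM⟩ := h1
      refine ⟨‖a‖ * M, fun n => ?_⟩
      rw [LinearMap.smul_apply, norm_smul]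
      exact mul_le_mul_of_nonneg_left (hM n) (norm_nonneg _)
  obtain ⟨M, hM⟩ := h5 _ h1
  refine ⟨M, fun n => ?_⟩
  rw [← hev]
  exact hM n

end Pool.FR
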