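import Pool.Agent.Work.MP_02e829_fr.Interface

/-!
# Block FRM: the equations of Gauss and Weingarten
-/

open Set Matrix Filter
open scoped Topology ContDiff

set_option autoImplicit false

namespace Pool.FR

namespace FRMAux

theorem dot3 (a b : V3) : a ⬝ᵥ b = a 0 * b 0 + a 1 * b 1 + a 2 * b 2 := by
  simp [dotProduct, Fin.sum_univ_three]

theorem cross0 (a b : V3) : (a ⨯₃ b) 0 = a 1 * b 2 - a 2 * b 1 := by
  simp [cross_apply]

theorem cross1 (a b : V3) : (a ⨯₃ b) 1 = a 2 * b 0 - a 0 * b 2 := by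
  simp [cross_apply]

theorem cross2 (a b : V3) : (a ⨯₃ b) 2 = a 0 * b 1 - a 1 * b 0 := by
  simp [cross_apply]

theorem WW_dot_WW (F : E2 → V3) (x : E2) : WW F x ⬝ᵥ WW F x = DD F x := by
  rw [WW, DD, gg, gg, gg, dot3, dot3, dot3, dot3, cross0, cross1, cross2]
  ring

/-- the decomposition of a vector, before the division -/
theorem decomp (a b w : V3) :
    ((a ⬝ᵥ a) * (b ⬝ᵥ b) - (a ⬝ᵥ b) ^ 2) • w =
      ((b ⬝ᵥ b) * (w ⬝ᵥ a) - (a ⬝ᵥ b) * (w ⬝ᵥ b)) • a +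
      ((a ⬝ᵥ a) * (w ⬝ᵥ b) - (a ⬝ᵥ b) * (w ⬝ᵥ a)) • b +
      (w ⬝ᵥ (a ⨯₃ b)) • (a ⨯₃ b) := by
  ext i
  simp only [Pi.add_apply, Pi.smul_apply, smul_eq_mul, dot3, cross0, cross1, cross2]
  fin_cases i
  · change _ * w 0 = _ * a 0 + _ * b 0 + _ * (a ⨯₃ b) 0
    rw [cross0]
    ring
  · change _ * w 1 = _ * a 1 + _ * b 1 + _ * (a ⨯₃ b) 1
    rw [cross1]
    ring
  · change _ * w 2 = _ * a 2 + _ * b 2 + _ * (a ⨯₃ b) 2
    rw [cross2]
    ring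

theorem NN_unit {F : E2 → V3} {x : E2} (h : 0 < DD F x) : NN F x ⬝ᵥ NN F x = 1 := by
  rw [NN, smul_dotProduct, dotProduct_smul, WW_dot_WW, smul_eq_mul, smul_eq_mul]
  have h1 : Real.sqrt (DD F x) * Real.sqrt (DD F x) = DD F x := Real.mul_self_sqrt h.le
  have h2 : Real.sqrt (DD F x) ≠ 0 := (Real.sqrt_pos.2 h).ne'
  field_simp
  nlinarith [h1]

theorem pd_dot_WW (F : E2 → V3) (x : E2) (k : Fin 2) : pd k F x ⬝ᵥ WW F x = 0 := by
  fin_cases k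
  · change pd 0 F x ⬝ᵥ WW F x = 0
    rw [WW, dot3, cross0, cross1, cross2]
    ring
  · change pd 1 F x ⬝ᵥ WW F x = 0
    rw [WW, dot3, cross0, cross1, cross2]
    ring

theorem pd_dot_NN (F : E2 → V3) (x : E2) (k : Fin 2) : pd k F x ⬝ᵥ NN F x = 0 := by
  rw [NN, dotProduct_smul, pd_dot_WW, smul_zero]

theorem WW_eq {F : E2 → V3} {x : E2} (h : 0 < DD F x) :
    WW F x = Real.sqrt (DD F x) • NN F x := by
  have h2 : Real.sqrt (DD F x) ≠ 0 := (Real.sqrt_pos.2 h).ne'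
  rw [NN, smul_smul, mul_inv_cancel₀ h2, one_smul]

theorem decomp' {F : E2 → V3} {x : E2} (h : 0 < DD F x) (w : V3) :
    w = ((gg F 1 1 x * (w ⬝ᵥ pd 0 F x) - gg F 0 1 x * (w ⬝ᵥ pd 1 F x)) / DD F x) •
        pd 0 F x +
      ((gg F 0 0 x * (w ⬝ᵥ pd 1 F x) - gg F 0 1 x * (w ⬝ᵥ pd 0 F x)) / DD F x) • pd 1 F x +
      (w ⬝ᵥ NN F x) • NN F x := by
  have h0 := decomp (pd 0 F x) (pd 1 F x) w
  have hD : (pd 0 F x ⬝ᵥ pd 0 F x) * (pd 1 F x ⬝ᵥ pd 1 F x) - (pd 0 F x ⬝ᵥ pd 1 F x) ^ 2 =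
      DD F x := rfl
  rw [hD] at h0
  have hW : (pd 0 F x ⨯₃ pd 1 F x) = WW F x := rfl
  rw [hW] at h0
  have h2 : Real.sqrt (DD F x) ≠ 0 := (Real.sqrt_pos.2 h).ne'
  have h1 : Real.sqrt (DD F x) * Real.sqrt (DD F x) = DD F x := Real.mul_self_sqrt h.le
  have hN : (w ⬝ᵥ WW F x) • WW F x = DD F x • ((w ⬝ᵥ NN F x) • NN F x) := by
    have h5 : w ⬝ᵥ WW F x = Real.sqrt (DD F x) * (w ⬝ᵥ NN F x) := by
      conv_lhs => rw [WW_eq h]
      rw [dotProduct_smul, smul_eq_mul]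
    rw [h5]
    conv_lhs => rw [WW_eq h]
    rw [smul_smul, smul_smul]
    refine congrArg (fun r : ℝ => r • NN F x) ?_
    calc Real.sqrt (DD F x) * (w ⬝ᵥ NN F x) * Real.sqrt (DD F x) =
        (Real.sqrt (DD F x) * Real.sqrt (DD F x)) * (w ⬝ᵥ NN F x) := by ring
      _ = DD F x * (w ⬝ᵥ NN F x) := by rw [h1]
  rw [hN] at h0
  have hA : DD F x • (((gg F 1 1 x * (w ⬝ᵥ pd 0 F x) - gg F 0 1 x * (w ⬝ᵥ pd 1 F x)) /
      DD F x) • pd 0 F x) = ((pd 1 F x ⬝ᵥ pd 1 F x) * (w ⬝ᵥ pd 0 F x) -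
        (pd 0 F x ⬝ᵥ pd 1 F x) * (w ⬝ᵥ pd 1 F x)) • pd 0 F x := by
    rw [smul_smul, mul_div_cancel₀ _ h.ne']
    rfl
  have hB : DD F x • (((gg F 0 0 x * (w ⬝ᵥ pd 1 F x) - gg F 0 1 x * (w ⬝ᵥ pd 0 F x)) /
      DD F x) • pd 1 F x) = ((pd 0 F x ⬝ᵥ pd 0 F x) * (w ⬝ᵥ pd 1 F x) -
        (pd 0 F x ⬝ᵥ pd 1 F x) * (w ⬝ᵥ pd 0 F x)) • pd 1 F x := by
    rw [smul_smul, mul_div_cancel₀ _ h.ne']
    rfl
  refine smul_right_injective V3 h.ne' ?_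
  change DD F x • w = DD F x • _
  rw [smul_add, smul_add, hA, hB]
  exact h0

theorem dd_contDiffOn {U : Set E2} (hU : IsOpen U) {F : E2 → V3} (hF : ContDiffOn ℝ 4 F U) :
    ContDiffOn ℝ 3 (DD F) U := by
  have h1 : ∀ i, ContDiffOn ℝ 3 (pd i F) U := fun i => pd_contDiffOn hU hF (by norm_num) i
  have h2 : ∀ i j, ContDiffOn ℝ 3 (gg F i j) U := fun i j => contDiffOn_dot (h1 i) (h1 j)
  exact ((h2 0 0).mul (h2 1 1)).sub ((h2 0 1).pow 2)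

theorem nn_contDiffOn {U : Set E2} (hU : IsOpen U) {F : E2 → V3} (hF : Imm F U) :
    ContDiffOn ℝ 3 (NN F) U := by
  have h1 : ∀ i, ContDiffOn ℝ 3 (pd i F) U :=
    fun i => pd_contDiffOn hU hF.smooth (by norm_num) i
  have h2 : ContDiffOn ℝ 3 (WW F) U := contDiffOn_cross (h1 0) (h1 1)
  have h3 := dd_contDiffOn hU hF.smooth
  have h4 : ContDiffOn ℝ 3 (fun x => Real.sqrt (DD F x)) U :=
    h3.sqrt fun x hx => (hF.pos x hx).ne'
  have h5 : ContDiffOn ℝ 3 (fun x => (Real.sqrt (DD F x))⁻¹) U :=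
    h4.inv fun x hx => (Real.sqrt_pos.2 (hF.pos x hx)).ne'
  exact h5.smul h2

theorem ii_contDiffOn {U : Set E2} (hU : IsOpen U) {F : E2 → V3} (hF : Imm F U) (i j : Fin 2) :
    ContDiffOn ℝ 2 (II F i j) U := by
  have h1 : ContDiffOn ℝ 3 (pd j F) U := pd_contDiffOn hU hF.smooth (by norm_num) j
  have h2 : ContDiffOn ℝ 2 (pd i (pd j F)) U := pd_contDiffOn hU h1 (by norm_num) i
  exact contDiffOn_dot h2 ((nn_contDiffOn hU hF).of_le (by norm_num))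

end FRMAux

open FRMAux

theorem blk_FRM : Stmt_FRM := by
  intro U hU F hF x hx
  have hpos := hF.pos x hx
  have h1 : ∀ i, ContDiffOn ℝ 3 (pd i F) U :=
    fun i => pd_contDiffOn hU hF.smooth (by norm_num) i
  have hNc := nn_contDiffOn hU hF
  have hNd : DifferentiableAt ℝ (NN F) x := diff_at hU hNc (by norm_num) hx
  have hPd : ∀ i, DifferentiableAt ℝ (pd i F) x := fun i => diff_at hU (h1 i) (by norm_num) hx
  refine ⟨NN_unit hpos, pd_dot_NN F x, WW_eq hpos, decomp' hpos, ?_, ?_, ?_, ?_, hNc,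
    ii_contDiffOn hU hF⟩
  · intro i j
    rw [II, II, pd_comm hU hF.smooth (by norm_num) i j hx]
  · intro i j
    have h := decomp' hpos (pd i (pd j F) x)
    have h0 : Gb F 0 i j x = (gg F 1 1 x * (pd i (pd j F) x ⬝ᵥ pd 0 F x) -
        gg F 0 1 x * (pd i (pd j F) x ⬝ᵥ pd 1 F x)) / DD F x := by
      rw [Gb, if_pos rfl, Ga, Ga]
    have h1 : Gb F 1 i j x = (gg F 0 0 x * (pd i (pd j F) x ⬝ᵥ pd 1 F x) -
        gg F 0 1 x * (pd i (pd j F) x ⬝ᵥ pd 0 F x)) / DD F x := by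
      rw [Gb, if_neg (by decide), Ga, Ga]
    rw [h0, h1, II]
    exact h
  · intro i
    have h := pd_dot i hNd hNd
    have h2 : pd i (fun y => NN F y ⬝ᵥ NN F y) x = 0 := by
      rw [pd_congr hU (g := fun _ => (1 : ℝ)) (fun y hy => NN_unit (hF.pos y hy)) i hx,
        pd_const]
    rw [h2, dotProduct_comm (NN F x) (pd i (NN F) x)] at h
    linarith
  · intro i j
    have h := pd_dot i (hPd j) hNd
    have h2 : pd i (fun y => pd j F y ⬝ᵥ NN F y) x = 0 := by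
      rw [pd_congr hU (g := fun _ => (0 : ℝ)) (fun y _ => pd_dot_NN F y j) i hx, pd_const]
    rw [h2] at h
    rw [II, dotProduct_comm (pd i (NN F) x) (pd j F x)]
    linarith

end Pool.FR
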