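import Pool.Agent.Work.MP_02e829_fr.Interface

/-!
# Block FUN: the uniqueness theorem of surface theory
-/

open Set Matrix Filter
open scoped Topology ContDiff

set_option autoImplicit false

namespace Pool.FR

namespace FUNaux

variable {U : Set E2} {F F' : E2 → V3}

theorem gg_symm (F : E2 → V3) (i j : Fin 2) (x : E2) : gg F i j x = gg F j i x := by
  rw [gg, gg, dotProduct_comm]

theorem contDiffOn_gg (hU : IsOpen U) (hF : Imm F U) (i j : Fin 2) :
    ContDiffOn ℝ 3 (gg F i j) U :=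
  contDiffOn_dot (pd_contDiffOn hU hF.smooth (by norm_num) i)
    (pd_contDiffOn hU hF.smooth (by norm_num) j)

theorem contDiffOn_DD (hU : IsOpen U) (hF : Imm F U) : ContDiffOn ℝ 3 (DD F) U := by
  have h : DD F = fun y => gg F 0 0 y * gg F 1 1 y - gg F 0 1 y ^ 2 := rfl
  rw [h]
  exact ((contDiffOn_gg hU hF 0 0).mul (contDiffOn_gg hU hF 1 1)).sub
    ((contDiffOn_gg hU hF 0 1).pow 2)

/-- the frame is independent -/
theorem indep (hFRM : Stmt_FRM) (hU : IsOpen U) (hF : Imm F U) {x : E2} (hx : x ∈ U)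
    {c0 c1 c2 : ℝ} (h : c0 • pd 0 F x + c1 • pd 1 F x + c2 • NN F x = 0) :
    c0 = 0 ∧ c1 = 0 ∧ c2 = 0 := by
  obtain ⟨hNN, hFN, -, -⟩ := hFRM U hU F hF x hx
  have hD : 0 < DD F x := hF.pos x hx
  have e2 : (c0 • pd 0 F x + c1 • pd 1 F x + c2 • NN F x) ⬝ᵥ NN F x = c2 := by
    rw [add_dotProduct, add_dotProduct, smul_dotProduct, smul_dotProduct, smul_dotProduct,
      hNN, hFN 0, hFN 1]
    simp
  have e0 : (c0 • pd 0 F x + c1 • pd 1 F x + c2 • NN F x) ⬝ᵥ pd 0 F x =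
      c0 * gg F 0 0 x + c1 * gg F 0 1 x := by
    rw [add_dotProduct, add_dotProduct, smul_dotProduct, smul_dotProduct, smul_dotProduct,
      dotProduct_comm (NN F x), hFN 0, gg, gg, dotProduct_comm (pd 1 F x)]
    simp
  have e1 : (c0 • pd 0 F x + c1 • pd 1 F x + c2 • NN F x) ⬝ᵥ pd 1 F x =
      c0 * gg F 0 1 x + c1 * gg F 1 1 x := by
    rw [add_dotProduct, add_dotProduct, smul_dotProduct, smul_dotProduct, smul_dotProduct,
      dotProduct_comm (NN F x), hFN 1, gg, gg]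
    simp
  rw [h, zero_dotProduct] at e0 e1 e2
  have hDe : DD F x = gg F 0 0 x * gg F 1 1 x - gg F 0 1 x ^ 2 := rfl
  have k0 : c0 * DD F x = 0 := by
    rw [hDe]
    linear_combination (-gg F 1 1 x) * e0 + gg F 0 1 x * e1
  have k1 : c1 * DD F x = 0 := by
    rw [hDe]
    linear_combination (gg F 0 1 x) * e0 - gg F 0 0 x * e1
  refine ⟨?_, ?_, e2.symm⟩
  · exact (mul_eq_zero.1 k0).resolve_right hD.ne'
  · exact (mul_eq_zero.1 k1).resolve_right hD.ne'

/-- the coefficients of a constant vector in the frame -/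
noncomputable def a0 (F : E2 → V3) (w : V3) (y : E2) : ℝ :=
  (gg F 1 1 y * (w ⬝ᵥ pd 0 F y) - gg F 0 1 y * (w ⬝ᵥ pd 1 F y)) / DD F y

noncomputable def a1 (F : E2 → V3) (w : V3) (y : E2) : ℝ :=
  (gg F 0 0 y * (w ⬝ᵥ pd 1 F y) - gg F 0 1 y * (w ⬝ᵥ pd 0 F y)) / DD F y

noncomputable def a2 (F : E2 → V3) (w : V3) (y : E2) : ℝ := w ⬝ᵥ NN F y

theorem contDiffOn_a0 (hU : IsOpen U) (hF : Imm F U) (w : V3) : ContDiffOn ℝ 3 (a0 F w) U := by
  have h : a0 F w = fun y => (gg F 1 1 y * (w ⬝ᵥ pd 0 F y) - gg F 0 1 y * (w ⬝ᵥ pd 1 F y)) /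
    DD F y := rfl
  rw [h]
  have hw : ∀ i, ContDiffOn ℝ 3 (fun y => w ⬝ᵥ pd i F y) U := fun i =>
    contDiffOn_dot contDiffOn_const (pd_contDiffOn hU hF.smooth (by norm_num) i)
  exact (((contDiffOn_gg hU hF 1 1).mul (hw 0)).sub ((contDiffOn_gg hU hF 0 1).mul (hw 1))).div
    (contDiffOn_DD hU hF) fun x hx => (hF.pos x hx).ne'

theorem contDiffOn_a1 (hU : IsOpen U) (hF : Imm F U) (w : V3) : ContDiffOn ℝ 3 (a1 F w) U := by
  have h : a1 F w = fun y => (gg F 0 0 y * (w ⬝ᵥ pd 1 F y) - gg F 0 1 y * (w ⬝ᵥ pd 0 F y)) /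
    DD F y := rfl
  rw [h]
  have hw : ∀ i, ContDiffOn ℝ 3 (fun y => w ⬝ᵥ pd i F y) U := fun i =>
    contDiffOn_dot contDiffOn_const (pd_contDiffOn hU hF.smooth (by norm_num) i)
  exact (((contDiffOn_gg hU hF 0 0).mul (hw 1)).sub ((contDiffOn_gg hU hF 0 1).mul (hw 0))).div
    (contDiffOn_DD hU hF) fun x hx => (hF.pos x hx).ne'

theorem contDiffOn_a2 (hFRM : Stmt_FRM) (hU : IsOpen U) (hF : Imm F U) {x : E2} (hx : x ∈ U)
    (w : V3) : ContDiffOn ℝ 3 (a2 F w) U := by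
  obtain ⟨-, -, -, -, -, -, -, -, hN, -⟩ := hFRM U hU F hF x hx
  exact contDiffOn_dot contDiffOn_const hN

/-- the image of the constant vector `w` under the map of the frames -/
noncomputable def S (F F' : E2 → V3) (w : V3) (y : E2) : V3 :=
  a0 F w y • pd 0 F' y + a1 F w y • pd 1 F' y + a2 F w y • NN F' y

theorem S_self (hFRM : Stmt_FRM) (hU : IsOpen U) (hF : Imm F U) {x : E2} (hx : x ∈ U)
    (w : V3) : S F F w x = w := by
  obtain ⟨-, -, -, h, -⟩ := hFRM U hU F hF x hx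
  exact (h w).symm

/-- the derivative of the normal -/
noncomputable def nb (F : E2 → V3) (l j : Fin 2) (x : E2) : ℝ :=
  if l = 0 then (gg F 1 1 x * (- II F j 0 x) - gg F 0 1 x * (- II F j 1 x)) / DD F x
  else (gg F 0 0 x * (- II F j 1 x) - gg F 0 1 x * (- II F j 0 x)) / DD F x

theorem pd_NN (hFRM : Stmt_FRM) (hU : IsOpen U) (hF : Imm F U) {x : E2} (hx : x ∈ U)
    (j : Fin 2) : pd j (NN F) x = nb F 0 j x • pd 0 F x + nb F 1 j x • pd 1 F x := by
  obtain ⟨-, -, -, h, -, -, h0, h1, -⟩ := hFRM U hU F hF x hx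
  have := h (pd j (NN F) x)
  rw [h0 j, h1 j 0, h1 j 1, zero_smul, add_zero] at this
  rw [nb, nb, if_pos rfl, if_neg (by decide)]
  exact this

theorem nb_congr (hg : ∀ x ∈ U, ∀ i j, gg F' i j x = gg F i j x)
    (hII : ∀ x ∈ U, ∀ i j, II F' i j x = II F i j x) {x : E2} (hx : x ∈ U) (l j : Fin 2) :
    nb F' l j x = nb F l j x := by
  have hD : DD F' x = DD F x := by
    rw [DD, DD, hg x hx, hg x hx, hg x hx]
  simp only [nb, hg x hx, hII x hx, hD]

/-- the coefficients of the derivative of `S` -/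
noncomputable def d0 (F : E2 → V3) (w : V3) (j : Fin 2) (x : E2) : ℝ :=
  pd j (a0 F w) x + a0 F w x * Gb F 0 j 0 x + a1 F w x * Gb F 0 j 1 x + a2 F w x * nb F 0 j x

noncomputable def d1 (F : E2 → V3) (w : V3) (j : Fin 2) (x : E2) : ℝ :=
  pd j (a1 F w) x + a0 F w x * Gb F 1 j 0 x + a1 F w x * Gb F 1 j 1 x + a2 F w x * nb F 1 j x

noncomputable def d2 (F : E2 → V3) (w : V3) (j : Fin 2) (x : E2) : ℝ :=
  pd j (a2 F w) x + a0 F w x * II F j 0 x + a1 F w x * II F j 1 x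

theorem pd_S (hFRM : Stmt_FRM) (hU : IsOpen U) (hF : Imm F U) (hF' : Imm F' U)
    (hGb : ∀ x ∈ U, ∀ i j k, Gb F' i j k x = Gb F i j k x)
    (hg : ∀ x ∈ U, ∀ i j, gg F' i j x = gg F i j x)
    (hII : ∀ x ∈ U, ∀ i j, II F' i j x = II F i j x)
    {x : E2} (hx : x ∈ U) (w : V3) (j : Fin 2) :
    DifferentiableAt ℝ (S F F' w) x ∧
    pd j (S F F' w) x = d0 F w j x • pd 0 F' x + d1 F w j x • pd 1 F' x + d2 F w j x • NN F' x := by
  obtain ⟨-, -, -, -, -, hG, -, -, hN, -⟩ := hFRM U hU F' hF' x hx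
  have D0 : DifferentiableAt ℝ (a0 F w) x := diff_at hU (contDiffOn_a0 hU hF w) (by norm_num) hx
  have D1 : DifferentiableAt ℝ (a1 F w) x := diff_at hU (contDiffOn_a1 hU hF w) (by norm_num) hx
  have D2 : DifferentiableAt ℝ (a2 F w) x :=
    diff_at hU (contDiffOn_a2 hFRM hU hF hx w) (by norm_num) hx
  have E : ∀ i, DifferentiableAt ℝ (pd i F') x := fun i =>
    diff_at hU (pd_contDiffOn (m := 3) hU hF'.smooth (by norm_num) i) (by norm_num) hx
  have EN : DifferentiableAt ℝ (NN F') x := diff_at hU hN (by norm_num) hx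
  have hS : S F F' w = fun y => a0 F w y • pd 0 F' y + a1 F w y • pd 1 F' y +
    a2 F w y • NN F' y := rfl
  refine ⟨?_, ?_⟩
  · rw [hS]
    exact ((D0.smul (E 0)).add (D1.smul (E 1))).add (D2.smul EN)
  · have P0 : DifferentiableAt ℝ (fun y => a0 F w y • pd 0 F' y) x := D0.smul (E 0)
    have P1 : DifferentiableAt ℝ (fun y => a1 F w y • pd 1 F' y) x := D1.smul (E 1)
    have P2 : DifferentiableAt ℝ (fun y => a2 F w y • NN F' y) x := D2.smul EN
    have P01 : DifferentiableAt ℝ (fun y => a0 F w y • pd 0 F' y + a1 F w y • pd 1 F' y) x :=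
      P0.add P1
    rw [hS, pd_add j P01 P2, pd_add j P0 P1, pd_smul j D0 (E 0), pd_smul j D1 (E 1),
      pd_smul j D2 EN, hG j 0, hG j 1, pd_NN hFRM hU hF' hx j, nb_congr hg hII hx,
      nb_congr hg hII hx, hGb x hx, hGb x hx, hGb x hx, hGb x hx, hII x hx, hII x hx, d0, d1, d2]
    module

end FUNaux

open FUNaux in
theorem blk_FUN (hFRM : Stmt_FRM) (hCHR : Stmt_CHR) : Stmt_FUN := by
  intro U hU hUc hUn F F' hF hF' hg hII
  have hGb : ∀ x ∈ U, ∀ i j k, Gb F' i j k x = Gb F i j k x := by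
    intro x hx i j k
    exact (((hCHR U hU F hF).2.2 F' hF' hg) x hx i j k).2
  -- the coefficients of the derivative vanish
  have hd : ∀ w : V3, ∀ x ∈ U, ∀ j, d0 F w j x = 0 ∧ d1 F w j x = 0 ∧ d2 F w j x = 0 := by
    intro w x hx j
    have h1 := (pd_S hFRM hU hF hF (fun _ _ _ _ _ => rfl) (fun _ _ _ _ => rfl)
      (fun _ _ _ _ => rfl) hx w j).2
    have h2 : pd j (S F F w) x = 0 := by
      rw [pd_congr hU (g := fun _ => w) (fun y hy => S_self hFRM hU hF hy w) j hx, pd_const]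
    rw [h2] at h1
    exact indep hFRM hU hF hx h1.symm
  have hconst : ∀ w : V3, ∃ c, ∀ x ∈ U, S F F' w x = c := by
    intro w
    refine eq_const_of_pd hU hUc (fun x hx => (pd_S hFRM hU hF hF' hGb hg hII hx w 0).1) ?_
    intro x hx j
    obtain ⟨h0, h1, h2⟩ := hd w x hx j
    rw [(pd_S hFRM hU hF hF' hGb hg hII hx w j).2, h0, h1, h2]
    simp
  choose R0 hR0 using hconst
  obtain ⟨x0, hx0⟩ := hUn
  -- the matrix
  set R : Matrix (Fin 3) (Fin 3) ℝ := Matrix.of fun a b => R0 (Pi.single b 1) a with hRdef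
  have hRw : ∀ w : V3, ∀ x ∈ U, R *ᵥ w = S F F' w x := by
    intro w x hx
    have key : ∀ w : V3, ∀ a : Fin 3, S F F' w x a =
        ∑ b, S F F' (Pi.single b 1) x a * w b := by
      intro w a
      simp only [S, a0, a1, a2, Pi.add_apply, Pi.smul_apply, smul_eq_mul, Fin.sum_univ_three,
        dotProduct, Pi.single_apply]
      simp
      ring
    ext a
    rw [key w a, mulVec, dotProduct]
    refine Finset.sum_congr rfl fun b _ => ?_
    rw [hRdef, Matrix.of_apply, hR0 _ x hx]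
  -- the image of the frame
  have hRF : ∀ x ∈ U, R *ᵥ pd 0 F x = pd 0 F' x ∧ R *ᵥ pd 1 F x = pd 1 F' x ∧
      R *ᵥ NN F x = NN F' x := by
    intro x hx
    obtain ⟨hNN, hFN, -, -⟩ := hFRM U hU F hF x hx
    have hD : DD F x ≠ 0 := (hF.pos x hx).ne'
    have hDe : DD F x = gg F 0 0 x * gg F 1 1 x - gg F 0 1 x ^ 2 := rfl
    have g00 : pd 0 F x ⬝ᵥ pd 0 F x = gg F 0 0 x := rfl
    have g01 : pd 0 F x ⬝ᵥ pd 1 F x = gg F 0 1 x := rfl
    have g10 : pd 1 F x ⬝ᵥ pd 0 F x = gg F 0 1 x := dotProduct_comm _ _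
    have g11 : pd 1 F x ⬝ᵥ pd 1 F x = gg F 1 1 x := rfl
    have n0 : NN F x ⬝ᵥ pd 0 F x = 0 := by rw [dotProduct_comm]; exact hFN 0
    have n1 : NN F x ⬝ᵥ pd 1 F x = 0 := by rw [dotProduct_comm]; exact hFN 1
    refine ⟨?_, ?_, ?_⟩
    · have h0 : a0 F (pd 0 F x) x = 1 := by
        rw [a0, g00, g01, div_eq_one_iff_eq hD, hDe]
        ring
      have h1 : a1 F (pd 0 F x) x = 0 := by
        rw [a1, g00, g01, div_eq_zero_iff]
        left
        ring
      rw [hRw _ x hx, S, h0, h1, a2, hFN 0]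
      simp
    · have h0 : a0 F (pd 1 F x) x = 0 := by
        rw [a0, g10, g11, div_eq_zero_iff]
        left
        ring
      have h1 : a1 F (pd 1 F x) x = 1 := by
        rw [a1, g10, g11, div_eq_one_iff_eq hD, hDe]
        ring
      rw [hRw _ x hx, S, h0, h1, a2, hFN 1]
      simp
    · rw [hRw _ x hx, S, a0, a1, a2, n0, n1, hNN]
      simp
  -- the matrix is a rotation
  have hSO : SO3 R := by
    obtain ⟨hNN, hFN, hWW, hdec, -⟩ := hFRM U hU F hF x0 hx0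
    obtain ⟨hNN', hFN', hWW', -⟩ := hFRM U hU F' hF' x0 hx0
    obtain ⟨r0, r1, r2⟩ := hRF x0 hx0
    have hDD : DD F' x0 = DD F x0 := by
      rw [DD, DD, hg x0 hx0, hg x0 hx0, hg x0 hx0]
    have hdot : ∀ w w' : V3, (R *ᵥ w) ⬝ᵥ (R *ᵥ w') = w ⬝ᵥ w' := by
      intro w w'
      have n0 : NN F' x0 ⬝ᵥ pd 0 F' x0 = 0 := by rw [dotProduct_comm]; exact hFN' 0
      have n1 : NN F' x0 ⬝ᵥ pd 1 F' x0 = 0 := by rw [dotProduct_comm]; exact hFN' 1
      have m0 : NN F x0 ⬝ᵥ pd 0 F x0 = 0 := by rw [dotProduct_comm]; exact hFN 0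
      have m1 : NN F x0 ⬝ᵥ pd 1 F x0 = 0 := by rw [dotProduct_comm]; exact hFN 1
      have g00 : pd 0 F x0 ⬝ᵥ pd 0 F x0 = gg F 0 0 x0 := rfl
      have g01 : pd 0 F x0 ⬝ᵥ pd 1 F x0 = gg F 0 1 x0 := rfl
      have g10 : pd 1 F x0 ⬝ᵥ pd 0 F x0 = gg F 0 1 x0 := dotProduct_comm _ _
      have g11 : pd 1 F x0 ⬝ᵥ pd 1 F x0 = gg F 1 1 x0 := rfl
      have g00' : pd 0 F' x0 ⬝ᵥ pd 0 F' x0 = gg F 0 0 x0 := hg x0 hx0 0 0
      have g01' : pd 0 F' x0 ⬝ᵥ pd 1 F' x0 = gg F 0 1 x0 := hg x0 hx0 0 1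
      have g10' : pd 1 F' x0 ⬝ᵥ pd 0 F' x0 = gg F 0 1 x0 := by
        rw [dotProduct_comm]; exact hg x0 hx0 0 1
      have g11' : pd 1 F' x0 ⬝ᵥ pd 1 F' x0 = gg F 1 1 x0 := hg x0 hx0 1 1
      have e1 : (R *ᵥ w) ⬝ᵥ (R *ᵥ w') = S F F' w x0 ⬝ᵥ S F F' w' x0 := by
        rw [hRw w x0 hx0, hRw w' x0 hx0]
      have e2 : w ⬝ᵥ w' = S F F w x0 ⬝ᵥ S F F w' x0 := by
        rw [S_self hFRM hU hF hx0, S_self hFRM hU hF hx0]
      rw [e1, e2]
      simp only [S, add_dotProduct, dotProduct_add, smul_dotProduct, dotProduct_smul, hFN', hFN,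
        n0, n1, m0, m1, hNN, hNN', g00, g01, g10, g11, g00', g01', g10', g11']
    constructor
    · ext a b
      have := hdot (Pi.single a 1) (Pi.single b 1)
      rw [Matrix.mul_apply]
      have h1 : ∀ a, R *ᵥ (Pi.single a 1) = fun c => R c a := by
        intro a
        ext c
        rw [Matrix.mulVec_single_one]
        rfl
      rw [h1, h1] at this
      rw [Matrix.one_apply]
      have h2 : (Pi.single a 1 : V3) ⬝ᵥ Pi.single b 1 = if a = b then 1 else 0 := by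
        rw [single_dotProduct, Pi.single_apply]
        simp
      rw [h2] at this
      simpa [dotProduct] using this
    · have hdet : Matrix.det (Matrix.of ![R *ᵥ NN F x0, R *ᵥ pd 0 F x0, R *ᵥ pd 1 F x0]) =
          R.det * Matrix.det (Matrix.of ![NN F x0, pd 0 F x0, pd 1 F x0]) := by
        have : Matrix.of ![R *ᵥ NN F x0, R *ᵥ pd 0 F x0, R *ᵥ pd 1 F x0] =
            Matrix.of ![NN F x0, pd 0 F x0, pd 1 F x0] * Rᵀ := by
          ext a b
          rw [Matrix.mul_apply]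
          fin_cases a <;> simp [mulVec, dotProduct, mul_comm]
        rw [this, Matrix.det_mul, Matrix.det_transpose, mul_comm]
      have t1 : NN F x0 ⬝ᵥ WW F x0 = Real.sqrt (DD F x0) := by
        rw [hWW, dotProduct_smul, hNN, smul_eq_mul, mul_one]
      have t2 : NN F' x0 ⬝ᵥ WW F' x0 = Real.sqrt (DD F x0) := by
        rw [hWW', dotProduct_smul, hNN', smul_eq_mul, mul_one, hDD]
      have s1 : Matrix.det (Matrix.of ![NN F x0, pd 0 F x0, pd 1 F x0]) =
          Real.sqrt (DD F x0) := by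
        rw [← t1, WW, triple_product_eq_det]
        rfl
      have s2 : Matrix.det (Matrix.of ![NN F' x0, pd 0 F' x0, pd 1 F' x0]) =
          Real.sqrt (DD F x0) := by
        rw [← t2, WW, triple_product_eq_det]
        rfl
      rw [r0, r1, r2, s1, s2] at hdet
      have hpos : Real.sqrt (DD F x0) ≠ 0 := (Real.sqrt_pos.2 (hF.pos x0 hx0)).ne'
      have : (R.det - 1) * Real.sqrt (DD F x0) = 0 := by
        linear_combination -hdet
      have h3 := (mul_eq_zero.1 this).resolve_right hpos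
      linarith
  -- the translation
  have hdiffF : ∀ x ∈ U, DifferentiableAt ℝ F x := fun x hx =>
    diff_at hU hF.smooth (by norm_num) hx
  have hdiffF' : ∀ x ∈ U, DifferentiableAt ℝ F' x := fun x hx =>
    diff_at hU hF'.smooth (by norm_num) hx
  set L : V3 →L[ℝ] V3 := LinearMap.toContinuousLinearMap (Matrix.mulVecLin R) with hL
  have hLw : ∀ w, L w = R *ᵥ w := fun w => rfl
  have hcomp : ∀ x ∈ U, DifferentiableAt ℝ (fun y => L (F y)) x := fun x hx =>
    L.differentiableAt.comp x (hdiffF x hx)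
  obtain ⟨b, hb⟩ := eq_const_of_pd hU hUc (f := fun y => F' y - L (F y))
    (fun x hx => (hdiffF' x hx).sub (hcomp x hx)) (by
      intro x hx i
      rw [pd_sub i (hdiffF' x hx) (hcomp x hx), pd_clm i L (hdiffF x hx), hLw]
      obtain ⟨r0, r1, -⟩ := hRF x hx
      fin_cases i
      · change pd 0 F' x - R *ᵥ pd 0 F x = 0
        rw [r0, sub_self]
      · change pd 1 F' x - R *ᵥ pd 1 F x = 0
        rw [r1, sub_self])
  refine ⟨R, hSO, b, fun x hx => ?_⟩
  have := hb x hx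
  simp only [hLw] at this
  rw [← this]
  abel

end Pool.FR
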