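import Pool.Agent.Work.MP_02e829_fr.Interface

/-!
# Block GAU: the third fundamental form does not depend on `t`
-/

open Set Matrix Filter
open scoped Topology ContDiff

set_option autoImplicit false

namespace Pool.FR

namespace GAUaux

theorem contDiffOn_mulVec {n : WithTop ℕ∞} {U : Set E2} {M : ℕ} {v : E2 → Fin M → ℝ}
    (hv : ContDiffOn ℝ n v U) (A : Matrix (Fin 3) (Fin M) ℝ) :
    ContDiffOn ℝ n (fun y => A *ᵥ v y) U := by
  have hv' := contDiffOn_pi.1 hv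
  rw [contDiffOn_pi]
  intro i
  have h1 : (fun y => (A *ᵥ v y) i) = fun y => ∑ a, A i a * v y a := rfl
  rw [h1]
  exact ContDiffOn.sum fun a _ => contDiffOn_const.mul (hv' a)

theorem pd_mulVec {M K : ℕ} {v : E2 → Fin M → ℝ} {x : E2} (hv : DifferentiableAt ℝ v x)
    (A : Matrix (Fin K) (Fin M) ℝ) (i : Fin 2) :
    pd i (fun y => A *ᵥ v y) x = A *ᵥ pd i v x :=
  pd_clm i (LinearMap.toContinuousLinearMap (Matrix.mulVecLin A)) hv

theorem cross_normSq (a b : V3) : (a ⨯₃ b) ⬝ᵥ (a ⨯₃ b) = (a ⬝ᵥ a) * (b ⬝ᵥ b) - (a ⬝ᵥ b) ^ 2 := by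
  rw [cross_dot_cross, dotProduct_comm b a]
  ring

theorem imm_fam {U : Set E2} {M : ℕ} {v : E2 → Fin M → ℝ} {c : ℝ → Matrix (Fin 3) (Fin M) ℝ}
    (h : Fam U M v c) {t : ℝ} (ht : t ∈ Icc (0 : ℝ) 1) : Imm (fun y => c t *ᵥ v y) U where
  smooth := contDiffOn_mulVec h.smooth (c t)
  pos := by
    intro x hx
    have h1 := h.pos x hx
    have h2 : DD (fun y => c t *ᵥ v y) x = DD (fun y => c 0 *ᵥ v y) x := by
      unfold DD
      rw [h.iso t ht x hx, h.iso t ht x hx, h.iso t ht x hx]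
    rw [h2]
    exact h1

/-- continuity of the third fundamental form -/
theorem continuousOn_III (hFRM : Stmt_FRM) {U : Set E2} (hU : IsOpen U) {F : E2 → V3}
    (hF : Imm F U) (i j : Fin 2) : ContinuousOn (III F i j) U := by
  rcases U.eq_empty_or_nonempty with rfl | ⟨x0, hx0⟩
  · exact continuousOn_empty _
  have h1 : ContDiffOn ℝ 3 (NN F) U := (hFRM U hU F hF x0 hx0).2.2.2.2.2.2.2.2.1
  have h2 : ∀ k, ContDiffOn ℝ 2 (pd k (NN F)) U := fun k =>
    pd_contDiffOn hU h1 (m := 2) (by norm_num) k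
  exact (contDiffOn_dot (h2 i) (h2 j)).continuousOn

/-- the local statement -/
theorem locally (hLOC : Stmt_LOC) (hHOM : Stmt_HOM) (hFRM : Stmt_FRM) {U : Set E2} {M : ℕ}
    {v : E2 → Fin M → ℝ} {c : ℝ → Matrix (Fin 3) (Fin M) ℝ} (h : Fam U M v c)
    {t : ℝ} (ht : t ∈ Icc (0 : ℝ) 1) {O1 : Set E2} (hO1 : IsOpen O1) (hO1n : O1.Nonempty)
    (hO1U : O1 ⊆ U) :
    ∃ x ∈ O1, ∀ i j, III (fun y => c t *ᵥ v y) i j x = III (fun y => c 0 *ᵥ v y) i j x := by
  obtain ⟨O, hO, hOn, hOO1, N, s, a, m, hva, hUC⟩ := hHOM O1 hO1 hO1n M v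
  have hOU : O ⊆ U := hOO1.trans hO1U
  set u : E2 → Fin N → ℝ := fun x j => v x (s j) with hu
  have h0 : (0 : ℝ) ∈ Icc (0 : ℝ) 1 := ⟨le_rfl, zero_le_one⟩
  have hv' := contDiffOn_pi.1 h.smooth
  have hu4 : ContDiffOn ℝ 4 u O := by
    rw [contDiffOn_pi]
    intro j
    exact (hv' (s j)).mono hOU
  have hdu : ∀ x ∈ O, DifferentiableAt ℝ u x := fun x hx => diff_at hO hu4 (by norm_num) hx
  have hdv : ∀ x ∈ O, DifferentiableAt ℝ v x := fun x hx =>
    diff_at h.isOpen h.smooth (by norm_num) (hOU hx)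
  -- derivatives on `O`
  have hpv : ∀ x ∈ O, ∀ k, pd k v x = m *ᵥ pd k u x := by
    intro x hx k
    have h1 : pd k v x = pd k (fun y => a + m *ᵥ u y) x := pd_congr hO hva k hx
    have hdm : DifferentiableAt ℝ (fun y => m *ᵥ u y) x :=
      (LinearMap.toContinuousLinearMap (Matrix.mulVecLin m)).differentiableAt.comp x (hdu x hx)
    rw [h1, pd_add k (differentiableAt_const a) hdm, pd_const, pd_mulVec (hdu x hx), zero_add]
  have hpF : ∀ r, ∀ x ∈ O, ∀ k, pd k (fun y => c r *ᵥ v y) x = (c r * m) *ᵥ pd k u x := by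
    intro r x hx k
    rw [pd_mulVec (hdv x hx), hpv x hx k, Matrix.mulVec_mulVec]
  have hWW : ∀ r, ∀ x ∈ O, WW (fun y => c r *ᵥ v y) x =
      ((c r * m) *ᵥ pd 0 u x) ⨯₃ ((c r * m) *ᵥ pd 1 u x) := by
    intro r x hx
    rw [WW, hpF r x hx, hpF r x hx]
  have hgg : ∀ r, ∀ x ∈ O, ∀ i j, gg (fun y => c r *ᵥ v y) i j x =
      ((c r * m) *ᵥ pd i u x) ⬝ᵥ ((c r * m) *ᵥ pd j u x) := by
    intro r x hx i j
    rw [gg, hpF r x hx, hpF r x hx]
  -- LOC
  have hcont : ContinuousOn (fun r => c r * m) (Icc 0 1) :=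
    (continuous_id.matrix_mul continuous_const).comp_continuousOn h.cont
  have hL := hLOC O hO N u (hu4.of_le (by norm_num)) hUC (fun r => c r * m) hcont
    (fun r hr x hx i j => by
      have := h.iso r hr x (hOU hx) i j
      rw [hgg r x hx, hgg 0 x hx] at this
      exact this)
    (fun x hx => by
      have hpos := h.pos x (hOU hx)
      intro hz
      have h1 : WW (fun y => c 0 *ᵥ v y) x = 0 := by rw [hWW 0 x hx]; exact hz
      have h2 : DD (fun y => c 0 *ᵥ v y) x = WW (fun y => c 0 *ᵥ v y) x ⬝ᵥ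
          WW (fun y => c 0 *ᵥ v y) x := by
        rw [WW, cross_normSq]
        rfl
      rw [h2, h1] at hpos
      simp at hpos)
  have hNN : ∀ x ∈ O, ∀ y ∈ O, NN (fun y => c t *ᵥ v y) x ⬝ᵥ NN (fun y => c t *ᵥ v y) y =
      NN (fun y => c 0 *ᵥ v y) x ⬝ᵥ NN (fun y => c 0 *ᵥ v y) y := by
    intro x hx y hy
    have hD : ∀ z ∈ O, DD (fun y => c t *ᵥ v y) z = DD (fun y => c 0 *ᵥ v y) z := by
      intro z hz
      unfold DD
      rw [h.iso t ht z (hOU hz), h.iso t ht z (hOU hz), h.iso t ht z (hOU hz)]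
    have h1 := hL t ht x hx y hy
    rw [← hWW t x hx, ← hWW t y hy, ← hWW 0 x hx, ← hWW 0 y hy] at h1
    rw [NN, NN, NN, NN, hD x hx, hD y hy, smul_dotProduct, smul_dotProduct, dotProduct_smul,
      dotProduct_smul, h1]
  -- differentiability of the normals
  have hdN : ∀ r ∈ Icc (0 : ℝ) 1, ContDiffOn ℝ 3 (NN (fun y => c r *ᵥ v y)) U := by
    intro r hr
    obtain ⟨z, hz⟩ := hOn
    exact (hFRM U h.isOpen _ (imm_fam h hr) z (hOU hz)).2.2.2.2.2.2.2.2.1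
  have hdN1 : ∀ r ∈ Icc (0 : ℝ) 1, ∀ x ∈ O, DifferentiableAt ℝ (NN (fun y => c r *ᵥ v y)) x :=
    fun r hr x hx => diff_at h.isOpen (hdN r hr) (by norm_num) (hOU hx)
  obtain ⟨z, hz⟩ := hOn
  refine ⟨z, hOO1 hz, fun i j => ?_⟩
  have hstep1 : ∀ y ∈ O, pd i (NN (fun y => c t *ᵥ v y)) z ⬝ᵥ NN (fun y => c t *ᵥ v y) y =
      pd i (NN (fun y => c 0 *ᵥ v y)) z ⬝ᵥ NN (fun y => c 0 *ᵥ v y) y := by
    intro y hy
    have h1 := pd_congr hO (fun x hx => hNN x hx y hy) i hz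
    rw [pd_dot i (hdN1 t ht z hz) (differentiableAt_const _),
      pd_dot i (hdN1 0 h0 z hz) (differentiableAt_const _), pd_const, pd_const,
      dotProduct_zero, dotProduct_zero, add_zero, add_zero] at h1
    exact h1
  have h2 := pd_congr hO hstep1 j hz
  rw [pd_dot j (differentiableAt_const _) (hdN1 t ht z hz),
    pd_dot j (differentiableAt_const _) (hdN1 0 h0 z hz), pd_const, pd_const,
    zero_dotProduct, zero_dotProduct, zero_add, zero_add] at h2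
  exact h2

end GAUaux

open GAUaux in
theorem blk_GAU (hLOC : Stmt_LOC) (hHOM : Stmt_HOM) (hFRM : Stmt_FRM) : Stmt_GAU := by
  intro U M v c h t ht x hx i j
  have h0 : (0 : ℝ) ∈ Icc (0 : ℝ) 1 := ⟨le_rfl, zero_le_one⟩
  by_contra hne
  have hc1 := continuousOn_III hFRM h.isOpen (imm_fam h ht) i j
  have hc2 := continuousOn_III hFRM h.isOpen (imm_fam h h0) i j
  have hev : ∀ᶠ y in 𝓝 x, III (fun y => c t *ᵥ v y) i j y - III (fun y => c 0 *ᵥ v y) i j y ≠ 0 :=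
    ((hc1.continuousAt (h.isOpen.mem_nhds hx)).sub
      (hc2.continuousAt (h.isOpen.mem_nhds hx))).eventually_ne (sub_ne_zero.2 hne)
  obtain ⟨r, hr, hball⟩ := Metric.eventually_nhds_iff_ball.1 (hev.and (h.isOpen.mem_nhds hx))
  obtain ⟨y, hy, hyy⟩ := locally hLOC hHOM hFRM h ht Metric.isOpen_ball
    ⟨x, Metric.mem_ball_self hr⟩ (fun y hy => (hball y hy).2)
  exact (hball y hy).1 (sub_eq_zero.2 (hyy i j))

end Pool.FR
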