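import Pool.Agent.Work.MP_02e829_fr.Interface

/-!
# Block HOM: every open set contains an open set with unique continuation
-/

open Set Matrix Filter
open scoped Topology ContDiff

set_option autoImplicit false

namespace Pool.FR

namespace HOMaux

/-- `N` components are enough on some nonempty open subset of `U` -/
def Good (U : Set E2) {M : ℕ} (v : E2 → Fin M → ℝ) (N : ℕ) : Prop :=
  ∃ O : Set E2, IsOpen O ∧ O.Nonempty ∧ O ⊆ U ∧ ∃ (s : Fin N → Fin M)
      (a : Fin M → ℝ) (m : Matrix (Fin M) (Fin N) ℝ),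
      ∀ x ∈ O, v x = a + m *ᵥ (fun j => v x (s j))

theorem good_top {U : Set E2} (hU : IsOpen U) (hne : U.Nonempty) {M : ℕ} (v : E2 → Fin M → ℝ) :
    Good U v M := by
  refine ⟨U, hU, hne, subset_rfl, id, 0, 1, fun x _ => ?_⟩
  rw [one_mulVec, zero_add]
  rfl

theorem elim {M N : ℕ} {v : E2 → Fin M → ℝ} {O : Set E2} {s : Fin (N + 1) → Fin M}
    {a : Fin M → ℝ} {m : Matrix (Fin M) (Fin (N + 1)) ℝ} {k : Fin (N + 1) → ℝ} {c : ℝ}
    {j0 : Fin (N + 1)} (hk : k j0 ≠ 0)
    (h : ∀ x ∈ O, v x = a + m *ᵥ (fun j => v x (s j)))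
    (hc : ∀ x ∈ O, k ⬝ᵥ (fun j => v x (s j)) = c) :
    ∀ x ∈ O, v x = (fun i => a i + m i j0 * c / k j0) +
      (Matrix.of fun i j => m i (j0.succAbove j) - m i j0 * k (j0.succAbove j) / k j0) *ᵥ
        (fun j => v x (s (j0.succAbove j))) := by
  intro x hx
  have h1 := h x hx
  have h2 := hc x hx
  rw [dotProduct, Fin.sum_univ_succAbove _ j0] at h2
  have h3 : v x (s j0) = c / k j0 -
      ∑ j, k (j0.succAbove j) / k j0 * v x (s (j0.succAbove j)) := by
    have h4 : ∑ j, k (j0.succAbove j) / k j0 * v x (s (j0.succAbove j)) =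
        (∑ j, k (j0.succAbove j) * v x (s (j0.succAbove j))) / k j0 := by
      rw [Finset.sum_div]
      exact Finset.sum_congr rfl fun j _ => by ring
    rw [h4, ← h2]
    field_simp
    ring
  funext i
  have h5 : v x i = a i + ∑ j, m i j * v x (s j) := by
    conv_lhs => rw [h1]
    rfl
  rw [h5, Fin.sum_univ_succAbove _ j0, h3]
  have h6 : ((fun i => a i + m i j0 * c / k j0) +
      (Matrix.of fun i j => m i (j0.succAbove j) - m i j0 * k (j0.succAbove j) / k j0) *ᵥ
        (fun j => v x (s (j0.succAbove j)))) i =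
      (a i + m i j0 * c / k j0) + ∑ j, (m i (j0.succAbove j) -
        m i j0 * k (j0.succAbove j) / k j0) * v x (s (j0.succAbove j)) := rfl
  rw [h6]
  have h7 : ∑ j, (m i (j0.succAbove j) -
        m i j0 * k (j0.succAbove j) / k j0) * v x (s (j0.succAbove j)) =
      ∑ j, m i (j0.succAbove j) * v x (s (j0.succAbove j)) -
      m i j0 * ∑ j, k (j0.succAbove j) / k j0 * v x (s (j0.succAbove j)) := by
    rw [Finset.mul_sum, ← Finset.sum_sub_distrib]
    exact Finset.sum_congr rfl fun j _ => by ring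
  rw [h7]
  ring

end HOMaux

open HOMaux in
theorem blk_HOM : Stmt_HOM := by
  classical
  intro U hU hne M v
  have hex : ∃ N, Good U v N := ⟨M, good_top hU hne v⟩
  have hmin : ∀ N', N' < Nat.find hex → ¬ Good U v N' := fun N' h => Nat.find_min hex h
  obtain ⟨O, hO, hOne, hOU, s, a, m, h⟩ := Nat.find_spec hex
  generalize hN : Nat.find hex = N at s m h hmin
  refine ⟨O, hO, hOne, hOU, N, s, a, m, h, ?_⟩
  intro k O' hO' hO'ne hO'O hc
  obtain ⟨c, hc⟩ := hc
  by_contra hk
  obtain ⟨j0, hj0⟩ : ∃ j0, k j0 ≠ 0 := by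
    by_contra hcon
    push Not at hcon
    exact hk (funext hcon)
  match N, s, m, h, hmin, k, hc, hk, j0, hj0 with
  | 0, _, _, _, _, _, _, _, j0, _ => exact j0.elim0
  | N' + 1, s, m, h, hmin, k, hc, _, j0, hj0 =>
    refine hmin N' (Nat.lt_succ_self _) ⟨O', hO', hO'ne, hO'O.trans hOU,
      fun j => s (j0.succAbove j), _, _, elim hj0 (fun x hx => h x (hO'O hx)) hc⟩

end Pool.FR
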