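import Pool.Agent.Work.MP_02e829_fr.Interface

/-!
# Block KOS: the Koszul formula (helper59)
-/

open Set Matrix Filter
open scoped Topology ContDiff

set_option autoImplicit false

namespace Pool.FR

namespace KOSB

theorem real_kos {U : Set E2} (hU : IsOpen U) {N : ℕ} {u : E2 → Fin N → ℝ}
    (hu : ContDiffOn ℝ 2 u U) (B : Matrix (Fin N) (Fin N) ℝ) (hB : Bᵀ = B)
    (h0 : ∀ x ∈ U, ∀ i j, pd i u x ⬝ᵥ B *ᵥ pd j u x = 0) :
    ∀ x ∈ U, ∀ i j k, pd i (pd j u) x ⬝ᵥ B *ᵥ pd k u x = 0 := by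
  intro x hx
  have hd : ∀ j, DifferentiableAt ℝ (pd j u) x := fun j =>
    diff_at hU (pd_contDiffOn hU hu (by norm_num : (1 : WithTop ℕ∞) + 1 ≤ 2) j) le_rfl hx
  obtain ⟨L, hL⟩ : ∃ L : (Fin N → ℝ) →L[ℝ] (Fin N → ℝ), ∀ v, L v = B *ᵥ v :=
    ⟨LinearMap.toContinuousLinearMap (Matrix.mulVecLin B), fun v => rfl⟩
  have hLd : ∀ k, DifferentiableAt ℝ (fun y => B *ᵥ pd k u y) x := by
    intro k
    have h1 : (fun y => B *ᵥ pd k u y) = fun y => L (pd k u y) := by
      funext y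
      rw [hL]
    rw [h1]
    exact L.differentiableAt.comp x (hd k)
  have hLp : ∀ i k, pd i (fun y => B *ᵥ pd k u y) x = B *ᵥ pd i (pd k u) x := by
    intro i k
    have h1 : (fun y => B *ᵥ pd k u y) = fun y => L (pd k u y) := by
      funext y
      rw [hL]
    rw [h1, pd_clm i L (hd k), hL]
  have hsym : ∀ v w : Fin N → ℝ, v ⬝ᵥ B *ᵥ w = w ⬝ᵥ B *ᵥ v := by
    intro v w
    rw [Matrix.dotProduct_mulVec, ← Matrix.mulVec_transpose, hB, dotProduct_comm]
  have hder : ∀ i j k, pd i (pd j u) x ⬝ᵥ B *ᵥ pd k u x +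
      pd i (pd k u) x ⬝ᵥ B *ᵥ pd j u x = 0 := by
    intro i j k
    have h1 : pd i (fun y => pd j u y ⬝ᵥ B *ᵥ pd k u y) x = 0 := by
      rw [pd_congr hU (g := fun _ => (0 : ℝ)) (fun y hy => h0 y hy j k) i hx]
      exact pd_const i _ x
    rw [pd_dot i (hd j) (hLd k), hLp, hsym (pd j u x)] at h1
    exact h1
  have hc : ∀ i j k, pd i (pd j u) x ⬝ᵥ B *ᵥ pd k u x = pd j (pd i u) x ⬝ᵥ B *ᵥ pd k u x := by
    intro i j k
    rw [pd_comm hU hu le_rfl i j hx]
  intro i j k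
  have e1 := hder i j k
  have e2 := hc i k j
  have e3 := hder k i j
  have e4 := hc k j i
  have e5 := hder j k i
  have e6 := hc j i k
  linarith

end KOSB

theorem blk_KOS : Stmt_KOS := by
  intro U hU N u hu B hB h0 x hx i j k
  obtain ⟨R, hR⟩ : ∃ R : Matrix (Fin N) (Fin N) ℝ, R = Matrix.of fun a b => (B a b).re :=
    ⟨_, rfl⟩
  obtain ⟨I, hI⟩ : ∃ I : Matrix (Fin N) (Fin N) ℝ, I = Matrix.of fun a b => (B a b).im :=
    ⟨_, rfl⟩
  have hbf : ∀ v w : Fin N → ℝ, bf B (cx v) (cx w) =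
      ((v ⬝ᵥ R *ᵥ w : ℝ) : ℂ) + ((v ⬝ᵥ I *ᵥ w : ℝ) : ℂ) * Complex.I := by
    intro v w
    unfold bf cx
    simp only [dotProduct, mulVec, hR, hI, Matrix.of_apply]
    push_cast
    rw [Finset.sum_mul, ← Finset.sum_add_distrib]
    apply Finset.sum_congr rfl
    intro a _
    rw [Finset.mul_sum, Finset.mul_sum, Finset.mul_sum, Finset.sum_mul, ← Finset.sum_add_distrib]
    apply Finset.sum_congr rfl
    intro b _
    have : B a b = ((B a b).re : ℂ) + ((B a b).im : ℂ) * Complex.I := (Complex.re_add_im _).symm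
    rw [this]
    simp only [Complex.add_re, Complex.ofReal_re, Complex.mul_re, Complex.I_re, mul_zero,
      Complex.ofReal_im, Complex.I_im, mul_one, sub_self, add_zero, Complex.add_im,
      Complex.mul_im, zero_add]
    ring
  have hRs : Rᵀ = R := by
    ext a b
    rw [hR]
    simp only [Matrix.transpose_apply, Matrix.of_apply]
    rw [hB.apply]
  have hIs : Iᵀ = I := by
    ext a b
    rw [hI]
    simp only [Matrix.transpose_apply, Matrix.of_apply]
    rw [hB.apply]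
  have key : ∀ a b : ℝ, ((a : ℂ) + (b : ℂ) * Complex.I = 0) → a = 0 ∧ b = 0 := by
    intro a b h
    have h1 := congrArg Complex.re h
    have h2 := congrArg Complex.im h
    simp at h1 h2
    exact ⟨h1, h2⟩
  have hR0 : ∀ x ∈ U, ∀ i j, pd i u x ⬝ᵥ R *ᵥ pd j u x = 0 := by
    intro x hx i j
    have h := h0 x hx i j
    rw [hbf] at h
    exact (key _ _ h).1
  have hI0 : ∀ x ∈ U, ∀ i j, pd i u x ⬝ᵥ I *ᵥ pd j u x = 0 := by
    intro x hx i j
    have h := h0 x hx i j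
    rw [hbf] at h
    exact (key _ _ h).2
  rw [hbf, KOSB.real_kos hU hu R hRs hR0 x hx i j k, KOSB.real_kos hU hu I hIs hI0 x hx i j k]
  simp

end Pool.FR
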