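import Pool.Agent.Work.MP_02e829_fr.Interface

/-!
# Block LOA: the second derivatives are not isotropic on a dense set
-/

open Set Matrix Filter
open scoped Topology ContDiff

set_option autoImplicit false

namespace Pool.FR

namespace LOAaux

variable {N : ℕ}

theorem bf_add_left (B : Matrix (Fin N) (Fin N) ℂ) (x x' y : Fin N → ℂ) :
    bf B (x + x') y = bf B x y + bf B x' y := by
  simp [bf, add_dotProduct]

theorem bf_symm {B : Matrix (Fin N) (Fin N) ℂ} (hB : B.IsSymm) (x y : Fin N → ℂ) :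
    bf B x y = bf B y x := by
  unfold bf
  rw [Matrix.dotProduct_mulVec, ← Matrix.mulVec_transpose, hB.eq, dotProduct_comm]

/-- isotropic pairs give proportional functionals -/
theorem prop_of_iso {B : Matrix (Fin N) (Fin N) ℂ} (hB : B.IsSymm)
    (hdet : ∀ y : Fin 4 → Fin N → ℂ, (Matrix.of fun a b => bf B (y a) (y b)).det = 0)
    {e f : Fin N → ℂ} (hee : bf B e e = 0) (hef : bf B e f = 0) (hff : bf B f f = 0)
    (y z : Fin N → ℂ) : bf B e y * bf B f z = bf B e z * bf B f y := by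
  have h := hdet ![e, f, y, z]
  have hfe : bf B f e = 0 := by rw [bf_symm hB]; exact hef
  have hye := bf_symm hB y e
  have hyf := bf_symm hB y f
  have hze := bf_symm hB z e
  have hzf := bf_symm hB z f
  have h2 : (bf B e y * bf B f z - bf B e z * bf B f y) ^ 2 = 0 := by
    rw [← h]
    simp only [Matrix.det_succ_row_zero, Fin.sum_univ_succ, Matrix.of_apply]
    simp [Fin.succAbove, hee, hef, hff, hfe, hye, hyf, hze, hzf]
    ring
  exact sub_eq_zero.mp (pow_eq_zero_iff (two_ne_zero)|>.mp h2)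

/-- the functional `v ↦ B(v, y)` on real vectors -/
noncomputable def Ly (B : Matrix (Fin N) (Fin N) ℂ) (y : Fin N → ℂ) : (Fin N → ℝ) →L[ℝ] ℂ :=
  LinearMap.toContinuousLinearMap
    { toFun := fun v => bf B (cx v) y
      map_add' := by
        intro v w
        rw [← bf_add_left]
        congr 1
        funext a
        simp [cx]
      map_smul' := by
        intro r v
        simp only [bf, cx, dotProduct, Pi.smul_apply, smul_eq_mul, Complex.ofReal_mul,
          RingHom.id_apply, Complex.real_smul, Finset.mul_sum]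
        refine Finset.sum_congr rfl fun a _ => ?_
        ring }

theorem Ly_apply (B : Matrix (Fin N) (Fin N) ℂ) (y : Fin N → ℂ) (v : Fin N → ℝ) :
    Ly B y v = bf B (cx v) y := rfl

/-- real and imaginary parts -/
theorem bf_cx (B : Matrix (Fin N) (Fin N) ℂ) (y : Fin N → ℂ) (v : Fin N → ℝ) :
    bf B (cx v) y = (((fun a => ((B *ᵥ y) a).re) ⬝ᵥ v : ℝ) : ℂ) +
      Complex.I * (((fun a => ((B *ᵥ y) a).im) ⬝ᵥ v : ℝ) : ℂ) := by
  simp only [bf, cx, dotProduct, Complex.ofReal_sum, Finset.mul_sum, ← Finset.sum_add_distrib]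
  refine Finset.sum_congr rfl fun a _ => ?_
  apply Complex.ext <;> simp [mul_comm]

/-- if all `B(u_k, y)` vanish on a ball then `B y = 0` -/
theorem mulVec_eq_zero {U : Set E2} {u : E2 → Fin N → ℝ} (hUC : UC u U)
    (B : Matrix (Fin N) (Fin N) ℂ) {V : Set E2} (hV : IsOpen V) (hVn : V.Nonempty)
    (hVc : IsPreconnected V) (hVU : V ⊆ U) (hd : ∀ x ∈ V, DifferentiableAt ℝ u x)
    (y : Fin N → ℂ) (h : ∀ x ∈ V, ∀ k, bf B (cx (pd k u x)) y = 0) : B *ᵥ y = 0 := by
  have key : ∀ w : Fin N → ℝ, (∀ x ∈ V, ∀ k, w ⬝ᵥ pd k u x = 0) → w = 0 := by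
    intro w hw
    refine hUC w V hV hVn hVU ?_
    have hd1 : ∀ x ∈ V, ∀ k, pd k (fun x => w ⬝ᵥ u x) x = 0 := by
      intro x hx k
      rw [pd_dot k (differentiableAt_const w) (hd x hx), pd_const, hw x hx k]
      simp
    have hd2 : ∀ x ∈ V, DifferentiableAt ℝ (fun x => w ⬝ᵥ u x) x := by
      intro x hx
      have h1 : (fun y => w ⬝ᵥ u y) = fun y => ∑ a, w a * u y a := rfl
      rw [h1]
      refine DifferentiableAt.fun_sum fun a _ => ?_
      exact (differentiableAt_const (w a)).mul ((differentiableAt_pi.1 (hd x hx)) a)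
    obtain ⟨c, hc⟩ := eq_const_of_pd hV hVc hd2 hd1
    exact ⟨c, hc⟩
  have h0 : ∀ x ∈ V, ∀ k, (fun a => ((B *ᵥ y) a).re) ⬝ᵥ pd k u x = 0 ∧
      (fun a => ((B *ᵥ y) a).im) ⬝ᵥ pd k u x = 0 := by
    intro x hx k
    have h1 := h x hx k
    rw [bf_cx] at h1
    have h2 := congrArg Complex.re h1
    have h3 := congrArg Complex.im h1
    simp only [Complex.add_re, Complex.ofReal_re, Complex.mul_re, Complex.I_re, zero_mul,
      Complex.I_im, Complex.ofReal_im, mul_zero, sub_zero, add_zero, Complex.zero_re] at h2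
    simp only [Complex.add_im, Complex.ofReal_im, Complex.mul_im, Complex.I_re, zero_mul,
      Complex.I_im, Complex.ofReal_re, one_mul, zero_add, Complex.zero_im] at h3
    exact ⟨h2, h3⟩
  have h4 := key _ fun x hx k => (h0 x hx k).1
  have h5 := key _ fun x hx k => (h0 x hx k).2
  funext a
  apply Complex.ext
  · exact congrFun h4 a
  · exact congrFun h5 a

end LOAaux

open LOAaux in
theorem blk_LOA (hKOS : Stmt_KOS) : Stmt_LOA := by
  intro U hU N u hu hUC B hB hB0 hdet hiso O hO hOn hOU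
  by_contra hcon
  push Not at hcon
  -- isotropy
  have hk : ∀ x ∈ O, ∀ i j k, bf B (cx (pd i (pd j u) x)) (cx (pd k u x)) = 0 :=
    fun x hx => hKOS U hU N u hu B hB hiso x (hOU hx)
  have hdu : ∀ x ∈ O, DifferentiableAt ℝ u x := fun x hx =>
    diff_at hU hu (by norm_num) (hOU hx)
  have hdu1 : ∀ i, ∀ x ∈ O, DifferentiableAt ℝ (pd i u) x := fun i x hx =>
    diff_at hU (pd_contDiffOn hU hu (m := 1) (by norm_num) i) le_rfl (hOU hx)
  -- a point where a functional is not zero
  obtain ⟨z0, hz0⟩ := hOn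
  obtain ⟨r0, hr0, hball0⟩ := Metric.isOpen_iff.1 hO z0 hz0
  have hex : ∃ x0 ∈ O, ∃ i0, ∃ y, bf B (cx (pd i0 u x0)) y ≠ 0 := by
    by_contra hno
    push Not at hno
    apply hB0
    have h1 : ∀ y : Fin N → ℂ, B *ᵥ y = 0 := fun y =>
      mulVec_eq_zero hUC B Metric.isOpen_ball ⟨z0, Metric.mem_ball_self hr0⟩
        (convex_ball z0 r0).isPreconnected (hball0.trans hOU)
        (fun x hx => hdu x (hball0 hx)) y fun x hx k => hno x (hball0 hx) k y
    ext a b
    have h2 := congrFun (h1 (Pi.single b 1)) a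
    simpa using h2
  obtain ⟨x0, hx0, i0, y1, hy1⟩ := hex
  -- a ball on which it is not zero
  have hcont : ContinuousAt (fun x => bf B (cx (pd i0 u x)) y1) x0 := by
    have h1 : (fun x => bf B (cx (pd i0 u x)) y1) = fun x => Ly B y1 (pd i0 u x) := rfl
    rw [h1]
    exact (Ly B y1).continuous.continuousAt.comp (hdu1 i0 x0 hx0).continuousAt
  have hev := (hcont.eventually_ne hy1).and (hO.mem_nhds hx0)
  obtain ⟨r, hr, hball⟩ := Metric.eventually_nhds_iff_ball.1 hev
  set V := Metric.ball x0 r with hVdef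
  have hVO : V ⊆ O := fun x hx => (hball x hx).2
  have hVne : ∀ x ∈ V, bf B (cx (pd i0 u x)) y1 ≠ 0 := fun x hx => (hball x hx).1
  have hx0V : x0 ∈ V := Metric.mem_ball_self hr
  have hVc : IsPreconnected V := (convex_ball x0 r).isPreconnected
  -- proportionality
  have hprop : ∀ x ∈ V, ∀ y, bf B (cx (pd i0 u x)) y * bf B (cx (pd i0 u x0)) y1 =
      bf B (cx (pd i0 u x0)) y * bf B (cx (pd i0 u x)) y1 := by
    intro x hx y
    have hq : ∃ c, ∀ x ∈ V, bf B (cx (pd i0 u x)) y * (bf B (cx (pd i0 u x)) y1)⁻¹ = c := by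
      have hdl : ∀ w, ∀ x ∈ V, DifferentiableAt ℝ (fun x => bf B (cx (pd i0 u x)) w) x := by
        intro w x hx
        exact (Ly B w).differentiableAt.comp x (hdu1 i0 x (hVO hx))
      have hpl : ∀ w, ∀ x ∈ V, ∀ j, pd j (fun x => bf B (cx (pd i0 u x)) w) x =
          bf B (cx (pd j (pd i0 u) x)) w := by
        intro w x hx j
        exact pd_clm j (Ly B w) (hdu1 i0 x (hVO hx))
      have hdi : ∀ x ∈ V, DifferentiableAt ℝ (fun x => (bf B (cx (pd i0 u x)) y1)⁻¹) x :=
        fun x hx => (hdl y1 x hx).fun_inv (hVne x hx)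
      refine eq_const_of_pd Metric.isOpen_ball hVc
        (fun x hx => (hdl y x hx).mul (hdi x hx)) ?_
      intro x hx j
      have h1 : pd j (fun x => bf B (cx (pd i0 u x)) y1 * (bf B (cx (pd i0 u x)) y1)⁻¹) x = 0 := by
        have h2 : pd j (fun x => bf B (cx (pd i0 u x)) y1 * (bf B (cx (pd i0 u x)) y1)⁻¹) x =
            pd j (fun _ => (1 : ℂ)) x :=
          pd_congr Metric.isOpen_ball (fun z hz => mul_inv_cancel₀ (hVne z hz)) j hx
        rw [h2, pd_const]
      rw [pd_cmul j (hdl y1 x hx) (hdi x hx), hpl y1 x hx j] at h1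
      rw [pd_cmul j (hdl y x hx) (hdi x hx), hpl y x hx j]
      have h3 := prop_of_iso hB hdet (hiso x (hOU (hVO hx)) i0 i0)
        (by rw [bf_symm hB]; exact hk x (hVO hx) j i0 i0)
        (hcon x (hVO hx) j i0 j i0) y y1
      have h4 := hVne x hx
      set b1 := bf B (cx (pd i0 u x)) y1
      set b0 := bf B (cx (pd i0 u x)) y
      set c1 := bf B (cx (pd j (pd i0 u) x)) y1
      set c0 := bf B (cx (pd j (pd i0 u) x)) y
      set q := pd j (fun x => (bf B (cx (pd i0 u x)) y1)⁻¹) x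
      have h5 : q = - (c1 * b1⁻¹ * b1⁻¹) := by
        have : b1 * q = - (c1 * b1⁻¹) := by linear_combination h1
        calc q = b1⁻¹ * (b1 * q) := by rw [← mul_assoc, inv_mul_cancel₀ h4, one_mul]
          _ = _ := by rw [this]; ring
      rw [h5]
      field_simp
      linear_combination -h3
    obtain ⟨c, hc⟩ := hq
    have h1 := hc x hx
    have h2 := hc x0 hx0V
    rw [← h2] at h1
    have h3 := hVne x hx
    have h4 := hVne x0 hx0V
    field_simp at h1
    linear_combination h1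
  -- the contradiction
  have hy0 : ∀ x ∈ V, bf B (cx (pd i0 u x)) (cx (pd i0 u x0)) = 0 := by
    intro x hx
    have h1 := hprop x hx (cx (pd i0 u x0))
    rw [hiso x0 (hOU hx0) i0 i0, zero_mul] at h1
    exact (mul_eq_zero.1 h1).resolve_right hy1
  have hall : ∀ x ∈ V, ∀ k, bf B (cx (pd k u x)) (cx (pd i0 u x0)) = 0 := by
    intro x hx k
    have h1 := prop_of_iso hB hdet (hiso x (hOU (hVO hx)) i0 i0) (hiso x (hOU (hVO hx)) i0 k)
      (hiso x (hOU (hVO hx)) k k) y1 (cx (pd i0 u x0))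
    rw [hy0 x hx, zero_mul] at h1
    exact (mul_eq_zero.1 h1).resolve_left (hVne x hx)
  have hfin := mulVec_eq_zero hUC B Metric.isOpen_ball ⟨x0, hx0V⟩ hVc (hVO.trans hOU)
    (fun x hx => hdu x (hVO hx)) (cx (pd i0 u x0)) hall
  apply hy1
  rw [bf_symm hB, bf, hfin, dotProduct_zero]

end Pool.FR
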