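import Pool.Agent.Work.MP_02e829_fr.Interface

/-!
# Block LOC: the Gauss map does not depend on `t`
-/

open Set Matrix Filter
open scoped Topology ContDiff

set_option autoImplicit false
set_option linter.unusedSectionVars false

namespace Pool.FR

namespace LocBlock

variable {N : ℕ}

theorem bf_mul (C : Matrix (Fin 3) (Fin N) ℂ) (x y : Fin N → ℂ) :
    bf (Cᵀ * C) x y = (C *ᵥ x) ⬝ᵥ (C *ᵥ y) := by
  rw [bf, ← Matrix.mulVec_mulVec, Matrix.dotProduct_mulVec, Matrix.vecMul_transpose]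

theorem cross_bf (a b c d : Fin N → ℂ) (C : Matrix (Fin 3) (Fin N) ℂ) :
    ((C *ᵥ a) ⨯₃ (C *ᵥ b)) ⬝ᵥ ((C *ᵥ c) ⨯₃ (C *ᵥ d)) =
      bf (Cᵀ * C) a c * bf (Cᵀ * C) b d - bf (Cᵀ * C) a d * bf (Cᵀ * C) b c := by
  rw [cross_dot_cross, bf_mul, bf_mul, bf_mul, bf_mul]

/-- the Gram determinant of four vectors of `ℂ³` is zero -/
theorem gram_zero (C : Matrix (Fin 3) (Fin N) ℂ) (y : Fin 4 → Fin N → ℂ) :
    (Matrix.of fun a b => bf (Cᵀ * C) (y a) (y b)).det = 0 := by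
  set Y : Matrix (Fin 3) (Fin 4) ℂ := Matrix.of fun i a => (C *ᵥ y a) i with hY
  have h1 : (Matrix.of fun a b => bf (Cᵀ * C) (y a) (y b)) = Yᵀ * Y := by
    ext a b
    rw [Matrix.of_apply, bf_mul, Matrix.mul_apply]
    rfl
  rw [h1]
  obtain ⟨v, hv0, hv⟩ : ∃ v : Fin 4 → ℂ, Y *ᵥ v = 0 ∧ v ≠ 0 := by
    have h2 : Module.finrank ℂ (Fin 3 → ℂ) < Module.finrank ℂ (Fin 4 → ℂ) := by simp
    have h3 := LinearMap.ker_ne_bot_of_finrank_lt (f := Y.mulVecLin) h2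
    obtain ⟨v, hv, hv0⟩ := Submodule.exists_mem_ne_zero_of_ne_bot h3
    exact ⟨v, by simpa using hv, hv0⟩
  rw [← Matrix.exists_mulVec_eq_zero_iff]
  exact ⟨v, hv, by rw [← Matrix.mulVec_mulVec, hv0, Matrix.mulVec_zero]⟩

theorem continuous_bf (x y : Fin N → ℂ) :
    Continuous fun B : Matrix (Fin N) (Fin N) ℂ => bf B x y := by
  unfold bf
  fun_prop

theorem bf_smul (c : ℂ) (B : Matrix (Fin N) (Fin N) ℂ) (x y : Fin N → ℂ) :
    bf (c • B) x y = c * bf B x y := by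
  rw [bf, bf, Matrix.smul_mulVec, dotProduct_smul, smul_eq_mul]

/-- the entries of the form -/
theorem norm_bf_le (x y : Fin N → ℂ) : ∃ K : ℝ, 0 ≤ K ∧ ∀ (B : Matrix (Fin N) (Fin N) ℂ) (s : ℝ),
    (∀ a b, ‖B a b‖ ≤ s) → ‖bf B x y‖ ≤ K * s := by
  refine ⟨∑ a, ∑ b, ‖x a‖ * ‖y b‖, by positivity, fun B s hs => ?_⟩
  have h1 : bf B x y = ∑ a, ∑ b, x a * (B a b * y b) := by
    simp only [bf, dotProduct, Matrix.mulVec, Finset.mul_sum]
  rw [h1, Finset.sum_mul]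
  refine (norm_sum_le _ _).trans (Finset.sum_le_sum fun a _ => ?_)
  rw [Finset.sum_mul]
  refine (norm_sum_le _ _).trans (Finset.sum_le_sum fun b _ => ?_)
  rw [norm_mul, norm_mul]
  calc ‖x a‖ * (‖B a b‖ * ‖y b‖) ≤ ‖x a‖ * (s * ‖y b‖) := by
        gcongr
        exact hs a b
    _ = ‖x a‖ * ‖y b‖ * s := by ring

theorem bf_eq (B : Matrix (Fin N) (Fin N) ℂ) (x y : Fin N → ℂ) :
    bf B x y = ∑ a, ∑ c, B a c * (x a * y c) := by
  simp only [bf, dotProduct, Matrix.mulVec, Finset.mul_sum]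
  refine Finset.sum_congr rfl fun a _ => Finset.sum_congr rfl fun c _ => ?_
  ring

theorem bf_mul_bf (B : Matrix (Fin N) (Fin N) ℂ) (x y x' y' : Fin N → ℂ) :
    bf B x y * bf B x' y' = ∑ a, ∑ b, ∑ c, ∑ d, B a c * B b d * (x a * x' b * (y c * y' d)) := by
  rw [bf_eq, bf_eq, Finset.sum_mul_sum]
  refine Finset.sum_congr rfl fun a _ => Finset.sum_congr rfl fun b _ => ?_
  rw [Finset.sum_mul_sum]
  refine Finset.sum_congr rfl fun c _ => Finset.sum_congr rfl fun d _ => ?_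
  ring

/-- the isometric matrices -/
def Xs (U : Set E2) (u : E2 → Fin N → ℝ) (g : Fin 2 → Fin 2 → E2 → ℂ) :
    Set (Matrix (Fin 3) (Fin N) ℂ) :=
  {C | ∀ x ∈ U, ∀ i j, (C *ᵥ cx (pd i u x)) ⬝ᵥ (C *ᵥ cx (pd j u x)) = g i j x}

theorem bounded (hFDL : Stmt_FDL) (hLOA : Stmt_LOA) (hLOB : Stmt_LOB) (U : Set E2) (hU : IsOpen U)
    (u : E2 → Fin N → ℝ) (hu : ContDiffOn ℝ 2 u U) (huc : UC u U)
    (g : Fin 2 → Fin 2 → E2 → ℂ) (hg : ∀ x ∈ U, g 0 0 x * g 1 1 x - g 0 1 x ^ 2 ≠ 0)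
    (x₀ y₀ : E2) (hx₀ : x₀ ∈ U) (hy₀ : y₀ ∈ U) :
    ∃ M : ℝ, ∀ C ∈ Xs U u g, ‖Wc u C x₀ ⬝ᵥ Wc u C y₀‖ ≤ M := by
  by_contra hcon
  push Not at hcon
  choose C hC hbig using fun n : ℕ => hcon (n : ℝ)
  let _ : NormedAddCommGroup (Matrix (Fin N) (Fin N) ℂ) := Matrix.normedAddCommGroup
  let _ : NormedSpace ℂ (Matrix (Fin N) (Fin N) ℂ) := Matrix.normedSpace
  set Q : ℕ → Matrix (Fin N) (Fin N) ℂ := fun n => (C n)ᵀ * C n with hQ
  have hWQ : ∀ n x y, Wc u (C n) x ⬝ᵥ Wc u (C n) y =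
      bf (Q n) (cx (pd 0 u x)) (cx (pd 0 u y)) * bf (Q n) (cx (pd 1 u x)) (cx (pd 1 u y)) -
      bf (Q n) (cx (pd 0 u x)) (cx (pd 1 u y)) * bf (Q n) (cx (pd 1 u x)) (cx (pd 0 u y)) :=
    fun n x y => cross_bf _ _ _ _ _
  have hent : ∀ n a b, ‖Q n a b‖ ≤ ‖Q n‖ := fun n a b => Matrix.norm_entry_le_entrywise_sup_norm _
  -- the norms tend to infinity
  obtain ⟨K1, hK1, h1⟩ := norm_bf_le (cx (pd 0 u x₀)) (cx (pd 0 u y₀))
  obtain ⟨K2, hK2, h2⟩ := norm_bf_le (cx (pd 1 u x₀)) (cx (pd 1 u y₀))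
  obtain ⟨K3, hK3, h3⟩ := norm_bf_le (cx (pd 0 u x₀)) (cx (pd 1 u y₀))
  obtain ⟨K4, hK4, h4⟩ := norm_bf_le (cx (pd 1 u x₀)) (cx (pd 0 u y₀))
  have hle : ∀ n : ℕ, (n : ℝ) ≤ (K1 * K2 + K3 * K4) * ‖Q n‖ ^ 2 := by
    intro n
    refine (hbig n).le.trans ?_
    rw [hWQ]
    refine (norm_sub_le _ _).trans ?_
    rw [norm_mul, norm_mul]
    have := norm_nonneg (Q n)
    calc _ ≤ K1 * ‖Q n‖ * (K2 * ‖Q n‖) + K3 * ‖Q n‖ * (K4 * ‖Q n‖) := by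
          gcongr
          · exact h1 _ _ (hent n)
          · exact h2 _ _ (hent n)
          · exact h3 _ _ (hent n)
          · exact h4 _ _ (hent n)
      _ = _ := by ring
  have htend : Tendsto (fun n => ‖Q n‖) atTop atTop := by
    rw [tendsto_atTop]
    intro b
    have hb : ∀ᶠ n : ℕ in atTop, (K1 * K2 + K3 * K4) * (max b 0) ^ 2 < n :=
      (tendsto_natCast_atTop_atTop (R := ℝ)).eventually_gt_atTop _
    filter_upwards [hb] with n hn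
    by_contra hlt
    push Not at hlt
    have h5 : ‖Q n‖ ≤ max b 0 := hlt.le.trans (le_max_left _ _)
    have h6 : (K1 * K2 + K3 * K4) * ‖Q n‖ ^ 2 ≤ (K1 * K2 + K3 * K4) * (max b 0) ^ 2 := by
      have := norm_nonneg (Q n)
      gcongr
    have := hle n
    linarith
  -- the limit
  have hpos : ∀ᶠ n in atTop, 0 < ‖Q n‖ := htend.eventually_gt_atTop 0
  obtain ⟨n₀, hn₀⟩ := eventually_atTop.1 hpos
  set Bn : ℕ → Matrix (Fin N) (Fin N) ℂ := fun n => ((‖Q (n + n₀)‖ : ℝ) : ℂ)⁻¹ • Q (n + n₀)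
    with hBn
  have hBn1 : ∀ n, Bn n ∈ Metric.sphere (0 : Matrix (Fin N) (Fin N) ℂ) 1 := by
    intro n
    have h5 : 0 < ‖Q (n + n₀)‖ := hn₀ _ (Nat.le_add_left _ _)
    rw [mem_sphere_zero_iff_norm, hBn, norm_smul, norm_inv, Complex.norm_real, norm_norm,
      inv_mul_cancel₀ h5.ne']
  obtain ⟨B, hB1, ψ, hψ, hlim⟩ := (isCompact_sphere (0 : Matrix (Fin N) (Fin N) ℂ) 1).tendsto_subseq hBn1
  have hB0 : B ≠ 0 := by
    rintro rfl
    rw [mem_sphere_zero_iff_norm, norm_zero] at hB1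
    exact zero_ne_one hB1
  set s : ℕ → ℝ := fun n => ‖Q (ψ n + n₀)‖ with hs
  have hψt : Tendsto (fun n => ψ n + n₀) atTop atTop :=
    tendsto_atTop_mono (fun n => Nat.le_add_right _ _) hψ.tendsto_atTop
  have hst : Tendsto s atTop atTop := htend.comp hψt
  have hlim' : Tendsto (fun n => ((s n : ℂ))⁻¹ • Q (ψ n + n₀)) atTop (𝓝 B) := hlim
  have hbflim : ∀ x y : Fin N → ℂ, Tendsto (fun n => ((s n : ℂ))⁻¹ * bf (Q (ψ n + n₀)) x y) atTop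
      (𝓝 (bf B x y)) := by
    intro x y
    have h5 := ((continuous_bf x y).tendsto B).comp hlim'
    refine h5.congr fun n => ?_
    change bf (((s n : ℂ))⁻¹ • Q (ψ n + n₀)) x y = _
    rw [bf_smul]
  have hinv : Tendsto (fun n => ((s n : ℂ))⁻¹) atTop (𝓝 0) := by
    have h5 : Tendsto (fun n => ((s n)⁻¹ : ℝ)) atTop (𝓝 0) := hst.inv_tendsto_atTop
    have h6 := (Complex.continuous_ofReal.tendsto 0).comp h5
    rw [Complex.ofReal_zero] at h6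
    refine h6.congr fun n => ?_
    change (((s n)⁻¹ : ℝ) : ℂ) = _
    rw [Complex.ofReal_inv]
  have hsymm : B.IsSymm := by
    have h5 : ∀ n, (((s n : ℂ))⁻¹ • Q (ψ n + n₀))ᵀ = ((s n : ℂ))⁻¹ • Q (ψ n + n₀) := by
      intro n
      rw [Matrix.transpose_smul, hQ, Matrix.transpose_mul, Matrix.transpose_transpose]
    have h6 : Tendsto (fun n => (((s n : ℂ))⁻¹ • Q (ψ n + n₀))ᵀ) atTop (𝓝 Bᵀ) :=
      ((continuous_id.matrix_transpose).tendsto B).comp hlim'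
    simp only [h5] at h6
    exact tendsto_nhds_unique h6 hlim'
  have hiso : ∀ x ∈ U, ∀ i j, bf B (cx (pd i u x)) (cx (pd j u x)) = 0 := by
    intro x hx i j
    have h5 : ∀ n, ((s n : ℂ))⁻¹ * bf (Q (ψ n + n₀)) (cx (pd i u x)) (cx (pd j u x)) =
        ((s n : ℂ))⁻¹ * g i j x := by
      intro n
      rw [hQ, bf_mul, hC (ψ n + n₀) x hx i j]
    have h6 := hbflim (cx (pd i u x)) (cx (pd j u x))
    simp only [h5] at h6
    have h7 := hinv.mul_const (g i j x)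
    rw [zero_mul] at h7
    exact tendsto_nhds_unique h6 h7
  have hgram : ∀ y : Fin 4 → Fin N → ℂ, (Matrix.of fun a b => bf B (y a) (y b)).det = 0 := by
    intro y
    have h5 : Continuous fun B : Matrix (Fin N) (Fin N) ℂ =>
        (Matrix.of fun a b => bf B (y a) (y b)).det := by
      refine Continuous.matrix_det ?_
      refine continuous_matrix fun a b => ?_
      exact continuous_bf _ _
    have h6 := (h5.tendsto B).comp hlim'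
    have h7 : ∀ n, (Matrix.of fun a b => bf (((s n : ℂ))⁻¹ • Q (ψ n + n₀)) (y a) (y b)).det = 0 := by
      intro n
      have h8 : (Matrix.of fun a b => bf (((s n : ℂ))⁻¹ • Q (ψ n + n₀)) (y a) (y b)) =
          ((s n : ℂ))⁻¹ • (Matrix.of fun a b => bf (Q (ψ n + n₀)) (y a) (y b)) := by
        ext a b
        rw [Matrix.smul_apply, Matrix.of_apply, Matrix.of_apply, bf_smul, smul_eq_mul]
      rw [h8, Matrix.det_smul, hQ, gram_zero, mul_zero]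
    have h9 : (fun n => (Matrix.of fun a b => bf (((s n : ℂ))⁻¹ • Q (ψ n + n₀)) (y a) (y b)).det) =
        fun _ => 0 := funext h7
    have h10 : Tendsto (fun n => (Matrix.of fun a b => bf (((s n : ℂ))⁻¹ • Q (ψ n + n₀))
        (y a) (y b)).det) atTop (𝓝 (Matrix.of fun a b => bf B (y a) (y b)).det) := h6
    rw [h9] at h10
    exact (tendsto_nhds_unique h10 tendsto_const_nhds)
  -- the dense set
  have hdense : ∀ O : Set E2, IsOpen O → O.Nonempty → O ⊆ U → ∃ x ∈ O, ∃ i j k l,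
      bf B (cx (pd i (pd j u) x)) (cx (pd k (pd l u) x)) ≠ 0 :=
    hLOA U hU N u hu huc B hsymm hB0 hgram hiso
  set G : Set ↥U := {x | ∃ i j k l,
    bf B (cx (pd i (pd j u) (x : E2))) (cx (pd k (pd l u) (x : E2))) ≠ 0} with hG
  have hGd : Dense G := by
    rw [dense_iff_inter_open]
    intro V hV hVn
    obtain ⟨W, hW, rfl⟩ := isOpen_induced_iff.1 hV
    obtain ⟨x, hx⟩ := hVn
    obtain ⟨z, hz, i, j, k, l, hne⟩ := hdense (W ∩ U) (hW.inter hU) ⟨x, hx, x.2⟩ inter_subset_right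
    exact ⟨⟨z, hz.2⟩, hz.1, i, j, k, l, hne⟩
  -- the finite dimensional space
  set w : (Fin N × Fin N) × (Fin N × Fin N) → (↥U × ↥U) → ℂ := fun q z =>
    (pd 0 u (z.1 : E2) q.1.1 : ℂ) * (pd 1 u (z.1 : E2) q.1.2 : ℂ) *
      ((pd 0 u (z.2 : E2) q.2.1 : ℂ) * (pd 1 u (z.2 : E2) q.2.2 : ℂ) -
        (pd 1 u (z.2 : E2) q.2.1 : ℂ) * (pd 0 u (z.2 : E2) q.2.2 : ℂ)) with hw
  set k : ℕ → (Fin N × Fin N) × (Fin N × Fin N) → ℂ := fun n q =>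
    Q (ψ n + n₀) q.1.1 q.2.1 * Q (ψ n + n₀) q.1.2 q.2.2 with hk
  have hsum : ∀ n (z : ↥U × ↥U), ∑ q, k n q * w q z =
      Wc u (C (ψ n + n₀)) (z.1 : E2) ⬝ᵥ Wc u (C (ψ n + n₀)) (z.2 : E2) := by
    intro n z
    rw [hWQ, bf_mul_bf, bf_mul_bf, Fintype.sum_prod_type, Fintype.sum_prod_type]
    simp only [Fintype.sum_prod_type, ← Finset.sum_sub_distrib]
    refine Finset.sum_congr rfl fun a _ => Finset.sum_congr rfl fun b _ =>
      Finset.sum_congr rfl fun c _ => Finset.sum_congr rfl fun d _ => ?_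
    simp only [hk, hw, cx]
    ring
  have hwc : ∀ q, Continuous (w q) := by
    intro q
    have h5 : ∀ i a, Continuous fun x : ↥U => (pd i u (x : E2) a : ℂ) := by
      intro i a
      have h6 : ContinuousOn (pd i u) U := (pd_contDiffOn hU hu (m := 1) (by norm_num) i).continuousOn
      have h7 : Continuous fun x : ↥U => pd i u (x : E2) := h6.domRestrict
      exact Complex.continuous_ofReal.comp ((continuous_apply a).comp h7)
    have h8 := fun i a => (h5 i a).comp (continuous_fst (X := ↥U) (Y := ↥U))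
    have h9 := fun i a => (h5 i a).comp (continuous_snd (X := ↥U) (Y := ↥U))
    exact ((h8 0 _).mul (h8 1 _)).mul (((h9 0 _).mul (h9 1 _)).sub ((h9 1 _).mul (h9 0 _)))
  obtain ⟨M, hM⟩ := hFDL (↥U × ↥U) _ w hwc (G ×ˢ G) (hGd.prod hGd) k (by
    rintro ⟨x, y⟩ ⟨hx, hy⟩
    obtain ⟨M, hM⟩ := hLOB U hU N u hu g (fun n => C (ψ n + n₀)) (fun n => hC (ψ n + n₀)) hg s B hst
      hlim' x x.2 y y.2 hx hy
    exact ⟨M, fun n => by rw [hsum]; exact hM n⟩) (⟨x₀, hx₀⟩, ⟨y₀, hy₀⟩)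
  obtain ⟨n, hn⟩ := exists_nat_gt M
  have h11 := hM n
  rw [hsum] at h11
  have h12 := hbig (ψ n + n₀)
  have h13 : (n : ℝ) ≤ ((ψ n + n₀ : ℕ) : ℝ) := by
    exact_mod_cast (hψ.id_le n).trans (Nat.le_add_right _ _)
  have h14 : ‖Wc u (C (ψ n + n₀)) x₀ ⬝ᵥ Wc u (C (ψ n + n₀)) y₀‖ ≤ M := h11
  linarith

/-- the polynomial matrix -/
noncomputable def Xm (N : ℕ) : Matrix (Fin 3) (Fin N) (MvPolynomial (Fin 3 × Fin N) ℂ) :=
  Matrix.of fun a b => MvPolynomial.X (a, b)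

/-- constant vectors -/
noncomputable def cv (x : Fin N → ℂ) : Fin N → MvPolynomial (Fin 3 × Fin N) ℂ :=
  fun a => MvPolynomial.C (x a)

theorem eval_mulVec (z : Fin 3 × Fin N → ℂ) (x : Fin N → ℂ) (a : Fin 3) :
    MvPolynomial.eval z ((Xm N *ᵥ cv x) a) = ((Matrix.of fun a b => z (a, b)) *ᵥ x) a := by
  simp only [Matrix.mulVec, dotProduct, map_sum, map_mul, Xm, cv, Matrix.of_apply,
    MvPolynomial.eval_X, MvPolynomial.eval_C]

theorem eval_dot (z : Fin 3 × Fin N → ℂ) (x y : Fin N → ℂ) :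
    MvPolynomial.eval z ((Xm N *ᵥ cv x) ⬝ᵥ (Xm N *ᵥ cv y)) =
      ((Matrix.of fun a b => z (a, b)) *ᵥ x) ⬝ᵥ ((Matrix.of fun a b => z (a, b)) *ᵥ y) := by
  simp only [dotProduct, map_sum, map_mul]
  refine Finset.sum_congr rfl fun a _ => ?_
  have := eval_mulVec z x a
  have := eval_mulVec z y a
  simp_all

end LocBlock

open LocBlock

theorem blk_LOC (hALGU : Stmt_ALGU) (hFDL : Stmt_FDL) (hLOA : Stmt_LOA) (hLOB : Stmt_LOB) :
    Stmt_LOC := by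
  intro U hU N u hu huc C hC hiso himm t ht x hx y hy
  -- the complex metric
  set g : Fin 2 → Fin 2 → E2 → ℂ := fun i j z =>
    (((C 0 *ᵥ pd i u z) ⬝ᵥ (C 0 *ᵥ pd j u z) : ℝ) : ℂ) with hg
  have hgne : ∀ z ∈ U, g 0 0 z * g 1 1 z - g 0 1 z ^ 2 ≠ 0 := by
    intro z hz h0
    have h1 : ((C 0 *ᵥ pd 0 u z) ⨯₃ (C 0 *ᵥ pd 1 u z)) ⬝ᵥ
        ((C 0 *ᵥ pd 0 u z) ⨯₃ (C 0 *ᵥ pd 1 u z)) = 0 := by
      rw [cross_dot_cross]
      have h2 : (((C 0 *ᵥ pd 0 u z) ⬝ᵥ (C 0 *ᵥ pd 0 u z) * ((C 0 *ᵥ pd 1 u z) ⬝ᵥ (C 0 *ᵥ pd 1 u z)) -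
          (C 0 *ᵥ pd 0 u z) ⬝ᵥ (C 0 *ᵥ pd 1 u z) * ((C 0 *ᵥ pd 1 u z) ⬝ᵥ (C 0 *ᵥ pd 0 u z)) : ℝ) : ℂ)
          = 0 := by
        rw [← h0, hg, dotProduct_comm (C 0 *ᵥ pd 1 u z) (C 0 *ᵥ pd 0 u z)]
        push_cast
        ring
      exact_mod_cast h2
    exact himm z hz (dotProduct_self_eq_zero.1 h1)
  obtain ⟨M, hM⟩ := LocBlock.bounded hFDL hLOA hLOB U hU u hu huc g hgne x y hx hy
  -- the polynomials
  set P : (Fin N → ℂ) → (Fin N → ℂ) → MvPolynomial (Fin 3 × Fin N) ℂ := fun a b =>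
    (Xm N *ᵥ cv a) ⬝ᵥ (Xm N *ᵥ cv b) with hP
  have hPe : ∀ (z : Fin 3 × Fin N → ℂ) (a b : Fin N → ℂ), MvPolynomial.eval z (P a b) =
      ((Matrix.of fun a b => z (a, b)) *ᵥ a) ⬝ᵥ ((Matrix.of fun a b => z (a, b)) *ᵥ b) :=
    fun z a b => eval_dot z a b
  set eqs : Set (MvPolynomial (Fin 3 × Fin N) ℂ) := {p | ∃ z ∈ U, ∃ i j,
    p = P (cx (pd i u z)) (cx (pd j u z)) - MvPolynomial.C (g i j z)} with heqs
  set φ : MvPolynomial (Fin 3 × Fin N) ℂ :=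
    P (cx (pd 0 u x)) (cx (pd 0 u y)) * P (cx (pd 1 u x)) (cx (pd 1 u y)) -
      P (cx (pd 0 u x)) (cx (pd 1 u y)) * P (cx (pd 1 u x)) (cx (pd 0 u y)) with hφ
  have hφe : ∀ z : Fin 3 × Fin N → ℂ, MvPolynomial.eval z φ =
      Wc u (Matrix.of fun a b => z (a, b)) x ⬝ᵥ Wc u (Matrix.of fun a b => z (a, b)) y := by
    intro z
    rw [Wc, Wc, cross_dot_cross, hφ, map_sub, map_mul, map_mul, hPe, hPe, hPe, hPe]
  have hmem : ∀ z : Fin 3 × Fin N → ℂ, (∀ p ∈ eqs, MvPolynomial.eval z p = 0) →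
      (Matrix.of fun a b => z (a, b)) ∈ Xs U u g := by
    intro z hz w hw i j
    have h1 := hz _ ⟨w, hw, i, j, rfl⟩
    rw [map_sub, MvPolynomial.eval_C, hPe, sub_eq_zero] at h1
    exact h1
  have hfin := hALGU (Fin 3 × Fin N) eqs φ M (fun z hz => by
    rw [hφe]
    exact hM _ (hmem z hz))
  -- the path
  set h : ℝ → ℝ := fun τ => ((C τ *ᵥ pd 0 u x) ⨯₃ (C τ *ᵥ pd 1 u x)) ⬝ᵥ
    ((C τ *ᵥ pd 0 u y) ⨯₃ (C τ *ᵥ pd 1 u y)) with hh
  have hcast : ∀ (τ : ℝ) (v w : Fin N → ℝ),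
      ((Matrix.of fun a b => ((C τ a b : ℝ) : ℂ)) *ᵥ cx v) ⬝ᵥ
        ((Matrix.of fun a b => ((C τ a b : ℝ) : ℂ)) *ᵥ cx w) =
      (((C τ *ᵥ v) ⬝ᵥ (C τ *ᵥ w) : ℝ) : ℂ) := by
    intro τ v w
    simp only [Matrix.mulVec, dotProduct, cx, Matrix.of_apply, Complex.ofReal_sum,
      Complex.ofReal_mul]
  have hval : ∀ τ ∈ Icc (0 : ℝ) 1, ((h τ : ℝ) : ℂ) ∈ {w : ℂ | ∃ z : Fin 3 × Fin N → ℂ,
      (∀ p ∈ eqs, MvPolynomial.eval z p = 0) ∧ MvPolynomial.eval z φ = w} := by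
    intro τ hτ
    refine ⟨fun q => ((C τ q.1 q.2 : ℝ) : ℂ), ?_, ?_⟩
    · rintro p ⟨w, hw, i, j, rfl⟩
      rw [map_sub, MvPolynomial.eval_C, hPe, sub_eq_zero]
      change ((Matrix.of fun a b => ((C τ a b : ℝ) : ℂ)) *ᵥ cx _) ⬝ᵥ
        ((Matrix.of fun a b => ((C τ a b : ℝ) : ℂ)) *ᵥ cx _) = _
      rw [hcast, hiso τ hτ w hw i j]
    · rw [hφ, map_sub, map_mul, map_mul, hPe, hPe, hPe, hPe]
      change ((Matrix.of fun a b => ((C τ a b : ℝ) : ℂ)) *ᵥ cx _) ⬝ᵥ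
        ((Matrix.of fun a b => ((C τ a b : ℝ) : ℂ)) *ᵥ cx _) *
        (((Matrix.of fun a b => ((C τ a b : ℝ) : ℂ)) *ᵥ cx _) ⬝ᵥ
        ((Matrix.of fun a b => ((C τ a b : ℝ) : ℂ)) *ᵥ cx _)) -
        ((Matrix.of fun a b => ((C τ a b : ℝ) : ℂ)) *ᵥ cx _) ⬝ᵥ
        ((Matrix.of fun a b => ((C τ a b : ℝ) : ℂ)) *ᵥ cx _) *
        (((Matrix.of fun a b => ((C τ a b : ℝ) : ℂ)) *ᵥ cx _) ⬝ᵥ
        ((Matrix.of fun a b => ((C τ a b : ℝ) : ℂ)) *ᵥ cx _)) = _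
      rw [hcast, hcast, hcast, hcast, hh]
      simp only
      rw [cross_dot_cross]
      push_cast
      ring
  have hcont : ContinuousOn h (Icc 0 1) := by
    have h1 : ∀ v : Fin N → ℝ, ContinuousOn (fun τ => C τ *ᵥ v) (Icc 0 1) := by
      intro v
      have h2 : Continuous fun B : Matrix (Fin 3) (Fin N) ℝ => B *ᵥ v := by fun_prop
      exact h2.comp_continuousOn hC
    have h3 : ∀ v w : Fin N → ℝ, ContinuousOn (fun τ => (C τ *ᵥ v) ⬝ᵥ (C τ *ᵥ w)) (Icc 0 1) := by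
      intro v w
      have h2 : Continuous fun p : (Fin 3 → ℝ) × (Fin 3 → ℝ) => p.1 ⬝ᵥ p.2 := by fun_prop
      exact h2.comp_continuousOn ((h1 v).prodMk (h1 w))
    have h4 : h = fun τ => (C τ *ᵥ pd 0 u x) ⬝ᵥ (C τ *ᵥ pd 0 u y) *
        ((C τ *ᵥ pd 1 u x) ⬝ᵥ (C τ *ᵥ pd 1 u y)) -
        (C τ *ᵥ pd 0 u x) ⬝ᵥ (C τ *ᵥ pd 1 u y) * ((C τ *ᵥ pd 1 u x) ⬝ᵥ (C τ *ᵥ pd 0 u y)) := by
      funext τ
      rw [hh]
      exact cross_dot_cross _ _ _ _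
    rw [h4]
    exact ((h3 _ _).mul (h3 _ _)).sub ((h3 _ _).mul (h3 _ _))
  have hfin2 : (h '' Icc 0 1).Finite := by
    have h1 : Set.Finite ((fun r : ℝ => (r : ℂ)) '' (h '' Icc 0 1)) := by
      refine hfin.subset ?_
      rintro _ ⟨_, ⟨τ, hτ, rfl⟩, rfl⟩
      exact hval τ hτ
    exact Set.Finite.of_finite_image h1 (Complex.ofReal_injective.injOn)
  have hsub : (h '' Icc 0 1).Subsingleton :=
    hfin2.countable.isTotallyDisconnected _ subset_rfl ((isPreconnected_Icc).image h hcont)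
  exact hsub ⟨t, ht, rfl⟩ ⟨0, by norm_num, rfl⟩

end Pool.FR
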