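import Pool.Agent.Work.MP_02e829_fr.Interface

/-!
# Block MAN: the manifold part
-/

open Set Matrix Filter Manifold
open scoped Topology ContDiff Manifold

set_option autoImplicit false
set_option linter.unusedSectionVars false

universe w

namespace Pool.FR

abbrev E3 := EuclideanSpace ℝ (Fin 3)

/-- The first fundamental form of `f : S → E3`. -/
noncomputable def firstForm {S : Type w} [TopologicalSpace S] [ChartedSpace E2 S] (f : S → E3)
    (p : S) (v w : TangentSpace (𝓡 2) p) : ℝ :=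
  @inner ℝ E3 _ (mfderiv (𝓡 2) (𝓡 3) f p v) (mfderiv (𝓡 2) (𝓡 3) f p w)

/-- The hypotheses: a family of isometric immersions of finite rank. -/
structure FiniteRank (S : Type w) [TopologicalSpace S] [ChartedSpace E2 S] (f : ℝ → S → E3) :
    Prop where
  smooth : ∀ t ∈ Icc (0 : ℝ) 1, ContMDiff (𝓡 2) (𝓡 3) 4 (f t)
  imm : ∀ t ∈ Icc (0 : ℝ) 1, ∀ p, Function.Injective (mfderiv (𝓡 2) (𝓡 3) (f t) p)
  iso : ∀ t ∈ Icc (0 : ℝ) 1, ∀ (p : S) (v w : TangentSpace (𝓡 2) p),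
    firstForm (f t) p v w = firstForm (f 0) p v w
  cont : ∀ p, ContinuousOn (fun t => f t p) (Icc 0 1)
  rank : ∃ V : Submodule ℝ (S → ℝ), FiniteDimensional ℝ V ∧
    ∀ t ∈ Icc (0 : ℝ) 1, ∀ a : Fin 3, (fun p => f t p a) ∈ V

namespace Man

/-- coordinates -/
noncomputable def L3 : E3 →L[ℝ] V3 := (EuclideanSpace.equiv (Fin 3) ℝ : E3 →L[ℝ] V3)

theorem L3_apply (v : E3) (a : Fin 3) : L3 v a = v a := rfl

theorem inner_eq (v w : E3) : inner ℝ v w = L3 v ⬝ᵥ L3 w := by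
  rw [PiLp.inner_apply, dotProduct]
  refine Finset.sum_congr rfl fun a _ => ?_
  rw [L3_apply, L3_apply]
  simp [mul_comm]

variable {S : Type w} [TopologicalSpace S] [ChartedSpace E2 S] [IsManifold (𝓡 2) 4 S]

/-- coordinates on the space of functions -/
theorem exists_coord (f : ℝ → S → E3) (hf : FiniteRank S f) : ∃ (M : ℕ) (v : S → Fin M → ℝ)
    (c : ℝ → Matrix (Fin 3) (Fin M) ℝ), (∀ j, ContMDiff (𝓡 2) 𝓘(ℝ) 4 (fun p => v p j)) ∧
    ContinuousOn c (Icc 0 1) ∧ ∀ t ∈ Icc (0 : ℝ) 1, ∀ p, L3 (f t p) = c t *ᵥ v p := by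
  obtain ⟨V, hV, hfV⟩ := hf.rank
  let V1 : Submodule ℝ (S → ℝ) :=
    { carrier := {h | h ∈ V ∧ ContMDiff (𝓡 2) 𝓘(ℝ) 4 h}
      add_mem' := fun ha hb => ⟨V.add_mem ha.1 hb.1, ha.2.add hb.2⟩
      zero_mem' := ⟨V.zero_mem, contMDiff_const⟩
      smul_mem' := fun r a ha => ⟨V.smul_mem r ha.1,
        (contMDiff_iff_contDiff.2 ((contDiff_const (c := r)).mul (contDiff_id (E := ℝ)))).comp ha.2⟩ }
  have hle : V1 ≤ V := fun h hh => hh.1
  have : FiniteDimensional ℝ V1 := Submodule.finiteDimensional_of_le hle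
  have hmem : ∀ t ∈ Icc (0 : ℝ) 1, ∀ a : Fin 3, (fun p => f t p a) ∈ V1 := by
    intro t ht a
    refine ⟨hfV t ht a, ?_⟩
    have h1 : ContMDiff (𝓡 3) 𝓘(ℝ) 4 (fun x : E3 => x a) := by
      rw [contMDiff_iff_contDiff]
      exact (EuclideanSpace.proj a : E3 →L[ℝ] ℝ).contDiff
    exact h1.comp (hf.smooth t ht)
  set b := Module.finBasis ℝ V1 with hb
  classical
  refine ⟨Module.finrank ℝ V1, fun p j => (b j : S → ℝ) p, fun t => Matrix.of fun a j =>
    if ht : (fun p => f t p a) ∈ V1 then b.repr ⟨_, ht⟩ j else 0, fun j => (b j).2.2, ?_, ?_⟩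
  · rw [continuousOn_iff_continuous_domRestrict]
    refine continuous_matrix fun a j => ?_
    have h1 : Continuous fun t : Icc (0 : ℝ) 1 => (⟨fun p => f t p a, hmem t t.2 a⟩ : V1) := by
      refine Continuous.subtype_mk ?_ _
      refine continuous_pi fun p => ?_
      have h2 : Continuous fun t : Icc (0 : ℝ) 1 => f t p :=
        continuousOn_iff_continuous_domRestrict.1 (hf.cont p)
      exact (EuclideanSpace.proj a : E3 →L[ℝ] ℝ).continuous.comp h2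
    have h3 : Continuous (b.coord j) := LinearMap.continuous_of_finiteDimensional _
    have h4 := h3.comp h1
    refine h4.congr fun t => ?_
    change b.coord j _ = dite _ _ _
    rw [dif_pos (hmem t t.2 a)]
    rfl
  · intro t ht p
    ext a
    have h1 := b.sum_repr ⟨_, hmem t ht a⟩
    have h2 := congrArg (fun h : V1 => (h : S → ℝ) p) h1
    simp only [Submodule.coe_sum, Submodule.coe_smul, Finset.sum_apply, Pi.smul_apply,
      smul_eq_mul] at h2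
    rw [L3_apply, ← h2, Matrix.mulVec, dotProduct]
    refine Finset.sum_congr rfl fun j _ => ?_
    change _ = (dite _ _ _) * _
    rw [dif_pos (hmem t ht a)]

/-- the derivative in a chart -/
theorem fderiv_chart (f : S → E3) (hf : ContMDiff (𝓡 2) (𝓡 3) 4 f) (p : S) {x : E2}
    (hx : x ∈ (extChartAt (𝓡 2) p).target) (w : E2) :
    fderiv ℝ (fun y => f ((extChartAt (𝓡 2) p).symm y)) x w =
      mfderiv (𝓡 2) (𝓡 3) f ((extChartAt (𝓡 2) p).symm x)
        (mfderiv 𝓘(ℝ, E2) (𝓡 2) (extChartAt (𝓡 2) p).symm x w) := by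
  have h1 : MDifferentiableAt 𝓘(ℝ, E2) (𝓡 2) (extChartAt (𝓡 2) p).symm x := by
    have h2 := (contMDiffOn_extChartAt_symm (I := 𝓡 2) (n := 4) p)
    have h3 : ContMDiffAt 𝓘(ℝ, E2) (𝓡 2) 4 (extChartAt (𝓡 2) p).symm x :=
      (h2 x hx).contMDiffAt ((isOpen_extChartAt_target p).mem_nhds hx)
    exact h3.mdifferentiableAt (by norm_num)
  have h4 : MDifferentiableAt (𝓡 2) (𝓡 3) f ((extChartAt (𝓡 2) p).symm x) :=
    (hf _).mdifferentiableAt (by norm_num)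
  have h5 := mfderiv_comp x h4 h1
  have h6 : mfderiv 𝓘(ℝ, E2) (𝓡 3) (f ∘ (extChartAt (𝓡 2) p).symm) x =
      fderiv ℝ (fun y => f ((extChartAt (𝓡 2) p).symm y)) x := mfderiv_eq_fderiv
  rw [← h6, h5]
  rfl

/-- the differential of the chart is injective -/
theorem chart_injective (p : S) {x : E2} (hx : x ∈ (extChartAt (𝓡 2) p).target) :
    Function.Injective (mfderiv 𝓘(ℝ, E2) (𝓡 2) (extChartAt (𝓡 2) p).symm x) := by
  have : IsManifold (𝓡 2) 1 S := IsManifold.of_le (n := 4) (by norm_num)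
  have h1 := isInvertible_mfderivWithin_extChartAt_symm (I := 𝓡 2) hx
  have h2 : range (𝓡 2) = univ := (𝓡 2).range_eq_univ
  rw [h2, mfderivWithin_univ] at h1
  exact h1.injective

theorem smooth_chart {n : ℕ} (v : S → Fin n → ℝ)
    (hv : ∀ j, ContMDiff (𝓡 2) 𝓘(ℝ) 4 (fun p => v p j)) (p : S) :
    ContDiffOn ℝ 4 (fun y => v ((extChartAt (𝓡 2) p).symm y)) (extChartAt (𝓡 2) p).target := by
  rw [contDiffOn_pi]
  intro j
  have h1 := (hv j).comp_contMDiffOn (contMDiffOn_extChartAt_symm (I := 𝓡 2) (n := 4) p)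
  exact contMDiffOn_iff_contDiffOn.1 h1

theorem dot_self_nonneg (a : V3) : 0 ≤ a ⬝ᵥ a := Finset.sum_nonneg fun _ _ => mul_self_nonneg _

theorem dot_self_pos {a b : V3} (h : ∀ r s : ℝ, r • a + s • b = 0 → r = 0 ∧ s = 0) :
    0 < a ⬝ᵥ a * (b ⬝ᵥ b) - (a ⬝ᵥ b) ^ 2 := by
  have ha : 0 < a ⬝ᵥ a := by
    rcases (dot_self_nonneg a).eq_or_lt with h0 | h0
    · have := dotProduct_self_eq_zero.1 h0.symm
      have h1 := h 1 0 (by rw [this]; simp)
      exact absurd h1.1 one_ne_zero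
    · exact h0
  set w : V3 := (a ⬝ᵥ b) • a - (a ⬝ᵥ a) • b with hw
  have hw0 : w ≠ 0 := by
    intro h0
    have h1 := h (a ⬝ᵥ b) (-(a ⬝ᵥ a)) (by rw [neg_smul, ← sub_eq_add_neg]; exact h0)
    have h2 := h1.2
    linarith
  have h3 : 0 < w ⬝ᵥ w := by
    rcases (dot_self_nonneg w).eq_or_lt with h0 | h0
    · exact absurd (dotProduct_self_eq_zero.1 h0.symm) hw0
    · exact h0
  have h4 : w ⬝ᵥ w = (a ⬝ᵥ a) * (a ⬝ᵥ a * (b ⬝ᵥ b) - (a ⬝ᵥ b) ^ 2) := by
    rw [hw]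
    simp only [sub_dotProduct, dotProduct_sub, smul_dotProduct, dotProduct_smul, smul_eq_mul,
      dotProduct_comm b a]
    ring
  rw [h4] at h3
  exact (mul_pos_iff_of_pos_left ha).1 h3

theorem inj_lemma (T' : E2 →L[ℝ] E2) (T : E2 →L[ℝ] E3) (hT' : Function.Injective T')
    (hT : Function.Injective T) (r s : ℝ)
    (h : r • L3 (T (T' (ee 0))) + s • L3 (T (T' (ee 1))) = 0) : r = 0 ∧ s = 0 := by
  have h1 : Function.Injective L3 := (EuclideanSpace.equiv (Fin 3) ℝ).injective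
  have h3 : L3 (T (T' (r • ee 0 + s • ee 1))) =
      r • L3 (T (T' (ee 0))) + s • L3 (T (T' (ee 1))) := by
    simp only [map_add, map_smul]
  have h2 : L3 (T (T' (r • ee 0 + s • ee 1))) = L3 (T (T' 0)) := by
    rw [h3, h, map_zero, map_zero, map_zero]
  have h5 : r • ee 0 + s • ee 1 = 0 := hT' (hT (h1 h2))
  have h6 := congrArg (fun z : E2 => z 0) h5
  have h7 := congrArg (fun z : E2 => z 1) h5
  simp [ee] at h6 h7
  exact ⟨h6, h7⟩

/-- the family in a chart -/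
theorem fam_chart (f : ℝ → S → E3) (hf : FiniteRank S f) {M : ℕ} {v : S → Fin M → ℝ}
    {c : ℝ → Matrix (Fin 3) (Fin M) ℝ} (hv : ∀ j, ContMDiff (𝓡 2) 𝓘(ℝ) 4 (fun p => v p j))
    (hc : ContinuousOn c (Icc 0 1)) (hfc : ∀ t ∈ Icc (0 : ℝ) 1, ∀ p, L3 (f t p) = c t *ᵥ v p)
    (p : S) {U : Set E2} (hU : IsOpen U) (hUt : U ⊆ (extChartAt (𝓡 2) p).target) :
    Fam U M (fun y => v ((extChartAt (𝓡 2) p).symm y)) c := by
  have hF : ∀ t ∈ Icc (0 : ℝ) 1, (fun y => c t *ᵥ v ((extChartAt (𝓡 2) p).symm y)) =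
      fun y => L3 (f t ((extChartAt (𝓡 2) p).symm y)) := by
    intro t ht
    funext y
    rw [hfc t ht]
  have hdiff : ∀ t ∈ Icc (0 : ℝ) 1, ∀ x ∈ U,
      DifferentiableAt ℝ (fun y => f t ((extChartAt (𝓡 2) p).symm y)) x := by
    intro t ht x hx
    have h1 := (hf.smooth t ht).comp_contMDiffOn
      (contMDiffOn_extChartAt_symm (I := 𝓡 2) (n := 4) p)
    have h2 : ContDiffOn ℝ 4 (fun y => f t ((extChartAt (𝓡 2) p).symm y))
      (extChartAt (𝓡 2) p).target := contMDiffOn_iff_contDiffOn.1 h1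
    exact diff_at (isOpen_extChartAt_target p) h2 (by norm_num) (hUt hx)
  have hpd : ∀ t ∈ Icc (0 : ℝ) 1, ∀ x ∈ U, ∀ i,
      pd i (fun y => c t *ᵥ v ((extChartAt (𝓡 2) p).symm y)) x =
        L3 (mfderiv (𝓡 2) (𝓡 3) (f t) ((extChartAt (𝓡 2) p).symm x)
          (mfderiv 𝓘(ℝ, E2) (𝓡 2) (extChartAt (𝓡 2) p).symm x (ee i))) := by
    intro t ht x hx i
    rw [hF t ht, pd_clm i L3 (hdiff t ht x hx), pd, fderiv_chart (f t) (hf.smooth t ht) p (hUt hx)]
  refine ⟨hU, (smooth_chart v hv p).mono hUt, hc, ?_, ?_⟩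
  · intro t ht x hx i j
    rw [gg, gg, hpd t ht x hx, hpd t ht x hx, hpd 0 (by norm_num) x hx, hpd 0 (by norm_num) x hx,
      ← inner_eq, ← inner_eq]
    exact hf.iso t ht _ _ _
  · intro x hx
    rw [DD, gg, gg, gg, hpd 0 (by norm_num) x hx, hpd 0 (by norm_num) x hx]
    refine dot_self_pos fun r s hrs => ?_
    exact inj_lemma (mfderiv 𝓘(ℝ, E2) (𝓡 2) (extChartAt (𝓡 2) p).symm x)
      (mfderiv (𝓡 2) (𝓡 3) (f 0) ((extChartAt (𝓡 2) p).symm x)) (chart_injective p (hUt hx))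
      (hf.imm 0 (by norm_num) _) r s hrs

/-- chart balls -/
theorem exists_ball (p : S) : ∃ U : Set E2, IsOpen U ∧ IsPreconnected U ∧
    U ⊆ (extChartAt (𝓡 2) p).target ∧ extChartAt (𝓡 2) p p ∈ U := by
  have h1 : (extChartAt (𝓡 2) p).target ∈ 𝓝 (extChartAt (𝓡 2) p p) :=
    extChartAt_target_mem_nhds p
  obtain ⟨r, hr, hb⟩ := Metric.mem_nhds_iff.1 h1
  exact ⟨Metric.ball _ r, Metric.isOpen_ball, (convex_ball _ _).isPreconnected, hb,
    Metric.mem_ball_self hr⟩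

theorem imm_of_fam {U : Set E2} {M : ℕ} {v : E2 → Fin M → ℝ} {c : ℝ → Matrix (Fin 3) (Fin M) ℝ}
    (h : Fam U M v c) : Imm (fun y => c 0 *ᵥ v y) U := by
  refine ⟨?_, h.pos⟩
  rw [contDiffOn_pi]
  intro a
  have h1 : ContDiffOn ℝ 4 (fun y => (fun _ : E2 => (c 0 a : Fin M → ℝ)) y ⬝ᵥ v y) U :=
    contDiffOn_dot contDiffOn_const h.smooth
  exact h1

/-- the theorem in coordinates -/
theorem main (hFAR : Stmt_FAR) (hMOT : Stmt_MOT) (hCHT : Stmt_CHT) [CompactSpace S]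
    [ConnectedSpace S] (f : ℝ → S → E3) (hf : FiniteRank S f) (t : ℝ) (ht : t ∈ Icc (0 : ℝ) 1) :
    ∃ R, SO3 R ∧ ∃ b : V3, ∀ p, L3 (f t p) = R *ᵥ L3 (f 0 p) + b := by
  obtain ⟨M, v, c, hv, hc, hfc⟩ := exists_coord f hf
  have h0 : (0 : ℝ) ∈ Icc (0 : ℝ) 1 := by norm_num
  have hfam : ∀ (p : S) {U : Set E2}, IsOpen U → U ⊆ (extChartAt (𝓡 2) p).target →
      Fam U M (fun y => v ((extChartAt (𝓡 2) p).symm y)) c :=
    fun p _ hU hUt => fam_chart f hf hv hc hfc p hU hUt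
  set G : Matrix (Fin 3) (Fin 3) ℝ → V3 → Set S := fun R b =>
    {q | ∀ᶠ z in 𝓝 q, L3 (f t z) = R *ᵥ L3 (f 0 z) + b} with hG
  -- from a chart to the surface
  have hcong : ∀ (p : S) {U : Set E2}, IsOpen U → U ⊆ (extChartAt (𝓡 2) p).target →
      extChartAt (𝓡 2) p p ∈ U → ∀ (R : Matrix (Fin 3) (Fin 3) ℝ) (b : V3),
      (∀ x ∈ U, c t *ᵥ v ((extChartAt (𝓡 2) p).symm x) =
        R *ᵥ (c 0 *ᵥ v ((extChartAt (𝓡 2) p).symm x)) + b) → p ∈ G R b := by
    intro p U hU hUt hpU R b h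
    have h1 : ∀ᶠ z in 𝓝 p, extChartAt (𝓡 2) p z ∈ U :=
      (continuousAt_extChartAt p).eventually (hU.mem_nhds hpU)
    have h2 : ∀ᶠ z in 𝓝 p, z ∈ (extChartAt (𝓡 2) p).source := extChartAt_source_mem_nhds p
    filter_upwards [h1, h2] with z hz hz2
    have h3 := h _ hz
    rw [(extChartAt (𝓡 2) p).left_inv hz2, ← hfc t ht, ← hfc 0 h0] at h3
    exact h3
  -- a farthest point
  have hcf : Continuous fun p => L3 (f 0 p) ⬝ᵥ L3 (f 0 p) := by
    have h1 : Continuous fun p => L3 (f 0 p) := L3.continuous.comp (hf.smooth 0 h0).continuous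
    have h2 : Continuous fun q : V3 => q ⬝ᵥ q := by fun_prop
    exact h2.comp h1
  obtain ⟨p, -, hp⟩ := isCompact_univ.exists_isMaxOn (univ_nonempty (α := S)) hcf.continuousOn
  obtain ⟨U, hU, hUc, hUt, hpU⟩ := exists_ball p
  have hF := hfam p hU hUt
  have htau := hFAR U hU _ (imm_of_fam hF) _ hpU (by
    refine Eventually.of_forall fun y => ?_
    have h1 := hp (mem_univ ((extChartAt (𝓡 2) p).symm y))
    simp only [← hfc 0 h0]
    rw [(extChartAt (𝓡 2) p).left_inv (mem_extChartAt_source p)]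
    exact h1)
  obtain ⟨R, hR, b, hb⟩ := hCHT U M _ c hF hUc t ht (Or.inl ⟨_, hpU, htau⟩)
  have hpG : p ∈ G R b := hcong p hU hUt hpU R b hb
  have hopen : IsOpen (G R b) := by
    rw [isOpen_iff_mem_nhds]
    intro q hq
    exact eventually_eventually_nhds.2 hq
  have hclosed : IsClosed (G R b) := by
    rw [← closure_subset_iff_isClosed]
    intro q hq
    obtain ⟨U, hU, hUc, hUt, hqU⟩ := exists_ball q
    have hF := hfam q hU hUt
    have h1 : ∀ᶠ z in 𝓝 q, extChartAt (𝓡 2) q z ∈ U :=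
      (continuousAt_extChartAt q).eventually (hU.mem_nhds hqU)
    have h2 : ∀ᶠ z in 𝓝 q, z ∈ (extChartAt (𝓡 2) q).source := extChartAt_source_mem_nhds q
    obtain ⟨z, ⟨hz1, hz2⟩, hzG⟩ := (mem_closure_iff_nhds.1 hq _ (h1.and h2))
    obtain ⟨W, hWsub, hW, hzW⟩ := mem_nhds_iff.1 hzG
    set O : Set E2 := U ∩ (extChartAt (𝓡 2) q).symm ⁻¹' W with hO
    have hOo : IsOpen O := by
      have h3 : ContinuousOn (extChartAt (𝓡 2) q).symm U :=
        (continuousOn_extChartAt_symm q).mono hUt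
      exact h3.isOpen_inter_preimage hU hW
    have hOn : O.Nonempty := ⟨extChartAt (𝓡 2) q z, hz1, by
      rw [mem_preimage, (extChartAt (𝓡 2) q).left_inv hz2]
      exact hzW⟩
    have hOc : ∀ x ∈ O, c t *ᵥ v ((extChartAt (𝓡 2) q).symm x) =
        R *ᵥ (c 0 *ᵥ v ((extChartAt (𝓡 2) q).symm x)) + b := by
      intro x hx
      have h3 := hWsub hx.2
      rw [← hfc t ht, ← hfc 0 h0]
      exact h3
    obtain ⟨R', hR', b', hb'⟩ := hCHT U M _ c hF hUc t ht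
      (Or.inr ⟨O, hOo, hOn, inter_subset_left, R, hR, b, hOc⟩)
    have hImm := imm_of_fam (hfam q hOo (inter_subset_left.trans hUt))
    obtain ⟨e1, e2⟩ := (hMOT O hOo hOn _ hImm).2 R' R b' b hR' hR (by
      intro x hx
      exact (hb' x hx.1).symm.trans (hOc x hx))
    subst e1 e2
    exact hcong q hU hUt hqU _ _ hb'
  have huniv : G R b = univ := IsClopen.eq_univ ⟨hclosed, hopen⟩ ⟨p, hpG⟩
  refine ⟨R, hR, b, fun q => ?_⟩
  have h5 : q ∈ G R b := by rw [huniv]; exact mem_univ q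
  have h6 : ∀ᶠ z in 𝓝 q, L3 (f t z) = R *ᵥ L3 (f 0 z) + b := h5
  exact h6.self_of_nhds

/-- the motion -/
theorem exists_motion (R : Matrix (Fin 3) (Fin 3) ℝ) (hR : SO3 R) (b : V3) :
    ∃ A : E3 ≃ᵢ E3, ∀ x y : E3, L3 y = R *ᵥ L3 x + b → y = A x := by
  let e : E3 ≃L[ℝ] V3 := EuclideanSpace.equiv (Fin 3) ℝ
  have he : ∀ x, e x = L3 x := fun _ => rfl
  let L : E3 →ₗ[ℝ] E3 := (e.symm : V3 →ₗ[ℝ] E3) ∘ₗ R.mulVecLin ∘ₗ (e : E3 →ₗ[ℝ] V3)
  have hL : ∀ x, L3 (L x) = R *ᵥ L3 x := by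
    intro x
    change e (e.symm (R *ᵥ e x)) = _
    rw [e.apply_symm_apply]
    rfl
  have hn : ∀ x, ‖L x‖ = ‖x‖ := by
    intro x
    have h1 : inner ℝ (L x) (L x) = inner ℝ x x := by
      rw [inner_eq, inner_eq, hL, Matrix.dotProduct_mulVec, Matrix.vecMul_mulVec, hR.1,
        Matrix.vecMul_one]
    rw [real_inner_self_eq_norm_sq, real_inner_self_eq_norm_sq] at h1
    exact (pow_left_inj₀ (norm_nonneg _) (norm_nonneg _) two_ne_zero).1 h1
  let li : E3 →ₗᵢ[ℝ] E3 := ⟨L, hn⟩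
  let A : E3 ≃ᵢ E3 := (li.toLinearIsometryEquiv rfl).toIsometryEquiv.trans
    (IsometryEquiv.addRight (e.symm b))
  refine ⟨A, fun x y hxy => ?_⟩
  have h2 : A x = L x + e.symm b := rfl
  have h3 : L3 (A x) = R *ᵥ L3 x + b := by
    rw [h2, map_add, hL]
    congr 1
  exact e.injective (hxy.trans h3.symm)

end Man

/-- BLOCK MAN: the theorem, from the blocks. -/
theorem blk_MAN (hFAR : Stmt_FAR) (hMOT : Stmt_MOT) (hCHT : Stmt_CHT) (S : Type w)
    [TopologicalSpace S] [ChartedSpace E2 S] [IsManifold (𝓡 2) 4 S] [CompactSpace S]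
    [ConnectedSpace S] (f : ℝ → S → E3) (hf : FiniteRank S f) (t : ℝ) (ht : t ∈ Icc (0 : ℝ) 1) :
    ∃ A : E3 ≃ᵢ E3, ∀ p, f t p = A (f 0 p) := by
  obtain ⟨R, hR, b, h⟩ := Man.main hFAR hMOT hCHT f hf t ht
  obtain ⟨A, hA⟩ := Man.exists_motion R hR b
  exact ⟨A, fun p => hA _ _ (h p)⟩

end Pool.FR
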