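import Pool.Agent.Work.MP_02e829_fr.Interface

/-!
# Block MOT: motions preserve the second fundamental form
-/

open Set Matrix Filter
open scoped Topology ContDiff

set_option autoImplicit false

namespace Pool.FR

namespace MOTb

theorem cross_mulVec (M : Matrix (Fin 3) (Fin 3) ℝ) (a b : V3) :
    Mᵀ *ᵥ ((M *ᵥ a) ⨯₃ (M *ᵥ b)) = M.det • (a ⨯₃ b) := by
  ext i
  fin_cases i <;>
  · simp [Matrix.det_fin_three, cross_apply, mulVec, dotProduct, Fin.sum_univ_three]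
    ring

theorem mul_transpose_of_SO3 {R : Matrix (Fin 3) (Fin 3) ℝ} (h : SO3 R) : R * Rᵀ = 1 :=
  mul_eq_one_comm.1 h.1

theorem cross_SO3 {R : Matrix (Fin 3) (Fin 3) ℝ} (h : SO3 R) (a b : V3) :
    (R *ᵥ a) ⨯₃ (R *ᵥ b) = R *ᵥ (a ⨯₃ b) := by
  have h1 := cross_mulVec R a b
  rw [h.2, one_smul] at h1
  rw [← h1, mulVec_mulVec, mul_transpose_of_SO3 h, one_mulVec]

theorem dot_SO3 {R : Matrix (Fin 3) (Fin 3) ℝ} (h : SO3 R) (a b : V3) :
    (R *ᵥ a) ⬝ᵥ (R *ᵥ b) = a ⬝ᵥ b := by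
  have h1 : (R *ᵥ a) ⬝ᵥ (R *ᵥ b) = a ⬝ᵥ (Rᵀ *ᵥ (R *ᵥ b)) := by
    rw [dotProduct_mulVec a Rᵀ, vecMul_transpose]
  rw [h1, mulVec_mulVec, h.1, one_mulVec]

theorem pd_motion {O : Set E2} (hO : IsOpen O) {F F' : E2 → V3} {R : Matrix (Fin 3) (Fin 3) ℝ}
    {b : V3} (hF : ∀ x ∈ O, DifferentiableAt ℝ F x) (h : ∀ x ∈ O, F' x = R *ᵥ F x + b)
    (i : Fin 2) {x : E2} (hx : x ∈ O) : pd i F' x = R *ᵥ pd i F x := by
  set L : V3 →L[ℝ] V3 := LinearMap.toContinuousLinearMap R.mulVecLin with hL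
  have hLa : ∀ w : V3, L w = R *ᵥ w := fun w => rfl
  have h1 : pd i F' x = pd i (fun y => L (F y) + b) x := pd_congr hO (fun y hy => by rw [h y hy, hLa]) i hx
  have hd : DifferentiableAt ℝ (fun y => L (F y)) x := L.differentiableAt.comp x (hF x hx)
  rw [h1, pd_add i hd (differentiableAt_const b), pd_const, add_zero, pd_clm i L (hF x hx), hLa]

theorem W_dot_W (F : E2 → V3) (x : E2) : WW F x ⬝ᵥ WW F x = DD F x := by
  simp only [WW, DD, gg]
  rw [cross_dot_cross]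
  rw [dotProduct_comm (pd 1 F x) (pd 0 F x)]
  ring

theorem det_frame (a b : V3) :
    (Matrix.of ![a, b, a ⨯₃ b]).det = (a ⨯₃ b) ⬝ᵥ (a ⨯₃ b) := by
  simp [Matrix.det_fin_three, cross_apply, dotProduct, Fin.sum_univ_three]
  ring

theorem eq_of_frame {R R' : Matrix (Fin 3) (Fin 3) ℝ} {a b : V3}
    (hab : (a ⨯₃ b) ⬝ᵥ (a ⨯₃ b) ≠ 0) (ha : R *ᵥ a = R' *ᵥ a) (hb : R *ᵥ b = R' *ᵥ b)
    (hc : R *ᵥ (a ⨯₃ b) = R' *ᵥ (a ⨯₃ b)) : R = R' := by
  set A : Matrix (Fin 3) (Fin 3) ℝ := Matrix.of ![a, b, a ⨯₃ b] with hA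
  have hdet : IsUnit A.det := by
    rw [hA, det_frame]
    exact isUnit_iff_ne_zero.2 hab
  have hrow : ∀ (S : Matrix (Fin 3) (Fin 3) ℝ) (k i : Fin 3), (A * Sᵀ) k i = (S *ᵥ (A k)) i := by
    intro S k i
    simp only [Matrix.mul_apply, transpose_apply, mulVec, dotProduct]
    exact Finset.sum_congr rfl fun _ _ => mul_comm _ _
  have hmul : A * Rᵀ = A * R'ᵀ := by
    ext k i
    rw [hrow, hrow]
    fin_cases k
    · exact congrFun ha i
    · exact congrFun hb i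
    · exact congrFun hc i
  have h2 : A⁻¹ * (A * Rᵀ) = A⁻¹ * (A * R'ᵀ) := by rw [hmul]
  rw [← Matrix.mul_assoc, ← Matrix.mul_assoc, Matrix.nonsing_inv_mul A hdet, Matrix.one_mul,
    Matrix.one_mul] at h2
  exact Matrix.transpose_injective h2

end MOTb

open MOTb in
theorem blk_MOT (_hFRM : Stmt_FRM) : Stmt_MOT := by
  intro O hO hne F hF
  have hd : ∀ x ∈ O, DifferentiableAt ℝ F x := fun x hx => diff_at hO hF.smooth (by norm_num) hx
  have hd1 : ∀ j, ∀ x ∈ O, DifferentiableAt ℝ (pd j F) x := fun j x hx =>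
    diff_at hO (pd_contDiffOn hO hF.smooth (m := 3) (by norm_num) j) (by norm_num) hx
  refine ⟨?_, ?_⟩
  · rintro F' ⟨R, hR, b, hb⟩ x hx i j
    have h1 : ∀ k, ∀ y ∈ O, pd k F' y = R *ᵥ pd k F y := fun k y hy => pd_motion hO hd hb k hy
    have h2 : pd i (pd j F') x = R *ᵥ pd i (pd j F) x := by
      refine pd_motion (b := 0) hO (hd1 j) (fun y hy => ?_) i hx
      rw [h1 j y hy, add_zero]
    have hg : ∀ k l, gg F' k l x = gg F k l x := by
      intro k l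
      simp only [gg]
      rw [h1 k x hx, h1 l x hx, dot_SO3 hR]
    have hD : DD F' x = DD F x := by
      simp only [DD, hg]
    have hW : WW F' x = R *ᵥ WW F x := by
      simp only [WW]
      rw [h1 0 x hx, h1 1 x hx, cross_SO3 hR]
    have hN : NN F' x = R *ᵥ NN F x := by
      simp only [NN]
      rw [hD, hW, mulVec_smul]
    simp only [II]
    rw [h2, hN, dot_SO3 hR]
  · intro R R' b b' hR hR' h
    obtain ⟨x, hx⟩ := hne
    have h1 : ∀ k, R *ᵥ pd k F x = R' *ᵥ pd k F x := by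
      intro k
      have e1 := pd_motion (F' := fun y => R *ᵥ F y + b) hO hd (fun y _ => rfl) k hx
      have e2 := pd_motion (F' := fun y => R *ᵥ F y + b) (R := R') (b := b') hO hd
        (fun y hy => h y hy) k hx
      rw [← e1, ← e2]
    have h2 : R *ᵥ (pd 0 F x ⨯₃ pd 1 F x) = R' *ᵥ (pd 0 F x ⨯₃ pd 1 F x) := by
      rw [← cross_SO3 hR, ← cross_SO3 hR', h1 0, h1 1]
    have hne : (pd 0 F x ⨯₃ pd 1 F x) ⬝ᵥ (pd 0 F x ⨯₃ pd 1 F x) ≠ 0 := by
      have := W_dot_W F x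
      simp only [WW] at this
      rw [this]
      exact (hF.pos x hx).ne'
    have hRR : R = R' := eq_of_frame hne (h1 0) (h1 1) h2
    refine ⟨hRR, ?_⟩
    have h3 := h x hx
    rw [hRR] at h3
    exact add_left_cancel h3

end Pool.FR
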