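import Pool.Agent.Work.MP_02e829_fr.Interface

open Set Matrix
open scoped Topology ContDiff

set_option autoImplicit false

namespace Pool.FR

namespace PTW22

/-- a continuous function with constant square is constant -/
theorem const_of_sq {f : ℝ → ℝ} (hf : ContinuousOn f (Icc 0 1))
    (h : ∀ t ∈ Icc (0 : ℝ) 1, f t ^ 2 = f 0 ^ 2) : ∀ t ∈ Icc (0 : ℝ) 1, f t = f 0 := by
  by_cases h0 : f 0 = 0
  · intro t ht
    have := h t ht
    rw [h0] at this ⊢
    exact pow_eq_zero_iff (two_ne_zero) |>.1 (by simpa using this)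
  · have h1 : EqOn (f ^ 2) ((fun _ => f 0) ^ 2) (Icc (0 : ℝ) 1) := fun t ht => h t ht
    have h2 := isPreconnected_Icc.eq_of_sq_eq hf continuousOn_const h1
      (fun {x} _ => h0) (left_mem_Icc.2 zero_le_one) rfl
    exact fun t ht => h2 ht

variable {U : Set E2} {M : ℕ} {v : E2 → Fin M → ℝ} {c : ℝ → Matrix (Fin 3) (Fin M) ℝ}

theorem pd_mulVec (A : Matrix (Fin 3) (Fin M) ℝ) (i : Fin 2) {f : E2 → Fin M → ℝ} {x : E2}
    (hf : DifferentiableAt ℝ f x) : pd i (fun y => A *ᵥ f y) x = A *ᵥ pd i f x :=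
  pd_clm i (LinearMap.toContinuousLinearMap (Matrix.mulVecLin A)) hf

theorem smooth_mulVec (A : Matrix (Fin 3) (Fin M) ℝ) {f : E2 → Fin M → ℝ} {n : WithTop ℕ∞}
    (hf : ContDiffOn ℝ n f U) : ContDiffOn ℝ n (fun y => A *ᵥ f y) U :=
  (LinearMap.toContinuousLinearMap (Matrix.mulVecLin A)).contDiff.comp_contDiffOn hf

theorem imm (h : Fam U M v c) {t : ℝ} (ht : t ∈ Icc (0 : ℝ) 1) :
    Imm (fun y => c t *ᵥ v y) U where
  smooth := smooth_mulVec _ h.smooth
  pos := by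
    intro x hx
    have h1 := h.pos x hx
    unfold DD at h1 ⊢
    rw [h.iso t ht x hx 0 0, h.iso t ht x hx 1 1, h.iso t ht x hx 0 1]
    exact h1

theorem DD_eq (h : Fam U M v c) {t : ℝ} (ht : t ∈ Icc (0 : ℝ) 1) {x : E2} (hx : x ∈ U) :
    DD (fun y => c t *ᵥ v y) x = DD (fun y => c 0 *ᵥ v y) x := by
  unfold DD
  rw [h.iso t ht x hx 0 0, h.iso t ht x hx 1 1, h.iso t ht x hx 0 1]

theorem pd1 (h : Fam U M v c) (t : ℝ) {x : E2} (hx : x ∈ U) (i : Fin 2) :
    pd i (fun y => c t *ᵥ v y) x = c t *ᵥ pd i v x :=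
  pd_mulVec _ _ (diff_at h.isOpen h.smooth (by norm_num) hx)

theorem pd2 (h : Fam U M v c) (t : ℝ) {x : E2} (hx : x ∈ U) (i j : Fin 2) :
    pd i (pd j (fun y => c t *ᵥ v y)) x = c t *ᵥ pd i (pd j v) x := by
  rw [pd_congr h.isOpen (g := fun y => c t *ᵥ pd j v y) (fun y hy => pd1 h t hy j) i hx]
  have h1 : ContDiffOn ℝ 3 (pd j v) U := pd_contDiffOn h.isOpen h.smooth (by norm_num) j
  exact pd_mulVec _ _ (diff_at h.isOpen h1 (by norm_num) hx)

theorem II_eq (h : Fam U M v c) {t : ℝ} (ht : t ∈ Icc (0 : ℝ) 1) {x : E2} (hx : x ∈ U)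
    (i j : Fin 2) : II (fun y => c t *ᵥ v y) i j x =
      (c t *ᵥ pd i (pd j v) x) ⬝ᵥ ((Real.sqrt (DD (fun y => c 0 *ᵥ v y) x))⁻¹ •
        ((c t *ᵥ pd 0 v x) ⨯₃ (c t *ᵥ pd 1 v x))) := by
  unfold II NN WW
  rw [DD_eq h ht hx, pd2 h t hx, pd1 h t hx, pd1 h t hx]

theorem cont_cross {f g : ℝ → V3} {s : Set ℝ} (hf : ContinuousOn f s) (hg : ContinuousOn g s) :
    ContinuousOn (fun t => f t ⨯₃ g t) s := by
  have hf' := continuousOn_pi.1 hf
  have hg' := continuousOn_pi.1 hg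
  have hcr : ∀ y, f y ⨯₃ g y = ![f y 1 * g y 2 - f y 2 * g y 1, f y 2 * g y 0 - f y 0 * g y 2,
      f y 0 * g y 1 - f y 1 * g y 0] := fun y => cross_apply _ _
  simp only [hcr]
  rw [continuousOn_pi]
  intro a
  fin_cases a
  · exact ((hf' 1).mul (hg' 2)).sub ((hf' 2).mul (hg' 1))
  · exact ((hf' 2).mul (hg' 0)).sub ((hf' 0).mul (hg' 2))
  · exact ((hf' 0).mul (hg' 1)).sub ((hf' 1).mul (hg' 0))

theorem cont_mulVec (h : Fam U M v c) (z : Fin M → ℝ) :
    ContinuousOn (fun t => c t *ᵥ z) (Icc 0 1) := by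
  have h1 : Continuous fun A : Matrix (Fin 3) (Fin M) ℝ => A *ᵥ z :=
    continuous_id.matrix_mulVec continuous_const
  exact h1.comp_continuousOn h.cont

theorem II_cont (h : Fam U M v c) {x : E2} (hx : x ∈ U) (i j : Fin 2) :
    ContinuousOn (fun t => II (fun y => c t *ᵥ v y) i j x) (Icc 0 1) := by
  have h1 : ContinuousOn (fun t => (c t *ᵥ pd i (pd j v) x) ⬝ᵥ
      ((Real.sqrt (DD (fun y => c 0 *ᵥ v y) x))⁻¹ •
        ((c t *ᵥ pd 0 v x) ⨯₃ (c t *ᵥ pd 1 v x)))) (Icc 0 1) := by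
    have h2 := cont_mulVec h (pd i (pd j v) x)
    have h3 := (cont_cross (cont_mulVec h (pd 0 v x)) (cont_mulVec h (pd 1 v x))).const_smul
      ((Real.sqrt (DD (fun y => c 0 *ᵥ v y) x))⁻¹)
    have h2' := continuousOn_pi.1 h2
    have h3' := continuousOn_pi.1 h3
    exact continuousOn_finsetSum _ fun a _ => (h2' a).mul (h3' a)
  exact h1.congr fun t ht => II_eq h ht hx i j

end PTW22

open PTW22 in
theorem blk_PTW (hGAU : Stmt_GAU) (hWEI : Stmt_WEI) (hFRM : Stmt_FRM) : Stmt_PTW := by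
  intro U M v c h t ht x hx
  have hgau := hGAU U M v c h
  set G : Fin 2 → Fin 2 → ℝ := fun i j => gg (fun y => c 0 *ᵥ v y) i j x with hG
  set D : ℝ := DD (fun y => c 0 *ᵥ v y) x with hD
  have hD0 : 0 < D := h.pos x hx
  have hDG : D = G 0 0 * G 1 1 - G 0 1 ^ 2 := rfl
  have hg10 : G 1 0 = G 0 1 := dotProduct_comm _ _
  have h0 : (0 : ℝ) ∈ Icc (0 : ℝ) 1 := left_mem_Icc.2 zero_le_one
  -- the Weingarten equation for all times
  have hwei : ∀ s ∈ Icc (0 : ℝ) 1, ∀ i j, III (fun y => c 0 *ᵥ v y) i j x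
      = tau (fun y => c s *ᵥ v y) x * II (fun y => c s *ᵥ v y) i j x
        - del (fun y => c s *ᵥ v y) x * G i j := by
    intro s hs i j
    rw [← hgau s hs x hx i j, hWEI U h.isOpen _ (imm h hs) x hx i j, h.iso s hs x hx i j]
  have hsym : ∀ s ∈ Icc (0 : ℝ) 1, II (fun y => c s *ᵥ v y) 1 0 x
      = II (fun y => c s *ᵥ v y) 0 1 x := by
    intro s hs
    obtain ⟨_, _, _, _, hsy, _⟩ := hFRM U h.isOpen _ (imm h hs) x hx
    exact hsy 1 0
  have htau : ∀ s ∈ Icc (0 : ℝ) 1, tau (fun y => c s *ᵥ v y) x * D =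
      G 1 1 * II (fun y => c s *ᵥ v y) 0 0 x - 2 * G 0 1 * II (fun y => c s *ᵥ v y) 0 1 x
        + G 0 0 * II (fun y => c s *ᵥ v y) 1 1 x := by
    intro s hs
    rw [tau, DD_eq h hs hx, h.iso s hs x hx 1 1, h.iso s hs x hx 0 1, h.iso s hs x hx 0 0,
      div_mul_cancel₀ _ hD0.ne']
  have hdel : ∀ s ∈ Icc (0 : ℝ) 1, del (fun y => c s *ᵥ v y) x * D =
      II (fun y => c s *ᵥ v y) 0 0 x * II (fun y => c s *ᵥ v y) 1 1 x
        - II (fun y => c s *ᵥ v y) 0 1 x ^ 2 := by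
    intro s hs
    rw [del, DD_eq h hs hx, div_mul_cancel₀ _ hD0.ne']
  -- invariants
  set T00 := III (fun y => c 0 *ᵥ v y) 0 0 x
  set T01 := III (fun y => c 0 *ᵥ v y) 0 1 x
  set T11 := III (fun y => c 0 *ᵥ v y) 1 1 x
  have htr : ∀ s ∈ Icc (0 : ℝ) 1, tau (fun y => c s *ᵥ v y) x ^ 2 * D
      - 2 * del (fun y => c s *ᵥ v y) x * D = G 1 1 * T00 - 2 * G 0 1 * T01 + G 0 0 * T11 := by
    intro s hs
    have e00 := hwei s hs 0 0
    have e01 := hwei s hs 0 1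
    have e11 := hwei s hs 1 1
    have et := htau s hs
    simp only [T00, T01, T11]
    rw [e00, e01, e11, hDG]
    rw [hDG] at et
    linear_combination tau (fun y => c s *ᵥ v y) x * et
  have hdet : ∀ s ∈ Icc (0 : ℝ) 1, del (fun y => c s *ᵥ v y) x ^ 2 * D
      = T00 * T11 - T01 ^ 2 := by
    intro s hs
    have e00 := hwei s hs 0 0
    have e01 := hwei s hs 0 1
    have e11 := hwei s hs 1 1
    have et := htau s hs
    have ed := hdel s hs
    simp only [T00, T01, T11]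
    rw [e00, e01, e11]
    rw [hDG] at et ed ⊢
    linear_combination (tau (fun y => c s *ᵥ v y) x * del (fun y => c s *ᵥ v y) x) * et * (-1)
      + tau (fun y => c s *ᵥ v y) x ^ 2 * ed
  have ctau : ContinuousOn (fun s => tau (fun y => c s *ᵥ v y) x) (Icc 0 1) := by
    have h1 : ContinuousOn (fun s => (G 1 1 * II (fun y => c s *ᵥ v y) 0 0 x
        - 2 * G 0 1 * II (fun y => c s *ᵥ v y) 0 1 x
        + G 0 0 * II (fun y => c s *ᵥ v y) 1 1 x) / D) (Icc 0 1) :=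
      (((continuousOn_const.mul (II_cont h hx 0 0)).sub
        (continuousOn_const.mul (II_cont h hx 0 1))).add
        (continuousOn_const.mul (II_cont h hx 1 1))).div_const D
    refine h1.congr fun s hs => ?_
    rw [eq_div_iff hD0.ne']
    exact htau s hs
  have cdel : ContinuousOn (fun s => del (fun y => c s *ᵥ v y) x) (Icc 0 1) := by
    have h1 : ContinuousOn (fun s => (II (fun y => c s *ᵥ v y) 0 0 x *
        II (fun y => c s *ᵥ v y) 1 1 x - II (fun y => c s *ᵥ v y) 0 1 x ^ 2) / D) (Icc 0 1) :=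
      (((II_cont h hx 0 0).mul (II_cont h hx 1 1)).sub ((II_cont h hx 0 1).pow 2)).div_const D
    refine h1.congr fun s hs => ?_
    rw [eq_div_iff hD0.ne']
    exact hdel s hs
  have hdc : ∀ s ∈ Icc (0 : ℝ) 1, del (fun y => c s *ᵥ v y) x = del (fun y => c 0 *ᵥ v y) x := by
    refine const_of_sq cdel fun s hs => ?_
    have e1 := hdet s hs
    have e0 := hdet 0 h0
    exact mul_right_cancel₀ hD0.ne' (e1.trans e0.symm)
  have htc : ∀ s ∈ Icc (0 : ℝ) 1, tau (fun y => c s *ᵥ v y) x = tau (fun y => c 0 *ᵥ v y) x := by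
    refine const_of_sq ctau fun s hs => ?_
    have e1 := htr s hs
    have e0 := htr 0 h0
    have e2 := hdc s hs
    rw [e2] at e1
    refine mul_right_cancel₀ hD0.ne' ?_
    linarith
  refine ⟨htc t ht, fun hne i j => ?_⟩
  have e1 := hwei t ht i j
  have e0 := hwei 0 h0 i j
  rw [htc t ht, hdc t ht] at e1
  have e2 : tau (fun y => c 0 *ᵥ v y) x * II (fun y => c t *ᵥ v y) i j x
      = tau (fun y => c 0 *ᵥ v y) x * II (fun y => c 0 *ᵥ v y) i j x := by linarith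
  exact mul_left_cancel₀ hne e2

end Pool.FR
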