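import Pool.Agent.Work.MP_02e829_fr.Interface

/-! # Block SDT: the second derivative test -/

open Set Matrix Filter
open scoped Topology ContDiff

set_option autoImplicit false

namespace Pool.FR

namespace Sdt

theorem second {U : Set E2} (hU : IsOpen U) {E : E2 → ℝ} (hE : ContDiffOn ℝ 2 E U) {x : E2}
    (hx : x ∈ U) (a b : Fin 2) :
    pd a (pd b E) x = fderiv ℝ (fderiv ℝ E) x (ee a) (ee b) := by
  have h1 : ContDiffOn ℝ 1 (fderiv ℝ E) U := hE.fderiv_of_isOpen hU (by norm_num)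
  have hd : DifferentiableAt ℝ (fderiv ℝ E) x := diff_at hU h1 le_rfl hx
  have h2 : pd b E = fun y => fderiv ℝ E y (ee b) := rfl
  rw [pd, h2, fderiv_clm_apply hd (differentiableAt_const _)]
  simp

theorem dir {U : Set E2} (hU : IsOpen U) {E : E2 → ℝ} (hE : ContDiffOn ℝ 2 E U) {x : E2}
    (hx : x ∈ U) (hmax : IsLocalMax E x) (l : E2) : fderiv ℝ (fderiv ℝ E) x l l ≤ 0 := by
  have h1 : ContDiffOn ℝ 1 (fderiv ℝ E) U := hE.fderiv_of_isOpen hU (by norm_num)
  have hd : DifferentiableAt ℝ (fderiv ℝ E) x := diff_at hU h1 le_rfl hx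
  set φ : ℝ → ℝ := fun s => E (x + s • l) with hφ
  have hline : ∀ s : ℝ, HasDerivAt (fun s : ℝ => x + s • l) l s := by
    intro s
    have := ((hasDerivAt_id s).smul_const l).const_add x
    simpa using this
  have hcont : Continuous fun s : ℝ => x + s • l := by fun_prop
  have hx0 : x + (0 : ℝ) • l = x := by simp
  have hnear : ∀ᶠ s in 𝓝 (0 : ℝ), x + s • l ∈ U := by
    refine hcont.continuousAt.eventually_mem ?_
    rw [hx0]
    exact hU.mem_nhds hx
  have hder : ∀ᶠ s in 𝓝 (0 : ℝ), deriv φ s = fderiv ℝ E (x + s • l) l := by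
    filter_upwards [hnear] with s hs
    have h2 := (diff_at hU hE (by norm_num) hs).hasFDerivAt.comp_hasDerivAt s (hline s)
    exact h2.deriv
  have hder2 : deriv (deriv φ) 0 = fderiv ℝ (fderiv ℝ E) x l l := by
    rw [EventuallyEq.deriv_eq (f := fun s => fderiv ℝ E (x + s • l) l) hder]
    have h3 : HasFDerivAt (fderiv ℝ E) (fderiv ℝ (fderiv ℝ E) x) (x + (0 : ℝ) • l) := by
      rw [hx0]
      exact hd.hasFDerivAt
    have h4 : HasDerivAt (fun s : ℝ => fderiv ℝ E (x + s • l)) (fderiv ℝ (fderiv ℝ E) x l) 0 :=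
      h3.comp_hasDerivAt (0 : ℝ) (hline 0)
    have h5 := h4.clm_apply (hasDerivAt_const (0 : ℝ) l)
    rw [h5.deriv]
    simp
  have hmaxφ : IsLocalMax φ 0 := by
    have h6 : Tendsto (fun s : ℝ => x + s • l) (𝓝 0) (𝓝 x) := by
      have := hcont.tendsto 0
      rwa [hx0] at this
    have h7 := h6.eventually hmax
    filter_upwards [h7] with s hs
    change E (x + s • l) ≤ E (x + (0 : ℝ) • l)
    rw [hx0]
    exact hs
  by_contra hcon
  rw [not_le, ← hder2] at hcon
  have hcφ : ContinuousAt φ 0 := by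
    have h8 : ContinuousAt E (x + (0 : ℝ) • l) := by
      rw [hx0]
      exact (diff_at hU hE (by norm_num) hx).continuousAt
    exact ContinuousAt.comp (f := fun s : ℝ => x + s • l) h8 hcont.continuousAt
  have hmin := isLocalMin_of_deriv_deriv_pos hcon hmaxφ.deriv_eq_zero hcφ
  have hconst : φ =ᶠ[𝓝 0] fun _ => φ 0 := by
    filter_upwards [hmaxφ, hmin] with s h1 h2
    exact le_antisymm h1 h2
  have h9 : deriv φ =ᶠ[𝓝 0] fun _ => 0 := by
    filter_upwards [hconst.eventuallyEq_nhds] with s hs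
    rw [hs.deriv_eq, deriv_const]
  rw [h9.deriv_eq, deriv_const] at hcon
  exact lt_irrefl _ hcon

end Sdt

open Sdt in
/-- BLOCK SDT -/
theorem blk_SDT : Stmt_SDT := by
  intro U hU E hE x hx hmax
  have hd := hmax.fderiv_eq_zero
  refine ⟨fun i => by rw [pd, hd]; rfl, fun a b c ha hc hb => ?_⟩
  rw [second hU hE hx, second hU hE hx, second hU hE hx]
  set B := fderiv ℝ (fderiv ℝ E) x with hB
  have hsym : B (ee 0) (ee 1) = B (ee 1) (ee 0) := by
    have h1 := pd_comm hU hE (le_refl _) 0 1 hx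
    rw [second hU hE hx, second hU hE hx] at h1
    exact h1
  have hl : ∀ p q : ℝ, p ^ 2 * B (ee 0) (ee 0) + 2 * (p * q) * B (ee 0) (ee 1) +
      q ^ 2 * B (ee 1) (ee 1) ≤ 0 := by
    intro p q
    have h1 := dir hU hE hx hmax (p • ee 0 + q • ee 1)
    rw [← hB] at h1
    have h2 : B (p • ee 0 + q • ee 1) (p • ee 0 + q • ee 1) =
        p ^ 2 * B (ee 0) (ee 0) + 2 * (p * q) * B (ee 0) (ee 1) + q ^ 2 * B (ee 1) (ee 1) := by
      simp only [map_add, map_smul, _root_.add_apply, _root_.smul_apply, smul_eq_mul]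
      rw [← hsym]
      ring
    rwa [h2] at h1
  rcases ha.eq_or_lt with h | h
  · rw [← h] at hb ⊢
    have hb0 : b = 0 := by nlinarith
    have h1 := hl 0 1
    rw [hb0]
    nlinarith
  · have h1 := hl 1 (b / a)
    have h2 := hl 0 1
    have h3 : 0 ≤ c - b ^ 2 / a := by
      rw [sub_nonneg, div_le_iff₀ h]
      linarith
    have h4 : a * B (ee 0) (ee 0) + 2 * b * B (ee 0) (ee 1) + c * B (ee 1) (ee 1) =
        a * (1 ^ 2 * B (ee 0) (ee 0) + 2 * (1 * (b / a)) * B (ee 0) (ee 1) +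
          (b / a) ^ 2 * B (ee 1) (ee 1)) + (c - b ^ 2 / a) * B (ee 1) (ee 1) := by
      field_simp
      ring
    rw [h4]
    have h5 : B (ee 1) (ee 1) ≤ 0 := by nlinarith
    nlinarith [mul_nonneg h.le (neg_nonneg.2 h1), mul_nonneg h3 (neg_nonneg.2 h5)]

end Pool.FR
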