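import Pool.Agent.Work.MP_02e829_fr.Interface

/-! # Block UCP: unique continuation for the Beltrami equation -/

open Set Matrix Filter
open scoped Topology ContDiff ComplexConjugate

set_option autoImplicit false

namespace Pool.FR

namespace UCP

/-! ### the barrier -/

lemma dmul {𝔸 : Type*} [NormedRing 𝔸] [NormedAlgebra ℝ 𝔸] {f g : E2 → 𝔸} {x : E2}
    (hf : DifferentiableAt ℝ f x) (hg : DifferentiableAt ℝ g x) :
    DifferentiableAt ℝ (fun y => f y * g y) x := hf.mul hg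

lemma pd_coord (i j : Fin 2) (x : E2) : pd i (fun y : E2 => y j) x = if i = j then 1 else 0 := by
  have h : (fun y : E2 => y j) = fun y => (EuclideanSpace.proj j : E2 →L[ℝ] ℝ) y := rfl
  have h2 : fderiv ℝ (fun y : E2 => (EuclideanSpace.proj j : E2 →L[ℝ] ℝ) y) x =
      (EuclideanSpace.proj j : E2 →L[ℝ] ℝ) := (EuclideanSpace.proj j : E2 →L[ℝ] ℝ).fderiv
  rw [h, pd, h2]
  show (EuclideanSpace.single i (1 : ℝ) : E2) j = _
  by_cases hij : i = j
  · subst hij; simp
  · simp [hij, Ne.symm hij]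

lemma contDiff_coord (j : Fin 2) {n : WithTop ℕ∞} : ContDiff ℝ n (fun y : E2 => y j) :=
  (EuclideanSpace.proj j : E2 →L[ℝ] ℝ).contDiff

/-- the squared distance -/
def qq (z y : E2) : ℝ := (y 0 - z 0) * (y 0 - z 0) + (y 1 - z 1) * (y 1 - z 1)

lemma contDiff_qq (z : E2) {n : WithTop ℕ∞} : ContDiff ℝ n (qq z) := by
  unfold qq
  have h0 := (contDiff_coord 0 (n := n)).sub (contDiff_const (c := z 0))
  have h1 := (contDiff_coord 1 (n := n)).sub (contDiff_const (c := z 1))
  exact (h0.mul h0).add (h1.mul h1)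

lemma qq_dist (z y : E2) : qq z y = dist y z ^ 2 := by
  rw [EuclideanSpace.dist_eq, Real.sq_sqrt (Finset.sum_nonneg fun _ _ => sq_nonneg _),
    Fin.sum_univ_two, Real.dist_eq, Real.dist_eq, sq_abs, sq_abs, qq]
  ring

lemma pd_qq (z y : E2) (i : Fin 2) : pd i (qq z) y = 2 * (y i - z i) := by
  have d : ∀ j : Fin 2, DifferentiableAt ℝ (fun y : E2 => y j - z j) y := fun j =>
    (((contDiff_coord j (n := 1)).differentiable (by norm_num)) y).sub (differentiableAt_const _)
  have e : ∀ j : Fin 2, pd i (fun y : E2 => y j - z j) y = if i = j then 1 else 0 := by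
    intro j
    rw [pd_sub i (((contDiff_coord j (n := 1)).differentiable (by norm_num)) y)
      (differentiableAt_const _), pd_coord, pd_const, sub_zero]
  have h : qq z = fun y => (y 0 - z 0) * (y 0 - z 0) + (y 1 - z 1) * (y 1 - z 1) := rfl
  rw [h, pd_add i (dmul (d 0) (d 0)) (dmul (d 1) (d 1)), pd_mul i (d 0) (d 0), pd_mul i (d 1) (d 1),
    e 0, e 1]
  fin_cases i
  · simp; ring
  · simp; ring

/-- the barrier function -/
noncomputable def bar (L : ℝ) (z y : E2) : ℝ := Real.exp (-L * qq z y)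

lemma contDiff_bar (L : ℝ) (z : E2) {n : WithTop ℕ∞} : ContDiff ℝ n (bar L z) := by
  unfold bar
  exact (contDiff_const.mul (contDiff_qq z)).exp

lemma pd_exp (i : Fin 2) {f : E2 → ℝ} {x : E2} (hf : DifferentiableAt ℝ f x) :
    pd i (fun y => Real.exp (f y)) x = Real.exp (f x) * pd i f x := by
  rw [pd, (hf.hasFDerivAt.exp).fderiv]
  rfl

lemma pd_bar (L : ℝ) (z : E2) (i : Fin 2) :
    pd i (bar L z) = fun y => bar L z y * (-L * (2 * (y i - z i))) := by
  funext y
  have hq : DifferentiableAt ℝ (qq z) y := ((contDiff_qq z (n := 1)).differentiable (by norm_num)) y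
  have h : bar L z = fun y => Real.exp (-L * qq z y) := rfl
  rw [h, pd_exp i (dmul (differentiableAt_const (-L)) hq), pd_mul i (differentiableAt_const (-L)) hq,
    pd_const, pd_qq]
  ring

lemma pd_pd_bar (L : ℝ) (z : E2) (i j : Fin 2) (y : E2) :
    pd j (pd i (bar L z)) y = bar L z y * (4 * L ^ 2 * ((y i - z i) * (y j - z j))
      - 2 * L * (if j = i then 1 else 0)) := by
  have hb : DifferentiableAt ℝ (bar L z) y :=
    ((contDiff_bar L z (n := 1)).differentiable (by norm_num)) y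
  have dc : DifferentiableAt ℝ (fun y : E2 => y i) y :=
    ((contDiff_coord i (n := 1)).differentiable (by norm_num)) y
  have d1 : DifferentiableAt ℝ (fun y : E2 => y i - z i) y := dc.sub (differentiableAt_const _)
  have d2 : DifferentiableAt ℝ (fun y : E2 => 2 * (y i - z i)) y :=
    dmul (differentiableAt_const (2 : ℝ)) d1
  have d3 : DifferentiableAt ℝ (fun y : E2 => -L * (2 * (y i - z i))) y :=
    dmul (differentiableAt_const (-L)) d2
  rw [pd_bar, pd_mul j hb d3, pd_bar, pd_mul j (differentiableAt_const (-L)) d2,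
    pd_mul j (differentiableAt_const (2 : ℝ)) d1, pd_sub j dc (differentiableAt_const _),
    pd_coord, pd_const, pd_const, pd_const]
  ring

/-! ### the inequality at a local maximum -/

lemma pd_log (i : Fin 2) {f : E2 → ℂ} {x : E2} (hf : DifferentiableAt ℝ f x)
    (hx : f x ∈ Complex.slitPlane) :
    pd i (fun y => Complex.log (f y)) x = (f x)⁻¹ * pd i f x := by
  have h1 : HasFDerivAt Complex.log ((f x)⁻¹ • (1 : ℂ →L[ℝ] ℂ)) (f x) :=
    (Complex.hasStrictDerivAt_log hx).hasDerivAt.complexToReal_fderiv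
  have h2 := (h1.comp x hf.hasFDerivAt).fderiv
  have h3 : (Complex.log ∘ f) = fun y => Complex.log (f y) := rfl
  rw [h3] at h2
  rw [pd, h2]
  rfl

/-- At a local maximum of `|φ| exp (n b)` the equation gives an inequality of the form
`n (Q(b) + l_0 b_0 + l_1 b_1) + m ≤ 0`. -/
lemma core (hSDT : Stmt_SDT) {U : Set E2} (hU : IsOpen U) {β c φ : E2 → ℂ}
    (hβ : ContDiffOn ℝ 1 β U) (hc : ContDiffOn ℝ 1 c U) (hφ : ContDiffOn ℝ 2 φ U)
    (him : ∀ x ∈ U, 0 < (β x).im)
    (heq : ∀ x ∈ U, pd 1 φ x - β x * pd 0 φ x = c x * φ x)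
    {b : E2 → ℝ} (hb : ContDiff ℝ 2 b) {n : ℝ} {x : E2} (hx : x ∈ U) (hφx : φ x ≠ 0)
    (hmax : IsLocalMax (fun y => ‖φ y‖ * Real.exp (n * b y)) x) :
    n * (((β x).re ^ 2 + (β x).im ^ 2) * pd 0 (pd 0 b) x - 2 * (β x).re * pd 0 (pd 1 b) x
        + pd 1 (pd 1 b) x
        + (-(pd 1 β x - conj (β x) * pd 0 β x).re
          + (pd 1 β x - conj (β x) * pd 0 β x).im / (β x).im * (β x).re) * pd 0 b x
        + (-((pd 1 β x - conj (β x) * pd 0 β x).im / (β x).im)) * pd 1 b x)
      + ((pd 1 c x - conj (β x) * pd 0 c x).re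
        - (pd 1 β x - conj (β x) * pd 0 β x).im / (β x).im * (c x).re) ≤ 0 := by
  set ψ : E2 → ℂ := fun y => (φ x)⁻¹ * φ y with hψ
  have hψx : ψ x = 1 := inv_mul_cancel₀ hφx
  have hψs : ContDiffOn ℝ 2 ψ U := contDiffOn_const.mul hφ
  set O : Set E2 := U ∩ ψ ⁻¹' Complex.slitPlane with hO
  have hOo : IsOpen O := hψs.continuousOn.isOpen_inter_preimage hU Complex.isOpen_slitPlane
  have hxO : x ∈ O := ⟨hx, by rw [mem_preimage, hψx]; exact Complex.one_mem_slitPlane⟩
  have hOU : O ⊆ U := inter_subset_left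
  set ζ : E2 → ℂ := fun y => Complex.log (ψ y) with hζ
  have hζs : ContDiffOn ℝ 2 ζ O := by
    intro y hy
    have h1 : ContDiffAt ℝ 2 Complex.log (ψ y) :=
      (Complex.contDiffAt_log hy.2 (n := 2)).restrict_scalars ℝ
    have h2 : ContDiffAt ℝ 2 ψ y := (hψs y hy.1).contDiffAt (hU.mem_nhds hy.1)
    exact (h1.comp y h2).contDiffWithinAt
  have ψd : ∀ y ∈ U, DifferentiableAt ℝ ψ y := fun y hy => diff_at hU hψs (by norm_num) hy
  have φd : ∀ y ∈ U, DifferentiableAt ℝ φ y := fun y hy => diff_at hU hφ (by norm_num) hy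
  have pψ : ∀ i, ∀ y ∈ U, pd i ψ y = (φ x)⁻¹ * pd i φ y := by
    intro i y hy
    rw [hψ, pd_cmul i (differentiableAt_const _) (φd y hy), pd_const, zero_mul, zero_add]
  have pζ : ∀ i, ∀ y ∈ O, pd i ζ y = (ψ y)⁻¹ * ((φ x)⁻¹ * pd i φ y) := by
    intro i y hy
    rw [hζ, pd_log i (ψd y hy.1) hy.2, pψ i y hy.1]
  -- the equation for the logarithm
  have eqζ : ∀ y ∈ O, pd 1 ζ y = β y * pd 0 ζ y + c y := by
    intro y hy
    have h0 : ψ y ≠ 0 := Complex.slitPlane_ne_zero hy.2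
    have h1 := heq y hy.1
    rw [pζ 1 y hy, pζ 0 y hy]
    have h2 : pd 1 φ y = β y * pd 0 φ y + c y * φ y := by linear_combination h1
    rw [h2]
    have h3 : (ψ y)⁻¹ * ((φ x)⁻¹ * φ y) = 1 := inv_mul_cancel₀ h0
    linear_combination c y * h3
  -- derivatives of the equation
  have z1s : ContDiffOn ℝ 1 (pd 0 ζ) O := pd_contDiffOn hOo hζs (by norm_num) 0
  have zd : DifferentiableAt ℝ (pd 0 ζ) x := diff_at hOo z1s le_rfl hxO
  have βd : DifferentiableAt ℝ β x := diff_at hU hβ le_rfl hx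
  have cd : DifferentiableAt ℝ c x := diff_at hU hc le_rfl hx
  have second : ∀ j, pd j (pd 1 ζ) x = pd j β x * pd 0 ζ x + β x * pd j (pd 0 ζ) x + pd j c x := by
    intro j
    rw [pd_congr hOo eqζ j hxO, pd_add j (dmul βd zd) cd, pd_cmul j βd zd]
  have hcomm : pd 1 (pd 0 ζ) x = pd 0 (pd 1 ζ) x := pd_comm hOo hζs le_rfl 1 0 hxO
  -- the real function
  set F : E2 → ℝ := fun y => (ζ y).re + n * b y with hF
  have hb2 : ContDiffOn ℝ 2 b O := hb.contDiffOn
  have hFs : ContDiffOn ℝ 2 F O := by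
    have h1 : ContDiffOn ℝ 2 (fun y => (ζ y).re) O := Complex.reCLM.contDiff.comp_contDiffOn hζs
    exact h1.add (contDiffOn_const.mul hb2)
  have pF : ∀ i, ∀ y ∈ O, pd i F y = (pd i ζ y).re + n * pd i b y := by
    intro i y hy
    have d1 : DifferentiableAt ℝ ζ y := diff_at hOo hζs (by norm_num) hy
    have d2 : DifferentiableAt ℝ b y := diff_at hOo hb2 (by norm_num) hy
    have d3 : DifferentiableAt ℝ (fun y => (ζ y).re) y := Complex.reCLM.differentiableAt.comp y d1
    have e1 : pd i (fun y => (ζ y).re) y = (pd i ζ y).re := pd_clm i Complex.reCLM d1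
    rw [hF, pd_add i d3 (dmul (differentiableAt_const n) d2), e1, pd_mul i (differentiableAt_const n) d2,
      pd_const]
    ring
  have pb1 : ∀ j, ContDiffOn ℝ 1 (pd j b) O := fun j => pd_contDiffOn hOo hb2 (by norm_num) j
  have pζ1 : ∀ j, ContDiffOn ℝ 1 (pd j ζ) O := fun j => pd_contDiffOn hOo hζs (by norm_num) j
  have ppF : ∀ i j, pd i (pd j F) x = (pd i (pd j ζ) x).re + n * pd i (pd j b) x := by
    intro i j
    have d1 : DifferentiableAt ℝ (pd j ζ) x := diff_at hOo (pζ1 j) le_rfl hxO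
    have d2 : DifferentiableAt ℝ (pd j b) x := diff_at hOo (pb1 j) le_rfl hxO
    have d3 : DifferentiableAt ℝ (fun y => (pd j ζ y).re) x := Complex.reCLM.differentiableAt.comp x d1
    have e1 : pd i (fun y => (pd j ζ y).re) x = (pd i (pd j ζ) x).re := pd_clm i Complex.reCLM d1
    rw [pd_congr hOo (pF j) i hxO, pd_add i d3 (dmul (differentiableAt_const n) d2), e1,
      pd_mul i (differentiableAt_const n) d2, pd_const]
    ring
  have hFmax : IsLocalMax F x := by
    have h1 : ∀ᶠ y in 𝓝 x, y ∈ O := hOo.mem_nhds hxO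
    filter_upwards [h1, hmax] with y hy hle
    have k : ∀ y ∈ O, F y = Real.log (‖ψ y‖ * Real.exp (n * b y)) := by
      intro y hy
      have h0 : 0 < ‖ψ y‖ := norm_pos_iff.mpr (Complex.slitPlane_ne_zero hy.2)
      rw [Real.log_mul h0.ne' (Real.exp_ne_zero _), Real.log_exp, hF]
      simp only [hζ, Complex.log_re]
    rw [k y hy, k x hxO]
    apply Real.log_le_log
    · have h0 : 0 < ‖ψ y‖ := norm_pos_iff.mpr (Complex.slitPlane_ne_zero hy.2)
      positivity
    · simp only [hψ, norm_mul, mul_assoc]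
      exact mul_le_mul_of_nonneg_left hle (norm_nonneg _)
  obtain ⟨f1, f2⟩ := hSDT O hOo F hFs x hxO hFmax
  have g2 := f2 ((β x).re ^ 2 + (β x).im ^ 2) (-(β x).re) 1 (by positivity) zero_le_one
    (by nlinarith [sq_nonneg (β x).im])
  rw [ppF, ppF, ppF] at g2
  have g0 := f1 0
  have g1 := f1 1
  rw [pF 0 x hxO] at g0
  rw [pF 1 x hxO, eqζ x hxO] at g1
  have s0 := second 0
  have s1 := second 1
  rw [hcomm] at s1
  have hi := him x hx
  set z0 := pd 0 ζ x
  set z00 := pd 0 (pd 0 ζ) x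
  set z01 := pd 0 (pd 1 ζ) x
  set z11 := pd 1 (pd 1 ζ) x
  set B := β x
  set B0 := pd 0 β x
  set B1 := pd 1 β x
  set c0 := pd 0 c x
  set c1 := pd 1 c x
  -- the second order combination
  have hre : (B.re ^ 2 + B.im ^ 2) * z00.re - 2 * B.re * z01.re + z11.re
      = ((B1 - conj B * B0) * z0 + (c1 - conj B * c0)).re := by
    have e : (((B.re ^ 2 + B.im ^ 2 : ℝ)) : ℂ) * z00 - ((2 * B.re : ℝ) : ℂ) * z01 + z11
        = (B1 - conj B * B0) * z0 + (c1 - conj B * c0) := by
      have h1 : (((B.re ^ 2 + B.im ^ 2 : ℝ)) : ℂ) = B * conj B := by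
        rw [Complex.mul_conj, Complex.normSq_apply]
        push_cast
        ring
      have h2 : ((2 * B.re : ℝ) : ℂ) = B + conj B := by
        rw [Complex.add_conj]
      rw [h1, h2]
      linear_combination s1 - conj B * s0
    have e2 := congrArg Complex.re e
    rw [Complex.add_re, Complex.sub_re, Complex.re_ofReal_mul, Complex.re_ofReal_mul] at e2
    linarith
  have him0 : z0.im = (B.re * z0.re + (c x).re + n * pd 1 b x) / B.im := by
    rw [Complex.add_re, Complex.mul_re] at g1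
    rw [eq_div_iff hi.ne']
    linarith
  have hr0 : z0.re = - n * pd 0 b x := by linarith
  have hfin : ((B1 - conj B * B0) * z0 + (c1 - conj B * c0)).re
      = n * ((-(B1 - conj B * B0).re + (B1 - conj B * B0).im / B.im * B.re) * pd 0 b x
        + (-((B1 - conj B * B0).im / B.im)) * pd 1 b x)
        + ((c1 - conj B * c0).re - (B1 - conj B * B0).im / B.im * (c x).re) := by
    rw [Complex.add_re, Complex.mul_re, him0, hr0]
    ring
  rw [hfin] at hre
  linarith

lemma form_lower {p q ξ η C : ℝ} (hC : 1 ≤ C) (hq0 : 0 < q) (k3 : 1 + (p ^ 2 + q ^ 2) ≤ C)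
    (k4 : (q ^ 2)⁻¹ ≤ C) :
    (ξ ^ 2 + η ^ 2) / C ^ 2 ≤ (p ^ 2 + q ^ 2) * ξ ^ 2 - 2 * p * ξ * η + η ^ 2 := by
  have h1 : q ^ 2 * (ξ ^ 2 + η ^ 2) ≤
      (1 + (p ^ 2 + q ^ 2)) * ((p ^ 2 + q ^ 2) * ξ ^ 2 - 2 * p * ξ * η + η ^ 2) := by
    nlinarith [sq_nonneg ((p ^ 2 + q ^ 2) * ξ - p * η), sq_nonneg (-p * ξ + η)]
  have h2 : 1 ≤ C * q ^ 2 := by
    have h3 : (q ^ 2)⁻¹ * q ^ 2 ≤ C * q ^ 2 := mul_le_mul_of_nonneg_right k4 (by positivity)
    rwa [inv_mul_cancel₀ (by positivity)] at h3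
  have hnn : 0 ≤ (p ^ 2 + q ^ 2) * ξ ^ 2 - 2 * p * ξ * η + η ^ 2 := by
    nlinarith [sq_nonneg (p * ξ - η), sq_nonneg (q * ξ)]
  rw [div_le_iff₀ (by positivity)]
  have h4 : 0 ≤ ξ ^ 2 + η ^ 2 := by positivity
  calc ξ ^ 2 + η ^ 2 = 1 * (ξ ^ 2 + η ^ 2) := (one_mul _).symm
    _ ≤ C * q ^ 2 * (ξ ^ 2 + η ^ 2) := mul_le_mul_of_nonneg_right h2 h4
    _ = C * (q ^ 2 * (ξ ^ 2 + η ^ 2)) := by ring
    _ ≤ C * ((1 + (p ^ 2 + q ^ 2)) * ((p ^ 2 + q ^ 2) * ξ ^ 2 - 2 * p * ξ * η + η ^ 2)) :=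
        mul_le_mul_of_nonneg_left h1 (by linarith)
    _ ≤ C * (C * ((p ^ 2 + q ^ 2) * ξ ^ 2 - 2 * p * ξ * η + η ^ 2)) := by
        apply mul_le_mul_of_nonneg_left _ (by linarith)
        exact mul_le_mul_of_nonneg_right k3 hnn
    _ = ((p ^ 2 + q ^ 2) * ξ ^ 2 - 2 * p * ξ * η + η ^ 2) * C ^ 2 := by ring

lemma abs_bounds {R ξ η : ℝ} (hR : 0 ≤ R) (h : ξ ^ 2 + η ^ 2 ≤ R ^ 2) : |ξ| ≤ R ∧ |η| ≤ R :=
  ⟨abs_le_of_sq_le_sq (by linarith [sq_nonneg η]) hR, abs_le_of_sq_le_sq (by linarith [sq_nonneg ξ]) hR⟩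

lemma bracket {L X Y C R T l : ℝ} (hL : 0 < L) (h1 : Y ≤ X) (h3 : 2 * L * Y = 1 + C + 2 * C * R)
    (k3 : 1 + T ≤ C) (hlin : l ≤ 2 * C * R) :
    2 * L ≤ 4 * L ^ 2 * X - 2 * L * (1 + T) - 2 * L * l := by
  have h2 : 2 * L * Y ≤ 2 * L * X := mul_le_mul_of_nonneg_left h1 (by positivity)
  rw [h3] at h2
  have h4 : 2 * L * (1 + C + 2 * C * R) ≤ 2 * L * (2 * L * X) :=
    mul_le_mul_of_nonneg_left h2 (by positivity)
  have h5 : 2 * L * (1 + T) ≤ 2 * L * C := mul_le_mul_of_nonneg_left k3 (by positivity)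
  have h6 : 2 * L * l ≤ 2 * L * (2 * C * R) := mul_le_mul_of_nonneg_left hlin (by positivity)
  linarith

/-- if `φ` vanishes near the center of a closed ball in `U` then it vanishes in the ball -/
lemma ball_zero (hSDT : Stmt_SDT) {U : Set E2} (hU : IsOpen U) {β c φ : E2 → ℂ}
    (hβ : ContDiffOn ℝ 1 β U) (hc : ContDiffOn ℝ 1 c U) (hφ : ContDiffOn ℝ 2 φ U)
    (him : ∀ x ∈ U, 0 < (β x).im)
    (heq : ∀ x ∈ U, pd 1 φ x - β x * pd 0 φ x = c x * φ x)
    {z : E2} {R d : ℝ} (hR : Metric.closedBall z R ⊆ U) (hd : 0 < d) (hdR : d ≤ R)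
    (h0 : ∀ x ∈ Metric.ball z d, φ x = 0) : ∀ x ∈ Metric.ball z R, φ x = 0 := by
  have hR0 : 0 < R := hd.trans_le hdR
  set K := Metric.closedBall z R with hK
  have hKc : IsCompact K := isCompact_closedBall z R
  -- the coefficients
  have cβ : ContinuousOn β U := hβ.continuousOn
  have cc : ContinuousOn c U := hc.continuousOn
  have cpβ : ∀ i, ContinuousOn (pd i β) U := fun i =>
    (pd_contDiffOn hU hβ (m := 0) (by norm_num) i).continuousOn
  have cpc : ∀ i, ContinuousOn (pd i c) U := fun i =>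
    (pd_contDiffOn hU hc (m := 0) (by norm_num) i).continuousOn
  set A : E2 → ℂ := fun x => pd 1 β x - conj (β x) * pd 0 β x with hA
  have cA : ContinuousOn A U := (cpβ 1).sub ((Complex.continuous_conj.comp_continuousOn cβ).mul (cpβ 0))
  have cAre : ContinuousOn (fun x => (A x).re) U := Complex.continuous_re.comp_continuousOn cA
  have cAim : ContinuousOn (fun x => (A x).im) U := Complex.continuous_im.comp_continuousOn cA
  have cβre : ContinuousOn (fun x => (β x).re) U := Complex.continuous_re.comp_continuousOn cβ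
  have cβim : ContinuousOn (fun x => (β x).im) U := Complex.continuous_im.comp_continuousOn cβ
  have cquo : ContinuousOn (fun x => (A x).im / (β x).im) U :=
    cAim.div cβim (fun x hx => (him x hx).ne')
  have cl0 : ContinuousOn (fun x => -(A x).re + (A x).im / (β x).im * (β x).re) U :=
    cAre.neg.add (cquo.mul cβre)
  have cl1 : ContinuousOn (fun x => -((A x).im / (β x).im)) U := cquo.neg
  have cm : ContinuousOn (fun x => (pd 1 c x - conj (β x) * pd 0 c x).re
      - (A x).im / (β x).im * (c x).re) U :=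
    (Complex.continuous_re.comp_continuousOn ((cpc 1).sub
      ((Complex.continuous_conj.comp_continuousOn cβ).mul (cpc 0)))).sub
      (cquo.mul (Complex.continuous_re.comp_continuousOn cc))
  have ct : ContinuousOn (fun x => 1 + ((β x).re ^ 2 + (β x).im ^ 2)) U :=
    continuousOn_const.add ((cβre.pow 2).add (cβim.pow 2))
  have cinv : ContinuousOn (fun x => ((β x).im ^ 2)⁻¹) U :=
    (cβim.pow 2).inv₀ (fun x hx => pow_ne_zero 2 (him x hx).ne')
  obtain ⟨C0, hC0⟩ := hKc.exists_bound_of_continuousOn (cl0.mono hR)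
  obtain ⟨C1, hC1⟩ := hKc.exists_bound_of_continuousOn (cl1.mono hR)
  obtain ⟨C2, hC2⟩ := hKc.exists_bound_of_continuousOn (cm.mono hR)
  obtain ⟨C3, hC3⟩ := hKc.exists_bound_of_continuousOn (ct.mono hR)
  obtain ⟨C4, hC4⟩ := hKc.exists_bound_of_continuousOn (cinv.mono hR)
  obtain ⟨M, hM⟩ := hKc.exists_bound_of_continuousOn (hφ.continuousOn.mono hR)
  set C : ℝ := 1 + |C0| + |C1| + |C2| + |C3| + |C4| with hC
  have hC1' : 1 ≤ C := by
    rw [hC]
    have := abs_nonneg C0; have := abs_nonneg C1; have := abs_nonneg C2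
    have := abs_nonneg C3; have := abs_nonneg C4
    linarith
  have bnd : ∀ x ∈ K, |-(A x).re + (A x).im / (β x).im * (β x).re| ≤ C ∧
      |-((A x).im / (β x).im)| ≤ C ∧ |(pd 1 c x - conj (β x) * pd 0 c x).re
      - (A x).im / (β x).im * (c x).re| ≤ C ∧ 1 + ((β x).re ^ 2 + (β x).im ^ 2) ≤ C ∧
      ((β x).im ^ 2)⁻¹ ≤ C := by
    intro x hx
    have a0 := abs_nonneg C0; have a1 := abs_nonneg C1; have a2 := abs_nonneg C2
    have a3 := abs_nonneg C3; have a4 := abs_nonneg C4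
    have b0 := le_abs_self C0; have b1 := le_abs_self C1; have b2 := le_abs_self C2
    have b3 := le_abs_self C3; have b4 := le_abs_self C4
    have e0 := hC0 x hx; have e1 := hC1 x hx; have e2 := hC2 x hx
    have e3 := hC3 x hx; have e4 := hC4 x hx
    rw [Real.norm_eq_abs] at e0 e1 e2 e3 e4
    have k3 := le_abs_self (1 + ((β x).re ^ 2 + (β x).im ^ 2))
    have k4 := le_abs_self (((β x).im ^ 2)⁻¹)
    refine ⟨by linarith, by linarith, by linarith, by linarith, by linarith⟩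
  clear_value C
  -- the parameter of the barrier
  set L : ℝ := (1 + C + 2 * C * R) * C ^ 2 / (2 * d ^ 2) with hL
  have hL0 : 0 < L := by positivity
  have hLd : 2 * L * d ^ 2 / C ^ 2 = 1 + C + 2 * C * R := by
    rw [hL]; field_simp
  set b := bar L z with hb
  have bR : ∀ x, x ∈ K → Real.exp (-L * R ^ 2) ≤ b x := by
    intro x hx
    rw [hb, bar, qq_dist]
    apply Real.exp_le_exp.mpr
    have h1 : dist x z ^ 2 ≤ R ^ 2 := pow_le_pow_left₀ dist_nonneg (Metric.mem_closedBall.mp hx) 2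
    nlinarith
  -- no interior maximum
  have hno : ∀ n : ℝ, C < n * (2 * L * Real.exp (-L * R ^ 2)) → ∀ x ∈ Metric.ball z R, φ x ≠ 0 →
      ¬ IsLocalMax (fun y => ‖φ y‖ * Real.exp (n * b y)) x := by
    intro n hn x hx hφx hmax
    have hxK : x ∈ K := Metric.ball_subset_closedBall hx
    have hxU : x ∈ U := hR hxK
    have key := core hSDT hU hβ hc hφ him heq (contDiff_bar L z) hxU hφx hmax
    obtain ⟨k0, k1, k2, k3, k4⟩ := bnd x hxK
    have hn0 : 0 < n := by
      by_contra hcon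
      push Not at hcon
      have : n * (2 * L * Real.exp (-L * R ^ 2)) ≤ 0 :=
        mul_nonpos_of_nonpos_of_nonneg hcon (by positivity)
      linarith
    have hdx : d ≤ dist x z := by
      by_contra hcon
      push Not at hcon
      exact hφx (h0 x (Metric.mem_ball.mpr hcon))
    have hdR' : dist x z ≤ R := Metric.mem_closedBall.mp hxK
    rw [pd_pd_bar, pd_pd_bar, pd_pd_bar, pd_bar, pd_bar] at key
    simp only [if_true, if_neg (show (0 : Fin 2) ≠ 1 by decide)] at key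
    set ξ := x 0 - z 0 with hξ
    set η := x 1 - z 1 with hη
    have hq : ξ ^ 2 + η ^ 2 = dist x z ^ 2 := by rw [← qq_dist, qq]; ring
    set p := (β x).re
    set q := (β x).im
    have hq0 : 0 < q := him x hxU
    set l0 := -(A x).re + (A x).im / q * p
    set l1 := -((A x).im / q)
    set m := (pd 1 c x - conj (β x) * pd 0 c x).re - (A x).im / q * (c x).re
    have key' : n * (bar L z x * (4 * L ^ 2 * ((p ^ 2 + q ^ 2) * ξ ^ 2 - 2 * p * ξ * η + η ^ 2)
        - 2 * L * (1 + (p ^ 2 + q ^ 2)) - 2 * L * (l0 * ξ + l1 * η))) + m ≤ 0 := by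
      have e : n * ((p ^ 2 + q ^ 2) * (bar L z x * (4 * L ^ 2 * (ξ * ξ) - 2 * L * 1))
          - 2 * p * (bar L z x * (4 * L ^ 2 * (η * ξ) - 2 * L * 0))
          + bar L z x * (4 * L ^ 2 * (η * η) - 2 * L * 1)
          + l0 * (bar L z x * (-L * (2 * ξ))) + l1 * (bar L z x * (-L * (2 * η)))) + m ≤ 0 := key
      refine le_trans (le_of_eq ?_) e
      ring
    -- lower bound of the quadratic form
    have hform : (ξ ^ 2 + η ^ 2) / C ^ 2 ≤ (p ^ 2 + q ^ 2) * ξ ^ 2 - 2 * p * ξ * η + η ^ 2 :=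
      form_lower hC1' hq0 k3 k4
    have hd2 : d ^ 2 ≤ ξ ^ 2 + η ^ 2 := by
      rw [hq]; exact pow_le_pow_left₀ hd.le hdx 2
    obtain ⟨hξR, hηR⟩ := abs_bounds (R := R) (hR0.le) (ξ := ξ) (η := η)
      (by rw [hq]; exact pow_le_pow_left₀ dist_nonneg hdR' 2)
    have hlin : l0 * ξ + l1 * η ≤ 2 * C * R := by
      have h1 : l0 * ξ ≤ C * R := by
        calc l0 * ξ ≤ |l0 * ξ| := le_abs_self _
          _ = |l0| * |ξ| := abs_mul _ _
          _ ≤ C * R := mul_le_mul k0 hξR (abs_nonneg _) (by linarith)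
      have h2 : l1 * η ≤ C * R := by
        calc l1 * η ≤ |l1 * η| := le_abs_self _
          _ = |l1| * |η| := abs_mul _ _
          _ ≤ C * R := mul_le_mul k1 hηR (abs_nonneg _) (by linarith)
      linarith
    have hbr : 2 * L ≤ 4 * L ^ 2 * ((p ^ 2 + q ^ 2) * ξ ^ 2 - 2 * p * ξ * η + η ^ 2)
        - 2 * L * (1 + (p ^ 2 + q ^ 2)) - 2 * L * (l0 * ξ + l1 * η) := by
      have h1 : d ^ 2 / C ^ 2 ≤ (p ^ 2 + q ^ 2) * ξ ^ 2 - 2 * p * ξ * η + η ^ 2 :=
        le_trans (div_le_div_of_nonneg_right hd2 (by positivity)) hform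
      have h3 : 2 * L * (d ^ 2 / C ^ 2) = 1 + C + 2 * C * R := by rw [← hLd]; ring
      exact bracket hL0 h1 h3 k3 hlin
    have hbx : Real.exp (-L * R ^ 2) ≤ bar L z x := bR x hxK
    have hbp : 0 < Real.exp (-L * R ^ 2) := Real.exp_pos _
    have h7 : Real.exp (-L * R ^ 2) * (2 * L) ≤ bar L z x *
        (4 * L ^ 2 * ((p ^ 2 + q ^ 2) * ξ ^ 2 - 2 * p * ξ * η + η ^ 2)
        - 2 * L * (1 + (p ^ 2 + q ^ 2)) - 2 * L * (l0 * ξ + l1 * η)) :=
      mul_le_mul hbx hbr (by positivity) (hbp.le.trans hbx)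
    have h8 := mul_le_mul_of_nonneg_left h7 hn0.le
    have h9 := neg_abs_le m
    have h10 : n * (2 * L * Real.exp (-L * R ^ 2)) = n * (Real.exp (-L * R ^ 2) * (2 * L)) := by ring
    rw [h10] at hn
    linarith
  -- the estimate
  have hest : ∀ n : ℝ, C < n * (2 * L * Real.exp (-L * R ^ 2)) → ∀ x ∈ K,
      ‖φ x‖ * Real.exp (n * b x) ≤ M * Real.exp (n * Real.exp (-L * R ^ 2)) := by
    intro n hn x hx
    have hM0 : 0 ≤ M := (norm_nonneg _).trans (hM x hx)
    have hcont : ContinuousOn (fun y => ‖φ y‖ * Real.exp (n * b y)) K :=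
      (hφ.continuousOn.mono hR).norm.mul
        (Real.continuous_exp.comp_continuousOn
          (continuousOn_const.mul (contDiff_bar L z (n := 2)).continuous.continuousOn))
    obtain ⟨y, hyK, hymax⟩ := hKc.exists_isMaxOn ⟨x, hx⟩ hcont
    have hxy : ‖φ x‖ * Real.exp (n * b x) ≤ ‖φ y‖ * Real.exp (n * b y) := hymax hx
    refine hxy.trans ?_
    by_cases hφy : φ y = 0
    · rw [hφy, norm_zero, zero_mul]; positivity
    · by_cases hyb : y ∈ Metric.ball z R
      · exfalso
        refine hno n hn y hyb hφy ?_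
        exact hymax.isLocalMax (mem_of_superset (Metric.isOpen_ball.mem_nhds hyb)
          Metric.ball_subset_closedBall)
      · have hyR : dist y z = R :=
          le_antisymm (Metric.mem_closedBall.mp hyK) (not_lt.mp (fun h => hyb (Metric.mem_ball.mpr h)))
        have : b y = Real.exp (-L * R ^ 2) := by rw [hb, bar, qq_dist, hyR]
        rw [this]
        exact mul_le_mul_of_nonneg_right (hM y hyK) (Real.exp_pos _).le
  intro x hx
  have hxK : x ∈ K := Metric.ball_subset_closedBall hx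
  have hδ : 0 < b x - Real.exp (-L * R ^ 2) := by
    rw [sub_pos, hb, bar, qq_dist]
    apply Real.exp_lt_exp.mpr
    have h1 : dist x z ^ 2 < R ^ 2 := pow_lt_pow_left₀ (Metric.mem_ball.mp hx) dist_nonneg two_ne_zero
    nlinarith
  set δ := b x - Real.exp (-L * R ^ 2) with hδdef
  have hle : ∀ᶠ n : ℝ in atTop, ‖φ x‖ ≤ M * Real.exp (-(n * δ)) := by
    have hpos : 0 < 2 * L * Real.exp (-L * R ^ 2) := by positivity
    filter_upwards [eventually_gt_atTop (C / (2 * L * Real.exp (-L * R ^ 2)))] with n hn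
    rw [div_lt_iff₀ hpos] at hn
    have h1 := hest n hn x hxK
    have h2 : M * Real.exp (n * Real.exp (-L * R ^ 2)) =
        M * Real.exp (-(n * δ)) * Real.exp (n * b x) := by
      rw [mul_assoc, ← Real.exp_add, hδdef]
      congr 2
      ring
    rw [h2] at h1
    exact le_of_mul_le_mul_right h1 (Real.exp_pos _)
  have hlim : Tendsto (fun n : ℝ => M * Real.exp (-(n * δ))) atTop (𝓝 0) := by
    have h1 : Tendsto (fun n : ℝ => n * δ) atTop atTop := tendsto_id.atTop_mul_const hδ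
    have h2 : Tendsto (fun n : ℝ => Real.exp (-(n * δ))) atTop (𝓝 0) :=
      Real.tendsto_exp_neg_atTop_nhds_zero.comp h1
    have := h2.const_mul M
    rwa [mul_zero] at this
  have h3 : ‖φ x‖ ≤ 0 := ge_of_tendsto hlim hle
  exact norm_le_zero_iff.mp h3

end UCP

open UCP in
theorem blk_UCP (hSDT : Stmt_SDT) : Stmt_UCP := by
  intro U hU hUc β c φ hβ hc hφ him heq O hO hOne hOU hzero
  set u : Set E2 := {x | ∀ᶠ y in 𝓝 x, φ y = 0} with hu
  have huo : IsOpen u := isOpen_setOfPred_eventually_nhds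
  have hOu : O ⊆ u := fun x hx => mem_of_superset (hO.mem_nhds hx) hzero
  have hsub : U ⊆ u := by
    refine hUc.subset_of_closure_inter_subset huo ?_ ?_
    · obtain ⟨x, hx⟩ := hOne
      exact ⟨x, hOU hx, hOu hx⟩
    · rintro x ⟨hxc, hxU⟩
      obtain ⟨r, hr, hrU⟩ := Metric.isOpen_iff.mp hU x hxU
      obtain ⟨z, hz, hzx⟩ := Metric.mem_closure_iff.mp hxc (r / 4) (by positivity)
      obtain ⟨d, hd, hdz⟩ := Metric.eventually_nhds_iff_ball.mp hz
      have hball : Metric.closedBall z (r / 2) ⊆ U := by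
        intro y hy
        apply hrU
        rw [Metric.mem_ball]
        have h1 := Metric.mem_closedBall.mp hy
        have h2 := dist_triangle y z x
        rw [dist_comm] at hzx
        linarith
      have hmin : 0 < min d (r / 2) := lt_min hd (by positivity)
      have h := ball_zero hSDT hU hβ hc hφ him heq hball hmin (min_le_right _ _)
        (fun y hy => hdz y (Metric.ball_subset_ball (min_le_left _ _) hy))
      refine mem_of_superset (Metric.isOpen_ball.mem_nhds ?_) h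
      rw [Metric.mem_ball]
      linarith
  intro x hx
  exact (hsub hx).self_of_nhds

end Pool.FR
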