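import Pool.Agent.Work.MP_02e829_fr.Interface

open Set Matrix
open scoped Topology ContDiff

set_option autoImplicit false

namespace Pool.FR

namespace WEI22

theorem gg_symm (F : E2 → V3) (i j : Fin 2) (x : E2) : gg F i j x = gg F j i x :=
  dotProduct_comm _ _

theorem key (hFRM : Stmt_FRM) (U : Set E2) (hU : IsOpen U) (F : E2 → V3) (hF : Imm F U) (x : E2)
    (hx : x ∈ U) (i j : Fin 2) :
    III F i j x = (gg F 1 1 x * II F i 0 x * II F j 0 x - gg F 0 1 x * II F i 1 x * II F j 0 x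
      + gg F 0 0 x * II F i 1 x * II F j 1 x - gg F 0 1 x * II F i 0 x * II F j 1 x)
        / DD F x := by
  obtain ⟨_, _, _, hdec, _, _, hNN, hw, _, _⟩ := hFRM U hU F hF x hx
  have hD : DD F x ≠ 0 := (hF.pos x hx).ne'
  have h1 := hdec (pd i (NN F) x)
  rw [hw i 0, hw i 1, hNN i] at h1
  have h2 : III F i j x = pd i (NN F) x ⬝ᵥ pd j (NN F) x := rfl
  have h3 : pd 0 F x ⬝ᵥ pd j (NN F) x = - II F j 0 x := by
    rw [dotProduct_comm]; exact hw j 0
  have h4 : pd 1 F x ⬝ᵥ pd j (NN F) x = - II F j 1 x := by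
    rw [dotProduct_comm]; exact hw j 1
  rw [h2, h1, add_dotProduct, add_dotProduct, smul_dotProduct, smul_dotProduct, smul_dotProduct,
    h3, h4]
  simp only [smul_eq_mul, zero_mul, add_zero]
  field_simp
  ring

end WEI22

theorem blk_WEI (hFRM : Stmt_FRM) : Stmt_WEI := by
  intro U hU F hF x hx
  obtain ⟨_, _, _, _, hsym, _, _, _, _, _⟩ := hFRM U hU F hF x hx
  have hD : DD F x ≠ 0 := (hF.pos x hx).ne'
  have h10 : gg F 1 0 x = gg F 0 1 x := WEI22.gg_symm F 1 0 x
  have hs := hsym 1 0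
  have hk := WEI22.key hFRM U hU F hF x hx
  rw [Fin.forall_fin_two, Fin.forall_fin_two, Fin.forall_fin_two]
  refine ⟨⟨?_, ?_⟩, ⟨?_, ?_⟩⟩
  · rw [hk, tau, del]
    field_simp
    ring
  · rw [hk, tau, del, hs]
    field_simp
    ring
  · rw [hk, tau, del, hs, h10]
    field_simp
    ring
  · rw [hk, tau, del, hs]
    field_simp
    ring

end Pool.FR
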