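import Pool.Agent.Work.MP_02e829_fr.Interface

/-!
# Block ALGU: a bounded polynomial on an affine variety takes finitely many values
-/

set_option autoImplicit false

namespace Pool.FR

open MvPolynomial Cardinal

namespace Algu

/-- Nullstellensatz: if `eqs` and `φ - c` have no common zero then `φ - c` is invertible
modulo `eqs`. -/
theorem exists_inv {σ : Type} [Finite σ] (eqs : Set (MvPolynomial σ ℂ)) (φ : MvPolynomial σ ℂ)
    (c : ℂ) (h : ∀ z : σ → ℂ, (∀ p ∈ eqs, eval z p = 0) → eval z φ ≠ c) :
    ∃ q : MvPolynomial σ ℂ, q * (φ - C c) - 1 ∈ Ideal.span eqs := by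
  have h0 : zeroLocus ℂ (Ideal.span (insert (φ - C c) eqs)) = (∅ : Set (σ → ℂ)) := by
    rw [Set.eq_empty_iff_forall_notMem]
    intro z hz
    rw [zeroLocus_span] at hz
    refine h z ?_ ?_
    · intro p hp
      have := hz p (Set.mem_insert_of_mem _ hp)
      exact this
    · have := hz (φ - C c) (Set.mem_insert _ _)
      have h1 : eval z (φ - C c) = 0 := this
      have h2 : eval z φ - c = 0 := by
        simpa only [map_sub, eval_C] using h1
      linear_combination h2
  have h1 := vanishingIdeal_zeroLocus_eq_radical (K := ℂ) (Ideal.span (insert (φ - C c) eqs))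
  rw [h0] at h1
  have h2 : (1 : MvPolynomial σ ℂ) ∈ (Ideal.span (insert (φ - C c) eqs)).radical := by
    rw [← h1]
    rw [vanishingIdeal_empty]
    trivial
  have h3 : (1 : MvPolynomial σ ℂ) ∈ Ideal.span (insert (φ - C c) eqs) := by
    obtain ⟨n, hn⟩ := h2
    simpa using hn
  rw [Ideal.span_insert, Ideal.mem_span_singleton_sup] at h3
  obtain ⟨a, b, hb, hab⟩ := h3
  refine ⟨a, ?_⟩
  have : a * (φ - C c) - 1 = - b := by linear_combination hab
  rw [this]
  exact (Ideal.span eqs).neg_mem hb

end Algu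

open Algu in
theorem blk_ALGU : Stmt_ALGU := by
  intro σ _ eqs φ M hM
  classical
  have hq : ∀ c : {c : ℂ // M < ‖c‖}, ∃ q : MvPolynomial σ ℂ,
      q * (φ - C c.1) - 1 ∈ Ideal.span eqs := by
    intro c
    refine exists_inv eqs φ c.1 ?_
    intro z hz h
    have := hM z hz
    rw [h] at this
    exact absurd c.2 (not_lt.2 this)
  choose q hq using hq
  -- linear dependence
  have hdep : ¬ LinearIndependent ℂ
      (fun c : {c : ℂ // M < ‖c‖} => (Submodule.mkQ ((Ideal.span eqs).restrictScalars ℂ) (q c))) := by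
    intro hli
    have h1 := hli.cardinal_le_rank
    have h2 : Module.rank ℂ (MvPolynomial σ ℂ ⧸ ((Ideal.span eqs).restrictScalars ℂ)) ≤ ℵ₀ := by
      refine (rank_quotient_le _).trans ?_
      have h3 := (MvPolynomial.basisMonomials σ ℂ).mk_eq_rank''
      rw [← h3]
      have : Countable (σ →₀ ℕ) := by infer_instance
      exact Cardinal.mk_le_aleph0
    have h3 : #{c : ℂ // M < ‖c‖} ≤ ℵ₀ := h1.trans h2
    have h4 : Set.Countable {c : ℂ | M < ‖c‖} := by
      rw [← Cardinal.le_aleph0_iff_set_countable]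
      exact h3
    have h5 := h4.dense_compl ℝ
    have h6 : IsOpen {c : ℂ | M < ‖c‖} := isOpen_lt continuous_const continuous_norm
    have h7 : ({c : ℂ | M < ‖c‖}).Nonempty := by
      refine ⟨((|M| + 1 : ℝ) : ℂ), ?_⟩
      simp only [Set.mem_ofPred_eq, Complex.norm_real, Real.norm_eq_abs]
      rw [abs_of_pos (by positivity)]
      linarith [le_abs_self M]
    obtain ⟨x, hx1, hx2⟩ := h5.inter_open_nonempty _ h6 h7
    exact hx2 hx1
  rw [linearIndependent_iff'] at hdep
  push Not at hdep
  obtain ⟨s, a, hsum, c0, hc0, ha0⟩ := hdep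
  -- the polynomial
  set P : Polynomial ℂ := ∑ c ∈ s, Polynomial.C (a c) * ∏ c' ∈ s.erase c, (Polynomial.X - Polynomial.C c'.1)
    with hP
  have hP0 : P ≠ 0 := by
    intro h
    have h1 : P.eval c0.1 = 0 := by rw [h]; simp
    rw [hP, Polynomial.eval_finsetSum, Finset.sum_eq_single c0] at h1
    · rw [Polynomial.eval_mul, Polynomial.eval_C, Polynomial.eval_prod] at h1
      rcases mul_eq_zero.1 h1 with h2 | h2
      · exact ha0 h2
      · rw [Finset.prod_eq_zero_iff] at h2
        obtain ⟨c', hc', h3⟩ := h2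
        simp only [Polynomial.eval_sub, Polynomial.eval_X, Polynomial.eval_C] at h3
        apply (Finset.mem_erase.1 hc').1
        apply Subtype.ext
        linear_combination -h3
    · intro c hc hne
      rw [Polynomial.eval_mul, Polynomial.eval_prod]
      rw [Finset.prod_eq_zero (i := c0) (Finset.mem_erase.2 ⟨hne.symm, hc0⟩) (by simp), mul_zero]
    · intro h
      exact absurd hc0 h
  have hmem : ∑ c ∈ s, a c • q c ∈ Ideal.span eqs := by
    have h1 : Submodule.mkQ ((Ideal.span eqs).restrictScalars ℂ) (∑ c ∈ s, a c • q c) = 0 := by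
      rw [map_sum]
      simpa only [map_smul] using hsum
    rw [Submodule.mkQ_apply, Submodule.Quotient.mk_eq_zero] at h1
    exact h1
  have hvan : ∀ z : σ → ℂ, (∀ p ∈ eqs, eval z p = 0) → ∀ p ∈ Ideal.span eqs, eval z p = 0 := by
    intro z hz p hp
    have : Ideal.span eqs ≤ RingHom.ker (eval z) := Ideal.span_le.2 (fun p hp => hz p hp)
    exact this hp
  refine Set.Finite.subset (P.roots.toFinset.finite_toSet) ?_
  rintro w ⟨z, hz, rfl⟩
  simp only [Finset.mem_coe, Multiset.mem_toFinset]
  rw [Polynomial.mem_roots hP0, Polynomial.IsRoot.def]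
  set w := eval z φ with hw
  have hinv : ∀ c : {c : ℂ // M < ‖c‖}, eval z (q c) * (w - c.1) = 1 := by
    intro c
    have := hvan z hz _ (hq c)
    simp only [map_sub, map_mul, eval_C, map_one] at this
    linear_combination this
  have hs0 : ∑ c ∈ s, a c * eval z (q c) = 0 := by
    have := hvan z hz _ hmem
    rw [map_sum] at this
    simpa [smul_eval] using this
  rw [hP, Polynomial.eval_finsetSum]
  have h3 : ∀ c ∈ s, Polynomial.eval w (Polynomial.C (a c) *
      ∏ c' ∈ s.erase c, (Polynomial.X - Polynomial.C c'.1)) =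
      (∏ c' ∈ s, (w - c'.1)) * (a c * eval z (q c)) := by
    intro c hc
    rw [Polynomial.eval_mul, Polynomial.eval_C, Polynomial.eval_prod, ← Finset.mul_prod_erase s _ hc]
    simp only [Polynomial.eval_sub, Polynomial.eval_X, Polynomial.eval_C]
    linear_combination (-(a c * ∏ x ∈ s.erase c, (w - x.1))) * hinv c
  rw [Finset.sum_congr rfl h3, ← Finset.mul_sum, hs0, mul_zero]

end Pool.FR
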