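import Mathlib

/-!
# Isometric deformations of finite rank: definitions and the calculus toolkit

Everything local happens on an open subset `U` of `E2 = EuclideanSpace ℝ (Fin 2)`; `pd i f` is the
partial derivative of `f` in the direction of the `i`-th coordinate.  Vectors of `ℝ³` are
`Fin 3 → ℝ` with `⬝ᵥ` and `⨯₃`.
-/

open Set Matrix
open scoped Topology ContDiff

set_option autoImplicit false

namespace Pool.FR

abbrev E2 := EuclideanSpace ℝ (Fin 2)
abbrev V3 := Fin 3 → ℝ

/-- the coordinate vectors -/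
noncomputable def ee (i : Fin 2) : E2 := EuclideanSpace.single i (1 : ℝ)

section calculus

variable {G : Type*} [NormedAddCommGroup G] [NormedSpace ℝ G]
variable {G' : Type*} [NormedAddCommGroup G'] [NormedSpace ℝ G']

/-- the partial derivative -/
noncomputable def pd (i : Fin 2) (f : E2 → G) (x : E2) : G := fderiv ℝ f x (ee i)

theorem pd_congr {U : Set E2} (hU : IsOpen U) {f g : E2 → G} (h : ∀ x ∈ U, f x = g x)
    (i : Fin 2) {x : E2} (hx : x ∈ U) : pd i f x = pd i g x := by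
  have h1 : f =ᶠ[𝓝 x] g := Filter.eventuallyEq_of_mem (hU.mem_nhds hx) h
  rw [pd, pd, h1.fderiv_eq]

theorem pd_contDiffOn {U : Set E2} (hU : IsOpen U) {f : E2 → G} {n m : WithTop ℕ∞}
    (hf : ContDiffOn ℝ n f U) (hmn : m + 1 ≤ n) (i : Fin 2) : ContDiffOn ℝ m (pd i f) U := by
  have h1 : ContDiffOn ℝ m (fderiv ℝ f) U := hf.fderiv_of_isOpen hU hmn
  exact h1.clm_apply contDiffOn_const

theorem diff_at {U : Set E2} (hU : IsOpen U) {f : E2 → G} {n : WithTop ℕ∞}
    (hf : ContDiffOn ℝ n f U) (hn : 1 ≤ n) {x : E2} (hx : x ∈ U) : DifferentiableAt ℝ f x := by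
  have hn0 : n ≠ 0 := by
    rintro rfl
    exact absurd hn (by norm_num)
  exact ((hf x hx).contDiffAt (hU.mem_nhds hx)).differentiableAt hn0

theorem pd_comm {U : Set E2} (hU : IsOpen U) {f : E2 → G} {n : WithTop ℕ∞}
    (hf : ContDiffOn ℝ n f U) (hn : 2 ≤ n) (i j : Fin 2) {x : E2} (hx : x ∈ U) :
    pd i (pd j f) x = pd j (pd i f) x := by
  have hc : ContDiffAt ℝ n f x := (hf x hx).contDiffAt (hU.mem_nhds hx)
  have h1 : ContDiffOn ℝ 1 (fderiv ℝ f) U := hf.fderiv_of_isOpen hU (by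
    refine le_trans ?_ hn
    norm_num)
  have hd : DifferentiableAt ℝ (fderiv ℝ f) x := diff_at hU h1 le_rfl hx
  have key : ∀ a b : Fin 2, pd a (pd b f) x = fderiv ℝ (fderiv ℝ f) x (ee a) (ee b) := by
    intro a b
    have h2 : pd b f = fun y => fderiv ℝ f y (ee b) := rfl
    rw [pd, h2, fderiv_clm_apply hd (differentiableAt_const _)]
    simp
  rw [key, key]
  have hs : IsSymmSndFDerivAt ℝ f x := by
    refine hc.isSymmSndFDerivAt ?_
    rw [minSmoothness_of_isRCLikeNormedField]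
    exact hn
  exact hs (ee i) (ee j)

theorem pd_const (i : Fin 2) (c : G) (x : E2) : pd i (fun _ => c) x = 0 := by
  simp [pd]

theorem pd_add (i : Fin 2) {f g : E2 → G} {x : E2} (hf : DifferentiableAt ℝ f x)
    (hg : DifferentiableAt ℝ g x) : pd i (fun y => f y + g y) x = pd i f x + pd i g x := by
  rw [pd, fderiv_fun_add hf hg]
  rfl

theorem pd_sub (i : Fin 2) {f g : E2 → G} {x : E2} (hf : DifferentiableAt ℝ f x)
    (hg : DifferentiableAt ℝ g x) : pd i (fun y => f y - g y) x = pd i f x - pd i g x := by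
  rw [pd, fderiv_fun_sub hf hg]
  rfl

theorem pd_neg (i : Fin 2) {f : E2 → G} {x : E2} : pd i (fun y => - f y) x = - pd i f x := by
  rw [pd, fderiv_fun_neg]
  rfl

/-- a continuous linear map commutes with the partial derivatives -/
theorem pd_clm (i : Fin 2) (L : G →L[ℝ] G') {f : E2 → G} {x : E2} (hf : DifferentiableAt ℝ f x) :
    pd i (fun y => L (f y)) x = L (pd i f x) := by
  have : fderiv ℝ (fun y => L (f y)) x = L.comp (fderiv ℝ f x) :=
    (L.hasFDerivAt.comp x hf.hasFDerivAt).fderiv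
  rw [pd, this]
  rfl

/-- the product rule for a continuous bilinear map -/
theorem pd_bilin {G'' : Type*} [NormedAddCommGroup G''] [NormedSpace ℝ G'']
    (i : Fin 2) (B : G →L[ℝ] G' →L[ℝ] G'') {f : E2 → G} {g : E2 → G'} {x : E2}
    (hf : DifferentiableAt ℝ f x) (hg : DifferentiableAt ℝ g x) :
    pd i (fun y => B (f y) (g y)) x = B (pd i f x) (g x) + B (f x) (pd i g x) := by
  have h := (B.hasFDerivAt_of_bilinear hf.hasFDerivAt hg.hasFDerivAt).fderiv
  rw [pd, h]
  simp only [ContinuousLinearMap.precompR_apply, ContinuousLinearMap.precompL_apply,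
    _root_.add_apply, pd]
  rw [add_comm]
  rfl

theorem pd_mul (i : Fin 2) {f g : E2 → ℝ} {x : E2} (hf : DifferentiableAt ℝ f x)
    (hg : DifferentiableAt ℝ g x) :
    pd i (fun y => f y * g y) x = pd i f x * g x + f x * pd i g x :=
  pd_bilin i (ContinuousLinearMap.mul ℝ ℝ) hf hg

theorem pd_cmul (i : Fin 2) {f g : E2 → ℂ} {x : E2} (hf : DifferentiableAt ℝ f x)
    (hg : DifferentiableAt ℝ g x) :
    pd i (fun y => f y * g y) x = pd i f x * g x + f x * pd i g x :=
  pd_bilin i (ContinuousLinearMap.mul ℝ ℂ) hf hg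

theorem pd_smul (i : Fin 2) {f : E2 → ℝ} {g : E2 → G} {x : E2} (hf : DifferentiableAt ℝ f x)
    (hg : DifferentiableAt ℝ g x) :
    pd i (fun y => f y • g y) x = pd i f x • g x + f x • pd i g x :=
  pd_bilin i (ContinuousLinearMap.lsmul ℝ ℝ) hf hg

/-- components -/
theorem pd_apply (i : Fin 2) {ι : Type*} [Fintype ι] {f : E2 → ι → ℝ} {x : E2}
    (hf : DifferentiableAt ℝ f x) (a : ι) : pd i (fun y => f y a) x = pd i f x a :=
  pd_clm i (ContinuousLinearMap.proj (R := ℝ) (φ := fun _ : ι => ℝ) a) hf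

theorem pd_pi (i : Fin 2) {ι : Type*} [Fintype ι] {f : E2 → ι → ℝ} {x : E2}
    (hf : ∀ a, DifferentiableAt ℝ (fun y => f y a) x) (a : ι) :
    pd i f x a = pd i (fun y => f y a) x :=
  (pd_apply i (differentiableAt_pi.2 hf) a).symm

/-- a function whose partial derivatives vanish on a preconnected open set is constant -/
theorem eq_const_of_pd {U : Set E2} (hU : IsOpen U) (hc : IsPreconnected U) {f : E2 → G}
    (hf : ∀ x ∈ U, DifferentiableAt ℝ f x) (h : ∀ x ∈ U, ∀ i, pd i f x = 0) :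
    ∃ c, ∀ x ∈ U, f x = c := by
  have h0 : ∀ x ∈ U, fderiv ℝ f x = 0 := by
    intro x hx
    refine ContinuousLinearMap.ext fun v => ?_
    have hv : v = ∑ i, v i • ee i := by
      ext j
      fin_cases j <;> simp [ee]
    rw [hv, map_sum]
    simp only [map_smul]
    refine Finset.sum_eq_zero fun i _ => ?_
    have := h x hx i
    rw [pd] at this
    rw [this, smul_zero]
  exact hU.exists_is_const_of_fderiv_eq_zero hc (fun x hx => (hf x hx).differentiableWithinAt) h0

end calculus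

section surfaces

theorem pd_dot (i : Fin 2) {ι : Type*} [Fintype ι] {f g : E2 → ι → ℝ} {x : E2}
    (hf : DifferentiableAt ℝ f x) (hg : DifferentiableAt ℝ g x) :
    pd i (fun y => f y ⬝ᵥ g y) x = pd i f x ⬝ᵥ g x + f x ⬝ᵥ pd i g x := by
  have hf' := differentiableAt_pi.1 hf
  have hg' := differentiableAt_pi.1 hg
  have h1 : (fun y => f y ⬝ᵥ g y) = fun y => ∑ a, f y a * g y a := rfl
  have h2 : pd i (fun y => ∑ a, f y a * g y a) x = ∑ a, pd i (fun y => f y a * g y a) x := by
    have hs : ∀ a ∈ (Finset.univ : Finset ι), DifferentiableAt ℝ (fun y => f y a * g y a) x :=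
      fun a _ => (hf' a).mul (hg' a)
    rw [pd, fderiv_fun_sum hs, _root_.sum_apply]
    rfl
  rw [h1, h2, dotProduct, dotProduct, ← Finset.sum_add_distrib]
  refine Finset.sum_congr rfl fun a _ => ?_
  rw [pd_mul i (hf' a) (hg' a), pd_apply i hf, pd_apply i hg]

theorem pd_cross (i : Fin 2) {f g : E2 → V3} {x : E2}
    (hf : DifferentiableAt ℝ f x) (hg : DifferentiableAt ℝ g x) :
    pd i (fun y => f y ⨯₃ g y) x = pd i f x ⨯₃ g x + f x ⨯₃ pd i g x := by
  have hf' := differentiableAt_pi.1 hf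
  have hg' := differentiableAt_pi.1 hg
  have hd : ∀ a b : Fin 3, pd i (fun y => f y a * g y b) x =
      pd i f x a * g x b + f x a * pd i g x b := by
    intro a b
    rw [pd_mul i (hf' a) (hg' b), pd_apply i hf, pd_apply i hg]
  have hD : ∀ a b : Fin 3, DifferentiableAt ℝ (fun y => f y a * g y b) x :=
    fun a b => (hf' a).mul (hg' b)
  have hcr : ∀ y, f y ⨯₃ g y = ![f y 1 * g y 2 - f y 2 * g y 1, f y 2 * g y 0 - f y 0 * g y 2,
      f y 0 * g y 1 - f y 1 * g y 0] := fun y => cross_apply _ _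
  have hdiff : ∀ a, DifferentiableAt ℝ (fun y => (f y ⨯₃ g y) a) x := by
    intro a
    simp only [hcr]
    fin_cases a
    · exact (hD 1 2).sub (hD 2 1)
    · exact (hD 2 0).sub (hD 0 2)
    · exact (hD 0 1).sub (hD 1 0)
  ext a
  rw [pd_pi i hdiff, cross_apply, cross_apply]
  simp only [hcr]
  fin_cases a
  · change pd i (fun y => f y 1 * g y 2 - f y 2 * g y 1) x = _
    rw [pd_sub i (hD 1 2) (hD 2 1), hd, hd]
    simp
    ring
  · change pd i (fun y => f y 2 * g y 0 - f y 0 * g y 2) x = _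
    rw [pd_sub i (hD 2 0) (hD 0 2), hd, hd]
    simp
    ring
  · change pd i (fun y => f y 0 * g y 1 - f y 1 * g y 0) x = _
    rw [pd_sub i (hD 0 1) (hD 1 0), hd, hd]
    simp
    ring

theorem contDiffOn_dot {ι : Type*} [Fintype ι] {n : WithTop ℕ∞} {U : Set E2} {f g : E2 → ι → ℝ}
    (hf : ContDiffOn ℝ n f U) (hg : ContDiffOn ℝ n g U) :
    ContDiffOn ℝ n (fun y => f y ⬝ᵥ g y) U := by
  have hf' := contDiffOn_pi.1 hf
  have hg' := contDiffOn_pi.1 hg
  have h1 : (fun y => f y ⬝ᵥ g y) = fun y => ∑ a, f y a * g y a := rfl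
  rw [h1]
  exact ContDiffOn.sum fun a _ => (hf' a).mul (hg' a)

theorem contDiffOn_cross {n : WithTop ℕ∞} {U : Set E2} {f g : E2 → V3}
    (hf : ContDiffOn ℝ n f U) (hg : ContDiffOn ℝ n g U) :
    ContDiffOn ℝ n (fun y => f y ⨯₃ g y) U := by
  have hf' := contDiffOn_pi.1 hf
  have hg' := contDiffOn_pi.1 hg
  have hcr : ∀ y, f y ⨯₃ g y = ![f y 1 * g y 2 - f y 2 * g y 1, f y 2 * g y 0 - f y 0 * g y 2,
      f y 0 * g y 1 - f y 1 * g y 0] := fun y => cross_apply _ _
  simp only [hcr]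
  rw [contDiffOn_pi]
  intro a
  fin_cases a
  · exact ((hf' 1).mul (hg' 2)).sub ((hf' 2).mul (hg' 1))
  · exact ((hf' 2).mul (hg' 0)).sub ((hf' 0).mul (hg' 2))
  · exact ((hf' 0).mul (hg' 1)).sub ((hf' 1).mul (hg' 0))

/-- the metric -/
noncomputable def gg (F : E2 → V3) (i j : Fin 2) (x : E2) : ℝ := pd i F x ⬝ᵥ pd j F x

/-- the normal vector `F_0 × F_1` -/
noncomputable def WW (F : E2 → V3) (x : E2) : V3 := pd 0 F x ⨯₃ pd 1 F x

/-- the determinant of the metric -/
noncomputable def DD (F : E2 → V3) (x : E2) : ℝ := gg F 0 0 x * gg F 1 1 x - gg F 0 1 x ^ 2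

/-- the unit normal -/
noncomputable def NN (F : E2 → V3) (x : E2) : V3 := (Real.sqrt (DD F x))⁻¹ • WW F x

/-- the second fundamental form -/
noncomputable def II (F : E2 → V3) (i j : Fin 2) (x : E2) : ℝ := pd i (pd j F) x ⬝ᵥ NN F x

/-- the third fundamental form -/
noncomputable def III (F : E2 → V3) (i j : Fin 2) (x : E2) : ℝ := pd i (NN F) x ⬝ᵥ pd j (NN F) x

/-- the trace of the second fundamental form (twice the mean curvature) -/
noncomputable def tau (F : E2 → V3) (x : E2) : ℝ :=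
  (gg F 1 1 x * II F 0 0 x - 2 * gg F 0 1 x * II F 0 1 x + gg F 0 0 x * II F 1 1 x) / DD F x

/-- the determinant of the shape operator -/
noncomputable def del (F : E2 → V3) (x : E2) : ℝ :=
  (II F 0 0 x * II F 1 1 x - II F 0 1 x ^ 2) / DD F x

/-- an immersion of class `C^4` on `U` -/
structure Imm (F : E2 → V3) (U : Set E2) : Prop where
  smooth : ContDiffOn ℝ 4 F U
  pos : ∀ x ∈ U, 0 < DD F x

end surfaces

end Pool.FR
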