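import Pool.Agent.Work.MP_02e829_fr.Base

/-!
# Isometric deformations of finite rank are trivial: the blocks

Every block is a `Prop` `Stmt_...`.  Proofs on paper: `BLUEPRINT.md`.
-/

open Set Matrix Filter
open scoped Topology ContDiff

set_option autoImplicit false

namespace Pool.FR

/-! ### Algebra at infinity -/

/-- BLOCK ALGU: a bounded polynomial on an affine variety takes finitely many values. -/
def Stmt_ALGU : Prop := ∀ (σ : Type) [Finite σ] (eqs : Set (MvPolynomial σ ℂ))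
    (φ : MvPolynomial σ ℂ) (M : ℝ),
    (∀ z : σ → ℂ, (∀ p ∈ eqs, MvPolynomial.eval z p = 0) → ‖MvPolynomial.eval z φ‖ ≤ M) →
    Set.Finite {w : ℂ | ∃ z : σ → ℂ, (∀ p ∈ eqs, MvPolynomial.eval z p = 0) ∧
      MvPolynomial.eval z φ = w}

/-- BLOCK FDL: sequences in a finite dimensional space of continuous functions which are
pointwise bounded on a dense set are pointwise bounded. -/
def Stmt_FDL : Prop := ∀ (Y : Type) [TopologicalSpace Y] (ι : Type) [Fintype ι]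
    (w : ι → Y → ℂ), (∀ i, Continuous (w i)) → ∀ S : Set Y, Dense S → ∀ k : ℕ → ι → ℂ,
    (∀ s ∈ S, ∃ M : ℝ, ∀ n, ‖∑ i, k n i * w i s‖ ≤ M) →
    ∀ y, ∃ M : ℝ, ∀ n, ‖∑ i, k n i * w i y‖ ≤ M

/-- No nontrivial linear combination of the components of `u` is constant on a nonempty open
subset of `U`. -/
def UC {N : ℕ} (u : E2 → Fin N → ℝ) (U : Set E2) : Prop :=
  ∀ (k : Fin N → ℝ) (O : Set E2), IsOpen O → O.Nonempty → O ⊆ U →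
    (∃ c : ℝ, ∀ x ∈ O, k ⬝ᵥ u x = c) → k = 0

/-- the bilinear form of a matrix -/
def bf {N : ℕ} (B : Matrix (Fin N) (Fin N) ℂ) (x y : Fin N → ℂ) : ℂ := x ⬝ᵥ B *ᵥ y

/-- real vectors as complex vectors -/
def cx {N : ℕ} (x : Fin N → ℝ) : Fin N → ℂ := fun a => (x a : ℂ)

/-- BLOCK KOS: the Koszul formula. -/
def Stmt_KOS : Prop := ∀ (U : Set E2), IsOpen U → ∀ (N : ℕ) (u : E2 → Fin N → ℝ),
    ContDiffOn ℝ 2 u U → ∀ B : Matrix (Fin N) (Fin N) ℂ, B.IsSymm →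
    (∀ x ∈ U, ∀ i j, bf B (cx (pd i u x)) (cx (pd j u x)) = 0) →
    ∀ x ∈ U, ∀ i j k, bf B (cx (pd i (pd j u) x)) (cx (pd k u x)) = 0

/-- BLOCK LOA: the second derivatives are not isotropic on a dense set. -/
def Stmt_LOA : Prop := ∀ (U : Set E2), IsOpen U → ∀ (N : ℕ) (u : E2 → Fin N → ℝ),
    ContDiffOn ℝ 2 u U → UC u U → ∀ B : Matrix (Fin N) (Fin N) ℂ, B.IsSymm → B ≠ 0 →
    (∀ y : Fin 4 → Fin N → ℂ, (Matrix.of fun a b => bf B (y a) (y b)).det = 0) →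
    (∀ x ∈ U, ∀ i j, bf B (cx (pd i u x)) (cx (pd j u x)) = 0) →
    ∀ O : Set E2, IsOpen O → O.Nonempty → O ⊆ U →
    ∃ x ∈ O, ∃ i j k l, bf B (cx (pd i (pd j u) x)) (cx (pd k (pd l u) x)) ≠ 0

/-- the complexified normal vector `C u_0 × C u_1` -/
noncomputable def Wc {N : ℕ} (u : E2 → Fin N → ℝ) (C : Matrix (Fin 3) (Fin N) ℂ) (x : E2) :
    Fin 3 → ℂ := (C *ᵥ cx (pd 0 u x)) ⨯₃ (C *ᵥ cx (pd 1 u x))

/-- BLOCK LOB: the normals stay finite at infinity. -/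
def Stmt_LOB : Prop := ∀ (U : Set E2), IsOpen U → ∀ (N : ℕ) (u : E2 → Fin N → ℝ),
    ContDiffOn ℝ 2 u U → ∀ (g : Fin 2 → Fin 2 → E2 → ℂ) (C : ℕ → Matrix (Fin 3) (Fin N) ℂ),
    (∀ n, ∀ x ∈ U, ∀ i j, (C n *ᵥ cx (pd i u x)) ⬝ᵥ (C n *ᵥ cx (pd j u x)) = g i j x) →
    (∀ x ∈ U, g 0 0 x * g 1 1 x - g 0 1 x ^ 2 ≠ 0) →
    ∀ (s : ℕ → ℝ) (B : Matrix (Fin N) (Fin N) ℂ), Tendsto s atTop atTop →
    Tendsto (fun n => ((s n : ℂ))⁻¹ • ((C n)ᵀ * C n)) atTop (𝓝 B) →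
    ∀ x ∈ U, ∀ y ∈ U,
    (∃ i j k l, bf B (cx (pd i (pd j u) x)) (cx (pd k (pd l u) x)) ≠ 0) →
    (∃ i j k l, bf B (cx (pd i (pd j u) y)) (cx (pd k (pd l u) y)) ≠ 0) →
    ∃ M : ℝ, ∀ n, ‖Wc u (C n) x ⬝ᵥ Wc u (C n) y‖ ≤ M

/-- BLOCK LOC: the Gauss map does not depend on `t` (where there is unique continuation). -/
def Stmt_LOC : Prop := ∀ (U : Set E2), IsOpen U → ∀ (N : ℕ) (u : E2 → Fin N → ℝ),
    ContDiffOn ℝ 2 u U → UC u U → ∀ C : ℝ → Matrix (Fin 3) (Fin N) ℝ,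
    ContinuousOn C (Icc 0 1) →
    (∀ t ∈ Icc (0 : ℝ) 1, ∀ x ∈ U, ∀ i j, (C t *ᵥ pd i u x) ⬝ᵥ (C t *ᵥ pd j u x) =
      (C 0 *ᵥ pd i u x) ⬝ᵥ (C 0 *ᵥ pd j u x)) →
    (∀ x ∈ U, (C 0 *ᵥ pd 0 u x) ⨯₃ (C 0 *ᵥ pd 1 u x) ≠ 0) →
    ∀ t ∈ Icc (0 : ℝ) 1, ∀ x ∈ U, ∀ y ∈ U,
    ((C t *ᵥ pd 0 u x) ⨯₃ (C t *ᵥ pd 1 u x)) ⬝ᵥ ((C t *ᵥ pd 0 u y) ⨯₃ (C t *ᵥ pd 1 u y)) =
    ((C 0 *ᵥ pd 0 u x) ⨯₃ (C 0 *ᵥ pd 1 u x)) ⬝ᵥ ((C 0 *ᵥ pd 0 u y) ⨯₃ (C 0 *ᵥ pd 1 u y))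

/-- BLOCK HOM: every open set contains an open set with unique continuation. -/
def Stmt_HOM : Prop := ∀ (U : Set E2), IsOpen U → U.Nonempty → ∀ (M : ℕ) (v : E2 → Fin M → ℝ),
    ∃ O : Set E2, IsOpen O ∧ O.Nonempty ∧ O ⊆ U ∧ ∃ (N : ℕ) (s : Fin N → Fin M)
      (a : Fin M → ℝ) (m : Matrix (Fin M) (Fin N) ℝ),
      (∀ x ∈ O, v x = a + m *ᵥ (fun j => v x (s j))) ∧ UC (fun x j => v x (s j)) O

/-! ### Surfaces -/

/-- a family `F t x = c t *ᵥ v x` of isometric immersions -/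
structure Fam (U : Set E2) (M : ℕ) (v : E2 → Fin M → ℝ) (c : ℝ → Matrix (Fin 3) (Fin M) ℝ) :
    Prop where
  isOpen : IsOpen U
  smooth : ContDiffOn ℝ 4 v U
  cont : ContinuousOn c (Icc 0 1)
  iso : ∀ t ∈ Icc (0 : ℝ) 1, ∀ x ∈ U, ∀ i j,
    gg (fun y => c t *ᵥ v y) i j x = gg (fun y => c 0 *ᵥ v y) i j x
  pos : ∀ x ∈ U, 0 < DD (fun y => c 0 *ᵥ v y) x

/-- BLOCK GAU: the third fundamental form does not depend on `t`. -/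
def Stmt_GAU : Prop := ∀ (U : Set E2) (M : ℕ) (v : E2 → Fin M → ℝ)
    (c : ℝ → Matrix (Fin 3) (Fin M) ℝ), Fam U M v c →
    ∀ t ∈ Icc (0 : ℝ) 1, ∀ x ∈ U, ∀ i j,
    III (fun y => c t *ᵥ v y) i j x = III (fun y => c 0 *ᵥ v y) i j x

/-- Christoffel symbols of the first kind `F_ij · F_k` -/
noncomputable def Ga (F : E2 → V3) (i j k : Fin 2) (x : E2) : ℝ := pd i (pd j F) x ⬝ᵥ pd k F x

/-- Christoffel symbols of the second kind -/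
noncomputable def Gb (F : E2 → V3) (l i j : Fin 2) (x : E2) : ℝ :=
  if l = 0 then (gg F 1 1 x * Ga F i j 0 x - gg F 0 1 x * Ga F i j 1 x) / DD F x
  else (gg F 0 0 x * Ga F i j 1 x - gg F 0 1 x * Ga F i j 0 x) / DD F x

/-- BLOCK FRM: the equations of Gauss and Weingarten. -/
def Stmt_FRM : Prop := ∀ (U : Set E2), IsOpen U → ∀ (F : E2 → V3), Imm F U → ∀ x ∈ U,
    NN F x ⬝ᵥ NN F x = 1 ∧ (∀ k, pd k F x ⬝ᵥ NN F x = 0) ∧ WW F x = Real.sqrt (DD F x) • NN F x ∧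
    (∀ w : V3, w = ((gg F 1 1 x * (w ⬝ᵥ pd 0 F x) - gg F 0 1 x * (w ⬝ᵥ pd 1 F x)) / DD F x) •
        pd 0 F x +
      ((gg F 0 0 x * (w ⬝ᵥ pd 1 F x) - gg F 0 1 x * (w ⬝ᵥ pd 0 F x)) / DD F x) • pd 1 F x +
      (w ⬝ᵥ NN F x) • NN F x) ∧
    (∀ i j, II F i j x = II F j i x) ∧
    (∀ i j, pd i (pd j F) x = Gb F 0 i j x • pd 0 F x + Gb F 1 i j x • pd 1 F x +
      II F i j x • NN F x) ∧
    (∀ i, pd i (NN F) x ⬝ᵥ NN F x = 0) ∧ (∀ i j, pd i (NN F) x ⬝ᵥ pd j F x = - II F i j x) ∧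
    ContDiffOn ℝ 3 (NN F) U ∧ (∀ i j, ContDiffOn ℝ 2 (II F i j) U)

/-- BLOCK WEI: the third fundamental form. -/
def Stmt_WEI : Prop := ∀ (U : Set E2), IsOpen U → ∀ (F : E2 → V3), Imm F U → ∀ x ∈ U, ∀ i j,
    III F i j x = tau F x * II F i j x - del F x * gg F i j x

/-- BLOCK PTW: the mean curvature does not depend on `t`, and the second fundamental form does
not where it is not zero. -/
def Stmt_PTW : Prop := ∀ (U : Set E2) (M : ℕ) (v : E2 → Fin M → ℝ)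
    (c : ℝ → Matrix (Fin 3) (Fin M) ℝ), Fam U M v c →
    ∀ t ∈ Icc (0 : ℝ) 1, ∀ x ∈ U,
    tau (fun y => c t *ᵥ v y) x = tau (fun y => c 0 *ᵥ v y) x ∧
    (tau (fun y => c 0 *ᵥ v y) x ≠ 0 → ∀ i j,
      II (fun y => c t *ᵥ v y) i j x = II (fun y => c 0 *ᵥ v y) i j x)

/-- BLOCK CHR: Christoffel symbols. -/
def Stmt_CHR : Prop := ∀ (U : Set E2), IsOpen U → ∀ (F : E2 → V3), Imm F U →
    (∀ x ∈ U, ∀ i j k, pd k (gg F i j) x = Ga F k i j x + Ga F k j i x) ∧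
    (∀ x ∈ U, ∀ i j k, Ga F i j k x = Ga F j i k x) ∧
    ∀ (F' : E2 → V3), Imm F' U → (∀ x ∈ U, ∀ i j, gg F' i j x = gg F i j x) →
    ∀ x ∈ U, ∀ i j k, Ga F' i j k x = Ga F i j k x ∧ Gb F' i j k x = Gb F i j k x

/-- BLOCK COD: the Codazzi equations. -/
def Stmt_COD : Prop := ∀ (U : Set E2), IsOpen U → ∀ (F : E2 → V3), Imm F U → ∀ x ∈ U,
    pd 1 (II F 0 0) x - pd 0 (II F 0 1) x =
      Gb F 0 0 1 x * II F 0 0 x + Gb F 1 0 1 x * II F 1 0 x -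
      Gb F 0 0 0 x * II F 0 1 x - Gb F 1 0 0 x * II F 1 1 x ∧
    pd 1 (II F 0 1) x - pd 0 (II F 1 1) x =
      Gb F 0 1 1 x * II F 0 0 x + Gb F 1 1 1 x * II F 1 0 x -
      Gb F 0 0 1 x * II F 0 1 x - Gb F 1 0 1 x * II F 1 1 x

/-- the complex structure: `dx + β dy` is of type `(1,0)` -/
noncomputable def bet (F : E2 → V3) (x : E2) : ℂ :=
  ((gg F 0 1 x : ℂ) + Complex.I * (Real.sqrt (DD F x) : ℂ)) / (gg F 0 0 x : ℂ)

/-- the quadratic differential of the difference of the second fundamental forms -/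
noncomputable def phi (F F' : E2 → V3) (x : E2) : ℂ :=
  ((II F' 0 0 x - II F 0 0 x : ℝ) : ℂ) +
    Complex.I * ((((II F' 0 0 x - II F 0 0 x) * (bet F x).re - (II F' 0 1 x - II F 0 1 x)) /
      (bet F x).im : ℝ) : ℂ)

/-- BLOCK BEL: the quadratic differential is holomorphic. -/
def Stmt_BEL : Prop := ∀ (U : Set E2), IsOpen U → ∀ (F F' : E2 → V3), Imm F U → Imm F' U →
    (∀ x ∈ U, ∀ i j, gg F' i j x = gg F i j x) → (∀ x ∈ U, tau F' x = tau F x) →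
    ContDiffOn ℝ 2 (bet F) U ∧ (∀ x ∈ U, 0 < (bet F x).im) ∧ ContDiffOn ℝ 2 (phi F F') U ∧
    (∀ x ∈ U, pd 1 (phi F F') x - bet F x * pd 0 (phi F F') x =
      2 * pd 0 (bet F) x * phi F F' x) ∧
    ∀ x ∈ U, (phi F F' x = 0 ↔ ∀ i j, II F' i j x = II F i j x)

/-- BLOCK SDT: the second derivative test. -/
def Stmt_SDT : Prop := ∀ (U : Set E2), IsOpen U → ∀ (E : E2 → ℝ), ContDiffOn ℝ 2 E U →
    ∀ x ∈ U, IsLocalMax E x → (∀ i, pd i E x = 0) ∧ ∀ a b c : ℝ, 0 ≤ a → 0 ≤ c → b ^ 2 ≤ a * c →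
      a * pd 0 (pd 0 E) x + 2 * b * pd 0 (pd 1 E) x + c * pd 1 (pd 1 E) x ≤ 0

/-- BLOCK UCP: unique continuation for the Beltrami equation. -/
def Stmt_UCP : Prop := ∀ (U : Set E2), IsOpen U → IsPreconnected U → ∀ (β c φ : E2 → ℂ),
    ContDiffOn ℝ 1 β U → ContDiffOn ℝ 1 c U → ContDiffOn ℝ 2 φ U → (∀ x ∈ U, 0 < (β x).im) →
    (∀ x ∈ U, pd 1 φ x - β x * pd 0 φ x = c x * φ x) →
    ∀ O : Set E2, IsOpen O → O.Nonempty → O ⊆ U → (∀ x ∈ O, φ x = 0) → ∀ x ∈ U, φ x = 0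

/-- rotations -/
def SO3 (R : Matrix (Fin 3) (Fin 3) ℝ) : Prop := Rᵀ * R = 1 ∧ R.det = 1

/-- `F'` is the image of `F` under a direct motion, on `O` -/
def Cong (F F' : E2 → V3) (O : Set E2) : Prop :=
  ∃ R, SO3 R ∧ ∃ b : V3, ∀ x ∈ O, F' x = R *ᵥ F x + b

/-- BLOCK FUN: the uniqueness theorem of surface theory. -/
def Stmt_FUN : Prop := ∀ (U : Set E2), IsOpen U → IsPreconnected U → U.Nonempty →
    ∀ (F F' : E2 → V3), Imm F U → Imm F' U →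
    (∀ x ∈ U, ∀ i j, gg F' i j x = gg F i j x) → (∀ x ∈ U, ∀ i j, II F' i j x = II F i j x) →
    Cong F F' U

/-- BLOCK MOT: motions preserve the second fundamental form and are determined by a piece of a
surface. -/
def Stmt_MOT : Prop := ∀ (O : Set E2), IsOpen O → O.Nonempty → ∀ (F : E2 → V3), Imm F O →
    (∀ F' : E2 → V3, Cong F F' O → ∀ x ∈ O, ∀ i j, II F' i j x = II F i j x) ∧
    ∀ (R R' : Matrix (Fin 3) (Fin 3) ℝ) (b b' : V3), SO3 R → SO3 R' →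
      (∀ x ∈ O, R *ᵥ F x + b = R' *ᵥ F x + b') → R = R' ∧ b = b'

/-- BLOCK FAR: a farthest point is not minimal. -/
def Stmt_FAR : Prop := ∀ (U : Set E2), IsOpen U → ∀ (F : E2 → V3), Imm F U → ∀ x ∈ U,
    IsLocalMax (fun y => F y ⬝ᵥ F y) x → tau F x ≠ 0

/-- BLOCK CHT: congruence propagates in a chart. -/
def Stmt_CHT : Prop := ∀ (U : Set E2) (M : ℕ) (v : E2 → Fin M → ℝ)
    (c : ℝ → Matrix (Fin 3) (Fin M) ℝ), Fam U M v c → IsPreconnected U →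
    ∀ t ∈ Icc (0 : ℝ) 1, ((∃ x ∈ U, tau (fun y => c 0 *ᵥ v y) x ≠ 0) ∨
      ∃ O : Set E2, IsOpen O ∧ O.Nonempty ∧ O ⊆ U ∧
        Cong (fun y => c 0 *ᵥ v y) (fun y => c t *ᵥ v y) O) →
    Cong (fun y => c 0 *ᵥ v y) (fun y => c t *ᵥ v y) U

end Pool.FR
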