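import Pool.Agent.Work.MP_02e829_fr.Interface

/-! # Block LOB: the normals stay finite at infinity -/

open Set Matrix Filter
open scoped Topology ContDiff

set_option autoImplicit false

namespace Pool.FR

namespace LOB

variable {N : ℕ}

lemma bf_add_left (B : Matrix (Fin N) (Fin N) ℂ) (x y z : Fin N → ℂ) :
    bf B (x + y) z = bf B x z + bf B y z := by
  simp [bf, add_dotProduct]

lemma bf_add_right (B : Matrix (Fin N) (Fin N) ℂ) (x y z : Fin N → ℂ) :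
    bf B x (y + z) = bf B x y + bf B x z := by
  simp [bf, mulVec_add, dotProduct_add]

lemma bf_smul_left (B : Matrix (Fin N) (Fin N) ℂ) (c : ℂ) (x y : Fin N → ℂ) :
    bf B (c • x) y = c * bf B x y := by
  simp [bf]

lemma bf_smul_right (B : Matrix (Fin N) (Fin N) ℂ) (c : ℂ) (x y : Fin N → ℂ) :
    bf B x (c • y) = c * bf B x y := by
  simp [bf, mulVec_smul]

lemma bf_symm {B : Matrix (Fin N) (Fin N) ℂ} (hB : B.IsSymm) (x y : Fin N → ℂ) :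
    bf B x y = bf B y x := by
  unfold bf
  rw [dotProduct_mulVec, ← mulVec_transpose, hB, dotProduct_comm]

lemma bf_gram (C : Matrix (Fin 3) (Fin N) ℂ) (x y : Fin N → ℂ) :
    bf (Cᵀ * C) x y = (C *ᵥ x) ⬝ᵥ (C *ᵥ y) := by
  unfold bf
  rw [← mulVec_mulVec, dotProduct_mulVec, ← mulVec_transpose, transpose_transpose]

lemma bf_mat_smul (c : ℂ) (B : Matrix (Fin N) (Fin N) ℂ) (x y : Fin N → ℂ) :
    bf (c • B) x y = c * bf B x y := by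
  simp [bf, smul_mulVec]

lemma bf_mat_sub (A B : Matrix (Fin N) (Fin N) ℂ) (x y : Fin N → ℂ) :
    bf (A - B) x y = bf A x y - bf B x y := by
  simp [bf, sub_mulVec]

lemma bf_tendsto {Q : ℕ → Matrix (Fin N) (Fin N) ℂ} {B : Matrix (Fin N) (Fin N) ℂ}
    (h : Tendsto Q atTop (𝓝 B)) (x y : Fin N → ℂ) :
    Tendsto (fun n => bf (Q n) x y) atTop (𝓝 (bf B x y)) := by
  have hc : Continuous fun A : Matrix (Fin N) (Fin N) ℂ => bf A x y := by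
    unfold bf
    fun_prop
  exact (hc.tendsto B).comp h

/-- decomposition in the basis `f, g, f × g` -/
lemma decomp (f g a : Fin 3 → ℂ) :
    ((f ⬝ᵥ f) * (g ⬝ᵥ g) - (f ⬝ᵥ g) ^ 2) • a =
      (a ⬝ᵥ f) • ((g ⬝ᵥ g) • f - (f ⬝ᵥ g) • g) + (a ⬝ᵥ g) • ((f ⬝ᵥ f) • g - (f ⬝ᵥ g) • f)
      + ((f ⨯₃ g) ⬝ᵥ a) • (f ⨯₃ g) := by
  ext i
  fin_cases i <;> simp [dotProduct, Fin.sum_univ_three, cross_apply] <;> ring

/-- the identity for two vectors which are orthogonal to the tangent planes -/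
lemma ident {f g a f' g' b : Fin 3 → ℂ} (h1 : a ⬝ᵥ f = 0) (h2 : a ⬝ᵥ g = 0) (h3 : b ⬝ᵥ f' = 0)
    (h4 : b ⬝ᵥ g' = 0) (hD : (f ⬝ᵥ f) * (g ⬝ᵥ g) - (f ⬝ᵥ g) ^ 2 ≠ 0)
    (hD' : (f' ⬝ᵥ f') * (g' ⬝ᵥ g') - (f' ⬝ᵥ g') ^ 2 ≠ 0) :
    ((f ⨯₃ g) ⬝ᵥ (f' ⨯₃ g')) ^ 2 * ((a ⬝ᵥ a) * (b ⬝ᵥ b)) =
      ((f ⬝ᵥ f) * (g ⬝ᵥ g) - (f ⬝ᵥ g) ^ 2) * ((f' ⬝ᵥ f') * (g' ⬝ᵥ g') - (f' ⬝ᵥ g') ^ 2)
        * (a ⬝ᵥ b) ^ 2 := by
  have e1 := decomp f g a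
  have e2 := decomp f' g' b
  rw [h1, h2, zero_smul, zero_smul, zero_add, zero_add] at e1
  rw [h3, h4, zero_smul, zero_smul, zero_add, zero_add] at e2
  set D := (f ⬝ᵥ f) * (g ⬝ᵥ g) - (f ⬝ᵥ g) ^ 2
  set D' := (f' ⬝ᵥ f') * (g' ⬝ᵥ g') - (f' ⬝ᵥ g') ^ 2
  set W := f ⨯₃ g
  set W' := f' ⨯₃ g'
  have k1 : D * (a ⬝ᵥ a) = (W ⬝ᵥ a) ^ 2 := by
    have := congrArg (fun z => z ⬝ᵥ a) e1
    simp only [smul_dotProduct, smul_eq_mul] at this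
    rw [this]; ring
  have k2 : D' * (b ⬝ᵥ b) = (W' ⬝ᵥ b) ^ 2 := by
    have := congrArg (fun z => z ⬝ᵥ b) e2
    simp only [smul_dotProduct, smul_eq_mul] at this
    rw [this]; ring
  have k3 : D * D' * (a ⬝ᵥ b) = (W ⬝ᵥ a) * (W' ⬝ᵥ b) * (W ⬝ᵥ W') := by
    have h5 : (D • a) ⬝ᵥ (D' • b) = ((W ⬝ᵥ a) • W) ⬝ᵥ ((W' ⬝ᵥ b) • W') := by rw [e1, e2]
    simp only [smul_dotProduct, dotProduct_smul, smul_eq_mul] at h5
    linear_combination h5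
  have k4 : D * D' * (D * D' * (a ⬝ᵥ b) ^ 2) = D * D' * ((W ⬝ᵥ W') ^ 2 * ((a ⬝ᵥ a) * (b ⬝ᵥ b))) := by
    calc D * D' * (D * D' * (a ⬝ᵥ b) ^ 2) = (D * D' * (a ⬝ᵥ b)) ^ 2 := by ring
      _ = (W ⬝ᵥ a) ^ 2 * (W' ⬝ᵥ b) ^ 2 * (W ⬝ᵥ W') ^ 2 := by rw [k3]; ring
      _ = D * D' * ((W ⬝ᵥ W') ^ 2 * ((a ⬝ᵥ a) * (b ⬝ᵥ b))) := by rw [← k1, ← k2]; ring
  exact (mul_left_cancel₀ (mul_ne_zero hD hD') k4).symm

/-- the data at one point: a vector `e` with `B(e,e) ≠ 0` such that all `C n e` are orthogonal to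
the two tangent vectors -/
lemma point {C : ℕ → Matrix (Fin 3) (Fin N) ℂ} {B : Matrix (Fin N) (Fin N) ℂ} {s : ℕ → ℝ}
    (hs : Tendsto s atTop atTop)
    (hB : Tendsto (fun n => ((s n : ℂ))⁻¹ • ((C n)ᵀ * C n)) atTop (𝓝 B))
    (hsym : B.IsSymm)
    (t : Fin 2 → Fin N → ℂ) (w : Fin 2 → Fin 2 → Fin N → ℂ) (g : Fin 2 → Fin 2 → ℂ)
    (h : Fin 2 → Fin 2 → Fin 2 → ℂ)
    (hg : ∀ n i j, (C n *ᵥ t i) ⬝ᵥ (C n *ᵥ t j) = g i j)
    (hh : ∀ n i j k, (C n *ᵥ w i j) ⬝ᵥ (C n *ᵥ t k) = h i j k)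
    (hD : g 0 0 * g 1 1 - g 0 1 ^ 2 ≠ 0)
    (hne : ∃ i j k l, bf B (w i j) (w k l) ≠ 0) :
    ∃ e : Fin N → ℂ, bf B e e ≠ 0 ∧ ∀ n, (C n *ᵥ e) ⬝ᵥ (C n *ᵥ t 0) = 0 ∧
      (C n *ᵥ e) ⬝ᵥ (C n *ᵥ t 1) = 0 := by
  have sinv : Tendsto (fun n => ((s n : ℂ))⁻¹) atTop (𝓝 0) := by
    have h1 : Tendsto (fun n => (s n)⁻¹) atTop (𝓝 0) := tendsto_inv_atTop_zero.comp hs
    have h2 := (Complex.continuous_ofReal.tendsto 0).comp h1
    simpa [Function.comp_def] using h2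
  -- limits of constant sequences
  have lim0 : ∀ x y : Fin N → ℂ, ∀ c : ℂ, (∀ n, (C n *ᵥ x) ⬝ᵥ (C n *ᵥ y) = c) → bf B x y = 0 := by
    intro x y c hc
    have h1 := bf_tendsto hB x y
    have h2 : (fun n => bf (((s n : ℂ))⁻¹ • ((C n)ᵀ * C n)) x y) = fun n => ((s n : ℂ))⁻¹ * c := by
      funext n
      rw [bf_mat_smul, bf_gram, hc n]
    rw [h2] at h1
    have h3 := sinv.mul_const c
    rw [zero_mul] at h3
    exact tendsto_nhds_unique h1 h3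
  have Bt : ∀ i j, bf B (t i) (t j) = 0 := fun i j => lim0 _ _ _ (fun n => hg n i j)
  -- a vector with B(e,e) ≠ 0 and constant products
  obtain ⟨e, he, c0, c1, hc0, hc1⟩ : ∃ e : Fin N → ℂ, bf B e e ≠ 0 ∧ ∃ c0 c1 : ℂ,
      (∀ n, (C n *ᵥ e) ⬝ᵥ (C n *ᵥ t 0) = c0) ∧ (∀ n, (C n *ᵥ e) ⬝ᵥ (C n *ᵥ t 1) = c1) := by
    obtain ⟨i, j, k, l, hne⟩ := hne
    by_cases h1 : bf B (w i j) (w i j) = 0
    · by_cases h2 : bf B (w k l) (w k l) = 0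
      · refine ⟨w i j + w k l, ?_, h i j 0 + h k l 0, h i j 1 + h k l 1, fun n => ?_, fun n => ?_⟩
        · rw [bf_add_left, bf_add_right, bf_add_right, h1, h2, bf_symm hsym (w k l) (w i j)]
          intro h3
          apply hne
          have : 2 * bf B (w i j) (w k l) = 0 := by linear_combination h3
          simpa using this
        · rw [mulVec_add, add_dotProduct, hh, hh]
        · rw [mulVec_add, add_dotProduct, hh, hh]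
      · exact ⟨w k l, h2, _, _, fun n => hh n k l 0, fun n => hh n k l 1⟩
    · exact ⟨w i j, h1, _, _, fun n => hh n i j 0, fun n => hh n i j 1⟩
  set D := g 0 0 * g 1 1 - g 0 1 ^ 2 with hDdef
  set α := (c0 * g 1 1 - c1 * g 0 1) / D with hα
  set β := (c1 * g 0 0 - c0 * g 0 1) / D with hβ
  have g10 : g 1 0 = g 0 1 := by
    rw [← hg 0 1 0, ← hg 0 0 1, dotProduct_comm]
  refine ⟨e + (-α) • t 0 + (-β) • t 1, ?_, fun n => ⟨?_, ?_⟩⟩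
  · have Be0 : bf B e (t 0) = 0 := lim0 _ _ _ hc0
    have Be1 : bf B e (t 1) = 0 := lim0 _ _ _ hc1
    simp only [bf_add_left, bf_add_right, bf_smul_left, bf_smul_right, bf_symm hsym (t _) e, Be0,
      Be1, Bt]
    simpa using he
  · rw [mulVec_add, mulVec_add, mulVec_smul, mulVec_smul, add_dotProduct, add_dotProduct,
      smul_dotProduct, smul_dotProduct, hc0, hg, hg, g10, smul_eq_mul, smul_eq_mul, hα, hβ]
    field_simp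
    rw [hDdef]
    ring
  · rw [mulVec_add, mulVec_add, mulVec_smul, mulVec_smul, add_dotProduct, add_dotProduct,
      smul_dotProduct, smul_dotProduct, hc1, hg, hg, smul_eq_mul, smul_eq_mul, hα, hβ]
    field_simp
    rw [hDdef]
    ring

end LOB

open LOB in
theorem blk_LOB (hK : Stmt_KOS) : Stmt_LOB := by
  intro U hU N u hu g C hg hD s B hs hB x hx y hy hx2 hy2
  -- symmetry of the limit
  have hQsym : ∀ n, ((C n)ᵀ * C n).IsSymm := fun n => by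
    rw [Matrix.IsSymm, transpose_mul, transpose_transpose]
  have hsym : B.IsSymm := by
    have h1 : Tendsto (fun n => (((s n : ℂ))⁻¹ • ((C n)ᵀ * C n))ᵀ) atTop (𝓝 Bᵀ) :=
      ((continuous_id.matrix_transpose).tendsto B).comp hB
    have h2 : (fun n => (((s n : ℂ))⁻¹ • ((C n)ᵀ * C n))ᵀ) =
        fun n => ((s n : ℂ))⁻¹ • ((C n)ᵀ * C n) := by
      funext n
      rw [transpose_smul, hQsym n]
    rw [h2] at h1
    exact tendsto_nhds_unique h1 hB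
  -- the Koszul formula
  have hkos : ∀ n, ∀ z ∈ U, ∀ i j k, (C n *ᵥ cx (pd i (pd j u) z)) ⬝ᵥ (C n *ᵥ cx (pd k u z)) =
      (C 0 *ᵥ cx (pd i (pd j u) z)) ⬝ᵥ (C 0 *ᵥ cx (pd k u z)) := by
    intro n z hz i j k
    have h1 := hK U hU N u hu ((C n)ᵀ * C n - (C 0)ᵀ * C 0)
      (by rw [Matrix.IsSymm, transpose_sub, hQsym n, hQsym 0])
      (fun z hz i j => by rw [bf_mat_sub, bf_gram, bf_gram, hg n z hz, hg 0 z hz, sub_self])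
      z hz i j k
    rw [bf_mat_sub, bf_gram, bf_gram, sub_eq_zero] at h1
    exact h1
  obtain ⟨a, ha, oa⟩ := point hs hB hsym (fun i => cx (pd i u x)) (fun i j => cx (pd i (pd j u) x))
    (fun i j => g i j x) (fun i j k => (C 0 *ᵥ cx (pd i (pd j u) x)) ⬝ᵥ (C 0 *ᵥ cx (pd k u x)))
    (fun n i j => hg n x hx i j) (fun n i j k => hkos n x hx i j k) (hD x hx) hx2
  obtain ⟨b, hb, ob⟩ := point hs hB hsym (fun i => cx (pd i u y)) (fun i j => cx (pd i (pd j u) y))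
    (fun i j => g i j y) (fun i j k => (C 0 *ᵥ cx (pd i (pd j u) y)) ⬝ᵥ (C 0 *ᵥ cx (pd k u y)))
    (fun n i j => hg n y hy i j) (fun n i j k => hkos n y hy i j k) (hD y hy) hy2
  set Dx := g 0 0 x * g 1 1 x - g 0 1 x ^ 2 with hDx
  set Dy := g 0 0 y * g 1 1 y - g 0 1 y ^ 2 with hDy
  -- the identity for every n
  have key : ∀ n, (Wc u (C n) x ⬝ᵥ Wc u (C n) y) ^ 2 *
      (((C n *ᵥ a) ⬝ᵥ (C n *ᵥ a)) * ((C n *ᵥ b) ⬝ᵥ (C n *ᵥ b))) =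
      Dx * Dy * ((C n *ᵥ a) ⬝ᵥ (C n *ᵥ b)) ^ 2 := by
    intro n
    have h1 := ident (f := C n *ᵥ cx (pd 0 u x)) (g := C n *ᵥ cx (pd 1 u x)) (a := C n *ᵥ a)
      (f' := C n *ᵥ cx (pd 0 u y)) (g' := C n *ᵥ cx (pd 1 u y)) (b := C n *ᵥ b)
      (oa n).1 (oa n).2 (ob n).1 (ob n).2
      (by rw [hg n x hx, hg n x hx, hg n x hx]; exact hD x hx)
      (by rw [hg n y hy, hg n y hy, hg n y hy]; exact hD y hy)
    rw [hg n x hx, hg n x hx, hg n x hx, hg n y hy, hg n y hy, hg n y hy] at h1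
    exact h1
  -- the limits
  have t1 := bf_tendsto hB a a
  have t2 := bf_tendsto hB b b
  have t3 := bf_tendsto hB a b
  simp only [bf_mat_smul, bf_gram] at t1 t2 t3
  have t4 := t1.mul t2
  have hne : bf B a a * bf B b b ≠ 0 := mul_ne_zero ha hb
  have t5 := ((t3.pow 2).const_mul (Dx * Dy)).div t4 hne
  have ev : (fun n => Dx * Dy * (((s n : ℂ))⁻¹ * ((C n *ᵥ a) ⬝ᵥ (C n *ᵥ b))) ^ 2 /
      (((s n : ℂ))⁻¹ * ((C n *ᵥ a) ⬝ᵥ (C n *ᵥ a)) * (((s n : ℂ))⁻¹ * ((C n *ᵥ b) ⬝ᵥ (C n *ᵥ b)))))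
      =ᶠ[atTop] fun n => (Wc u (C n) x ⬝ᵥ Wc u (C n) y) ^ 2 := by
    filter_upwards [t4.eventually_ne hne] with n hn
    rw [div_eq_iff hn]
    linear_combination (-((s n : ℂ))⁻¹ ^ 2) * key n
  have t6 := t5.congr' ev
  obtain ⟨M, hM⟩ := t6.norm.bddAbove_range
  refine ⟨M + 1, fun n => ?_⟩
  have h1 : ‖(Wc u (C n) x ⬝ᵥ Wc u (C n) y) ^ 2‖ ≤ M := hM ⟨n, rfl⟩
  rw [norm_pow] at h1
  nlinarith [norm_nonneg (Wc u (C n) x ⬝ᵥ Wc u (C n) y), sq_nonneg (‖Wc u (C n) x ⬝ᵥ Wc u (C n) y‖ - 1),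
    sq_nonneg (‖Wc u (C n) x ⬝ᵥ Wc u (C n) y‖)]

end Pool.FR
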